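import Pool.Agent.Lib.MP_021685_agZ.Five

/-!
# The minimal idempotent, frame free, with a supertrace

LEAF. Guide: `HalfFive.half_five` (`agZ/Five.lean`), the same proof with the pairing
`(f, g) ↦ tr (K_m g f t)`, where `K n : W n → W n` commutes with the family and `K 0 = id`.
`claimA`: `x = t g f t`; `tr (K x) = tr (K g f t) ≠ 0` (`K` commutes with `t`, `g f`), `K` commutes
with `x`, so if `x` were nilpotent `K x` would be nilpotent and its trace `0`;
`exists_idem_of_not_nilpotent` gives the idempotent. In `half_five` the traces on `W 0` are not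
changed (`K 0 = id`), and `tr (K_r (g e_i) (f_i f t)) = tr (f_i f t K_r g e_i) =
tr_{W 0} (f_i f t g e_i)` since `K_r g e_i = g e_i K_0 = g e_i`.
Reuse `HalfFive.dual_bases`, `scalar_of_line`, `exists_pi`, `algC`, `exists_idem_of_not_nilpotent`
(for `m = 0` and `t = id` the old `rkT` may be used as it is).
-/

set_option autoImplicit false
set_option linter.unusedSectionVars false

namespace MP021685Y

open Module HalfFive

variable {k : Type*} [Field k]

variable {W : ℕ → Type*} [∀ n, AddCommGroup (W n)] [∀ n, Module k (W n)]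

/-- the pairing `(f, g) ↦ tr (K g f t)` -/
noncomputable def pairK (C : ∀ m n, Submodule k (W m →ₗ[k] W n)) (K : ∀ n, W n →ₗ[k] W n)
    (m n : ℕ) (t : W m →ₗ[k] W m) : C m n →ₗ[k] C n m →ₗ[k] k :=
  LinearMap.mk₂ k (fun f g => LinearMap.trace k (W m)
      (K m ∘ₗ (g : W n →ₗ[k] W m) ∘ₗ (f : W m →ₗ[k] W n) ∘ₗ t))
    (by intros; simp [LinearMap.comp_add, LinearMap.add_comp])
    (by intros; simp [LinearMap.comp_smul, LinearMap.smul_comp])
    (by intros; simp [LinearMap.comp_add, LinearMap.add_comp])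
    (by intros; simp [LinearMap.comp_smul, LinearMap.smul_comp])

/-- `h(t, n)`: the rank of the pairing `(f, g) ↦ tr (K g f t)` on `C m n × C n m` -/
noncomputable def rkK (C : ∀ m n, Submodule k (W m →ₗ[k] W n)) (K : ∀ n, W n →ₗ[k] W n)
    (m n : ℕ) (t : W m →ₗ[k] W m) : ℕ :=
  finrank k (C m n ⧸ LinearMap.ker (pairK C K m n t))

lemma pairK_apply (C : ∀ m n, Submodule k (W m →ₗ[k] W n)) (K : ∀ n, W n →ₗ[k] W n)
    (m n : ℕ) (t : W m →ₗ[k] W m) (f : C m n) (g : C n m) : pairK C K m n t f g =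
      LinearMap.trace k (W m) (K m ∘ₗ (g : W n →ₗ[k] W m) ∘ₗ (f : W m →ₗ[k] W n) ∘ₗ t) := rfl

/-- Claim A: minimality of `t` forces `f u ≠ 0` -/
lemma Five_claimA (C : ∀ m n, Submodule k (W m →ₗ[k] W n)) [∀ n, FiniteDimensional k (W n)]
    (hcomp : ∀ l m n, ∀ g ∈ C m n, ∀ f ∈ C l m, g ∘ₗ f ∈ C l n)
    (hid : ∀ n, LinearMap.id ∈ C n n) (K : ∀ n, W n →ₗ[k] W n)
    (hK : ∀ m n, ∀ f ∈ C m n, K n ∘ₗ f = f ∘ₗ K m) (U : ∀ n, Submodule k (W n)) (r : ℕ)
    (t : W r →ₗ[k] W r) (htC : t ∈ C r r) (htt : t ∘ₗ t = t)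
    (hmin : ∀ t' ∈ C r r, t' ∘ₗ t' = t' → t' ∘ₗ t = t' → t ∘ₗ t' = t' → (∃ v ∈ U r, t' v ≠ 0) →
      finrank k (LinearMap.range t) ≤ finrank k (LinearMap.range t'))
    (u : W r) (huU : u ∈ U r) (htu : t u = u) (hu0 : u ≠ 0)
    (n : ℕ) (f : W r →ₗ[k] W n) (hf : f ∈ C r n) (g : W n →ₗ[k] W r) (hg : g ∈ C n r)
    (htr : LinearMap.trace k (W r) (K r ∘ₗ g ∘ₗ f ∘ₗ t) ≠ 0) : f u ≠ 0 := by
  intro hfu
  set x : Module.End k (W r) := t ∘ₗ g ∘ₗ f ∘ₗ t with hx
  have hxC : x ∈ algC C hcomp hid r :=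
    hcomp r r r t htC _ (hcomp r n r g hg _ (hcomp r r n f hf t htC))
  have htrx : LinearMap.trace k (W r) (K r * x) ≠ 0 := by
    have : LinearMap.trace k (W r) (K r * x) = LinearMap.trace k (W r) (K r ∘ₗ g ∘ₗ f ∘ₗ t) := by
      have h1 : K r * x = t ∘ₗ (K r ∘ₗ g ∘ₗ f ∘ₗ t) := by
        show K r ∘ₗ (t ∘ₗ g ∘ₗ f ∘ₗ t) = _
        rw [← LinearMap.comp_assoc, hK r r t htC, LinearMap.comp_assoc]
      rw [h1, LinearMap.trace_comp_comm' (K r ∘ₗ g ∘ₗ f ∘ₗ t) t]
      simp only [LinearMap.comp_assoc, htt]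
    rw [this]; exact htr
  have hxn : ¬ IsNilpotent x := by
    intro hn
    have hcomm : Commute (K r) x := hK r r x hxC
    exact htrx (LinearMap.isNilpotent_trace_of_isNilpotent (hcomm.isNilpotent_mul_left hn)).eq_zero
  obtain ⟨p, hp1, hp2⟩ := exists_idem_of_not_nilpotent x hxn
  set e : Module.End k (W r) := Polynomial.aeval x p * x with he
  have hxt : x ∘ₗ t = x := by
    rw [hx]; simp only [LinearMap.comp_assoc, htt]
  have htx : t ∘ₗ x = x := by
    rw [hx, ← LinearMap.comp_assoc, htt]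
  have het : e ∘ₗ t = e := by
    have : e * t = e := by
      rw [he, mul_assoc]
      congr 1
    exact this
  have hcomm : e = x * Polynomial.aeval x p := by
    rw [he]
    have h1 : x = Polynomial.aeval x (Polynomial.X : Polynomial k) := by rw [Polynomial.aeval_X]
    conv_lhs => rhs; rw [h1]
    conv_rhs => lhs; rw [h1]
    rw [← map_mul, ← map_mul, mul_comm]
  have hte : t ∘ₗ e = e := by
    have : t * e = e := by
      rw [hcomm, ← mul_assoc]
      congr 1
    exact this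
  have heC : e ∈ C r r := by
    have h1 : Polynomial.aeval x p ∈ algC C hcomp hid r :=
      Algebra.adjoin_le (by simpa using hxC) (Polynomial.aeval_mem_adjoin_singleton k x)
    exact (algC C hcomp hid r).mul_mem h1 hxC
  have heu : e u = 0 := by
    have : x u = 0 := by
      rw [hx]; simp [htu, hfu]
    rw [he, Module.End.mul_apply, this, map_zero]
  have hee : e ∘ₗ e = e := hp1
  set s : W r →ₗ[k] W r := t - e with hs
  have hsC : s ∈ C r r := (C r r).sub_mem htC heC
  have hss : s ∘ₗ s = s := by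
    rw [hs, LinearMap.sub_comp, LinearMap.comp_sub, LinearMap.comp_sub, htt, het, hte, hee]
    simp
  have hst : s ∘ₗ t = s := by
    rw [hs, LinearMap.sub_comp, htt, het]
  have hts : t ∘ₗ s = s := by
    rw [hs, LinearMap.comp_sub, htt, hte]
  have hsu : s u ≠ 0 := by
    rw [hs, LinearMap.sub_apply, htu, heu, sub_zero]; exact hu0
  have hle := hmin s hsC hss hst hts ⟨u, huU, hsu⟩
  have hlt : LinearMap.range s < LinearMap.range t := by
    refine lt_of_le_of_ne ?_ ?_
    · rintro _ ⟨v, rfl⟩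
      exact ⟨s v, by rw [← LinearMap.comp_apply, hts]⟩
    · intro heq
      apply hp2
      ext v
      have h1 : e v ∈ LinearMap.range t := ⟨e v, by rw [← LinearMap.comp_apply, hte]⟩
      rw [← heq] at h1
      obtain ⟨w, hw⟩ := h1
      have h2 : s (e v) = e v := by
        rw [← hw, ← LinearMap.comp_apply, hss]
      have h3 : s (e v) = 0 := by
        rw [hs, LinearMap.sub_apply, ← LinearMap.comp_apply, ← LinearMap.comp_apply, hte, hee,
          sub_self]
      rw [LinearMap.zero_apply, ← h2, h3]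
  exact absurd (Submodule.finrank_lt_finrank_of_lt hlt) (not_lt.mpr hle)

/-- If the numerical rank `a_r` is smaller than `dim U_r` for one `r`, there is an idempotent
`t ≠ 0` of `C r r` with `dim U_n ≥ a_n + rank of (f, g) ↦ tr (K g f t)` for ALL `n`. -/
theorem five' (C : ∀ m n, Submodule k (W m →ₗ[k] W n)) [∀ n, FiniteDimensional k (W n)]
    (hcomp : ∀ l m n, ∀ g ∈ C m n, ∀ f ∈ C l m, g ∘ₗ f ∈ C l n)
    (hid : ∀ n, LinearMap.id ∈ C n n) (h0 : finrank k (W 0) = 1)
    (K : ∀ n, W n →ₗ[k] W n) (hK0 : K 0 = LinearMap.id)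
    (hK : ∀ m n, ∀ f ∈ C m n, K n ∘ₗ f = f ∘ₗ K m)
    (U : ∀ n, Submodule k (W n)) (hU0 : U 0 = ⊤)
    (hU : ∀ m n, ∀ f ∈ C m n, ∀ u ∈ U m, f u ∈ U n) (r : ℕ)
    (hr : rkT C 0 r LinearMap.id < finrank k (U r)) :
    ∃ t ∈ C r r, t ∘ₗ t = t ∧ t ≠ 0 ∧
      ∀ n, rkT C 0 n LinearMap.id + rkK C K r n t ≤ finrank k (U n) := by
  classical
  -- the projectors `π_n`
  choose e f heC hfC hfe htrπ using exists_pi C h0
  set π : ∀ n, W n →ₗ[k] W n := fun n => ∑ i, e n i ∘ₗ f n i with hπ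
  have hπC : ∀ n, π n ∈ C n n := fun n =>
    Submodule.sum_mem _ fun i _ => hcomp n 0 n _ (heC n i) _ (hfC n i)
  have hfπ : ∀ n i, f n i ∘ₗ π n = f n i := by
    intro n i
    ext x
    simp only [hπ, LinearMap.comp_apply, LinearMap.sum_apply, map_sum]
    have : ∀ j, f n i (e n j (f n j x)) = if i = j then f n j x else 0 := by
      intro j
      rw [← LinearMap.comp_apply, hfe n i j]
      split_ifs <;> simp
    simp only [this]
    simp
  have hππ : ∀ n, π n ∘ₗ π n = π n := by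
    intro n
    ext x
    have : ∀ y, π n y = ∑ i, e n i (f n i y) := fun y => by simp [hπ, LinearMap.sum_apply]
    have h1 : ∀ i, f n i (π n x) = f n i x := fun i => by
      rw [← LinearMap.comp_apply (f n i) (π n) x, hfπ]
    rw [LinearMap.comp_apply, this (π n x)]
    simp only [h1]
    rw [← this x]
  set ρ : ∀ n, W n →ₗ[k] W n := fun n => LinearMap.id - π n with hρ
  have hρC : ∀ n, ρ n ∈ C n n := fun n => (C n n).sub_mem (hid n) (hπC n)
  have hρρ : ∀ n, ρ n ∘ₗ ρ n = ρ n := by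
    intro n
    simp only [hρ, LinearMap.sub_comp, LinearMap.comp_sub, LinearMap.id_comp, LinearMap.comp_id,
      hππ, sub_self, sub_zero]
  have hNρ : ∀ n, ∀ h ∈ C n 0, ∀ g ∈ C 0 n,
      LinearMap.trace k (W 0) (h ∘ₗ ρ n ∘ₗ g) = 0 := by
    intro n h hh g hg
    have := htrπ n h hh g hg
    simp only [hρ, LinearMap.sub_comp, LinearMap.comp_sub, LinearMap.id_comp, map_sub]
    rw [sub_eq_zero]
    exact this.symm
  -- `ρ r` does not kill `U r`
  have hex : ∃ u ∈ U r, ρ r u ≠ 0 := by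
    by_contra hcon
    push Not at hcon
    have hle : U r ≤ LinearMap.range (∑ i, (e r i) ∘ₗ (LinearMap.proj i :
        (Fin (rkT C 0 r LinearMap.id) → W 0) →ₗ[k] W 0)) := by
      intro u hu
      have h1 := hcon u hu
      rw [hρ] at h1
      simp only [LinearMap.sub_apply, LinearMap.id_apply] at h1
      refine ⟨fun i => f r i u, ?_⟩
      rw [sub_eq_zero] at h1
      conv_rhs => rw [h1]
      simp [hπ, LinearMap.sum_apply]
    have h2 := Submodule.finrank_mono hle
    have h3 := LinearMap.finrank_range_le (∑ i, (e r i) ∘ₗ (LinearMap.proj i :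
        (Fin (rkT C 0 r LinearMap.id) → W 0) →ₗ[k] W 0))
    rw [Module.finrank_pi_fintype] at h3
    simp only [h0, Finset.sum_const, Finset.card_univ, Fintype.card_fin, smul_eq_mul,
      mul_one] at h3
    omega
  -- a minimal idempotent
  let P : ℕ → Prop := fun d => ∃ t ∈ C r r, t ∘ₗ t = t ∧ ρ r ∘ₗ t = t ∧ t ∘ₗ ρ r = t ∧
    (∃ u ∈ U r, t u ≠ 0) ∧ finrank k (LinearMap.range t) = d
  have hP : ∃ d, P d := ⟨_, ρ r, hρC r, hρρ r, hρρ r, hρρ r, hex, rfl⟩
  obtain ⟨t, htC, htt, hρt, htρ, ⟨v, hvU, htv⟩, htd⟩ := Nat.find_spec hP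
  have hmin : ∀ t' ∈ C r r, t' ∘ₗ t' = t' → t' ∘ₗ t = t' → t ∘ₗ t' = t' →
      (∃ v ∈ U r, t' v ≠ 0) →
      finrank k (LinearMap.range t) ≤ finrank k (LinearMap.range t') := by
    intro t' ht'C ht't' ht't htt' hv'
    rw [htd]
    refine Nat.find_min' hP ⟨t', ht'C, ht't', ?_, ?_, hv', rfl⟩
    · rw [← htt', ← LinearMap.comp_assoc, hρt]
    · rw [← ht't, LinearMap.comp_assoc, htρ]
  set u : W r := t v with hu
  have huU : u ∈ U r := hU r r t htC v hvU
  have htu : t u = u := by rw [hu, ← LinearMap.comp_apply, htt]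
  have hN0 : ∀ h ∈ C r 0, ∀ g ∈ C 0 r, LinearMap.trace k (W 0) (h ∘ₗ t ∘ₗ g) = 0 := by
    intro h hh g hg
    have := hNρ r (h ∘ₗ t) (hcomp r r 0 h hh t htC) g hg
    have h2 : (h ∘ₗ t) ∘ₗ ρ r ∘ₗ g = h ∘ₗ (t ∘ₗ ρ r) ∘ₗ g := by
      simp only [LinearMap.comp_assoc]
    rw [h2, htρ] at this
    exact this
  refine ⟨t, htC, htt, ?_, ?_⟩
  · intro h
    apply htv
    rw [hu, h, LinearMap.zero_apply]
  intro n
  -- the map `f ↦ ρ_n f u`
  let Φ : C r n →ₗ[k] W n :=
    { toFun := fun f => ρ n ((f : W r →ₗ[k] W n) u)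
      map_add' := fun a b => by simp
      map_smul' := fun c a => by simp }
  have hΦ : ∀ f : C r n, Φ f = ρ n ((f : W r →ₗ[k] W n) u) := fun _ => rfl
  have hker : LinearMap.ker Φ ≤ LinearMap.ker (pairK C K r n t) := by
    intro f' hf'
    rw [LinearMap.mem_ker, hΦ] at hf'
    rw [LinearMap.mem_ker]
    by_contra hne
    obtain ⟨g, hg⟩ : ∃ g, pairK C K r n t f' g ≠ 0 := by
      by_contra hcon
      push Not at hcon
      exact hne (LinearMap.ext hcon)
    rw [pairK_apply] at hg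
    have hρf : ρ n ∘ₗ (f' : W r →ₗ[k] W n) ∈ C r n := hcomp r n n _ (hρC n) _ f'.2
    refine Five_claimA C hcomp hid K hK U r t htC htt hmin u huU htu htv n
      (ρ n ∘ₗ (f' : W r →ₗ[k] W n)) hρf g g.2 ?_ ?_
    · have h1 : K r ∘ₗ (g : W n →ₗ[k] W r) ∘ₗ (ρ n ∘ₗ (f' : W r →ₗ[k] W n)) ∘ₗ t =
          K r ∘ₗ (g : W n →ₗ[k] W r) ∘ₗ (f' : W r →ₗ[k] W n) ∘ₗ t -
          ∑ i, ((g : W n →ₗ[k] W r) ∘ₗ e n i) ∘ₗ (f n i ∘ₗ (f' : W r →ₗ[k] W n) ∘ₗ t) := by
        have hKe : ∀ i, ∀ y, K r ((g : W n →ₗ[k] W r) (e n i y)) =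
            (g : W n →ₗ[k] W r) (e n i y) := by
          intro i y
          have h := hK 0 r ((g : W n →ₗ[k] W r) ∘ₗ e n i) (hcomp 0 n r _ g.2 _ (heC n i))
          rw [hK0, LinearMap.comp_id] at h
          exact LinearMap.congr_fun h y
        ext x
        simp [hρ, hπ, LinearMap.sum_apply, map_sum, hKe]
      rw [h1, map_sub, map_sum, Finset.sum_eq_zero, sub_zero]
      · exact hg
      · intro i _
        rw [LinearMap.trace_comp_comm']
        have h2 := hN0 (f n i ∘ₗ (f' : W r →ₗ[k] W n)) (hcomp r n 0 _ (hfC n i) _ f'.2)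
          ((g : W n →ₗ[k] W r) ∘ₗ e n i) (hcomp 0 n r _ g.2 _ (heC n i))
        simpa only [LinearMap.comp_assoc] using h2
    · rw [LinearMap.comp_apply]; exact hf'
  -- dimension count
  have hrank : rkK C K r n t ≤ finrank k (LinearMap.range Φ) := by
    rw [← LinearEquiv.finrank_eq Φ.quotKerEquivRange]
    unfold rkK
    exact LinearMap.finrank_le_finrank_of_surjective (f := Submodule.factor hker)
      (Submodule.factor_surjective hker)
  -- the image of `π_n`
  obtain ⟨w, hw⟩ : ∃ w : W 0, w ≠ 0 := by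
    have : Nontrivial (W 0) := Module.nontrivial_of_finrank_pos (R := k) (by rw [h0]; exact one_pos)
    exact exists_ne 0
  let Ψ : (Fin (rkT C 0 n LinearMap.id) → k) →ₗ[k] W n :=
    { toFun := fun c => ∑ i, c i • e n i w
      map_add' := fun a b => by simp [add_smul, Finset.sum_add_distrib]
      map_smul' := fun c a => by simp [mul_smul, Finset.smul_sum] }
  have hΨ : ∀ c, Ψ c = ∑ i, c i • e n i w := fun _ => rfl
  have hfΨ : ∀ c i, f n i (Ψ c) = c i • w := by
    intro c i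
    rw [hΨ, map_sum]
    have : ∀ j, f n i (c j • e n j w) = if i = j then c j • w else 0 := by
      intro j
      rw [map_smul, ← LinearMap.comp_apply, hfe n i j]
      split_ifs <;> simp
    simp only [this]
    simp
  have hΨinj : Function.Injective Ψ := by
    rw [← LinearMap.ker_eq_bot, LinearMap.ker_eq_bot']
    intro c hc
    funext i
    have := hfΨ c i
    rw [hc, map_zero] at this
    exact (smul_eq_zero.mp this.symm).resolve_right hw
  have hdis : Disjoint (LinearMap.range Φ) (LinearMap.range Ψ) := by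
    rw [Submodule.disjoint_def]
    rintro x ⟨g, rfl⟩ ⟨c, hc⟩
    have h1 : ∀ i, f n i (Φ g) = 0 := by
      intro i
      rw [hΦ]
      simp only [hρ, LinearMap.sub_apply, LinearMap.id_apply, map_sub]
      rw [← LinearMap.comp_apply (f n i) (π n), hfπ, sub_self]
    have h2 : c = 0 := by
      funext i
      have := hfΨ c i
      rw [hc, h1] at this
      exact (smul_eq_zero.mp this.symm).resolve_right hw
    rw [← hc, h2, map_zero]
  have hsup : LinearMap.range Φ ⊔ LinearMap.range Ψ ≤ U n := by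
    rw [sup_le_iff]
    constructor
    · rintro _ ⟨g, rfl⟩
      exact hU n n _ (hρC n) _ (hU r n _ g.2 _ huU)
    · rintro _ ⟨c, rfl⟩
      rw [hΨ]
      refine Submodule.sum_mem _ fun i _ => Submodule.smul_mem _ _ (hU 0 n _ (heC n i) _ ?_)
      rw [hU0]; trivial
  have h1 := Submodule.finrank_mono hsup
  have h2 := Submodule.finrank_sup_add_finrank_inf_eq (LinearMap.range Φ) (LinearMap.range Ψ)
  rw [hdis.eq_bot, finrank_bot, add_zero] at h2
  have h3 : finrank k (LinearMap.range Ψ) = rkT C 0 n LinearMap.id := by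
    rw [LinearMap.finrank_range_of_inj hΨinj]
    simp
  omega

end MP021685Y
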