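import Pool.Agent.Lib.MP_021685_agY.Bridge
import Pool.Agent.Lib.MP_021685_agY.Five
import Pool.Agent.Lib.MP_021685_agZ.Inj

/-!
# The minimal idempotent

LEAF. Guide: `agZ/Inj.lean` (`linC`, `rkT_eq_prk`, `exists_idem`, `no_fail`, `fail_succ`; `linC`,
`mem_linC`, `U_zero`, `U_stable`, `classes_le`, `col`, `tens_one_mul`, `finrank_zero`,
`rank_eq_finrank_range` can be used as they are: they do not need the old structure).
`K n = Matrix.toLin' (Kd k odd (Fin n))`.
-/

set_option autoImplicit false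
set_option linter.unusedSectionVars false

namespace MP021685Y

open Matrix MP021685Z

variable {k : Type*} [Field k] {ι : Type} [Fintype ι] [DecidableEq ι]

variable {odd : ι → Bool} {B : Matrix ι ι k} {C : ∀ m n : ℕ, Submodule k (Mor k ι m n)}
  {U : ∀ n : ℕ, Submodule k ((Fin n → ι) → k)}

lemma Inj_linC_comp (hC : IsSuperFamily odd B C) : ∀ l m n, ∀ g ∈ linC C m n, ∀ f ∈ linC C l m,
    g ∘ₗ f ∈ linC C l n := by
  intro l m n g hg f hf
  rw [mem_linC, LinearMap.toMatrix'_comp]
  exact hC.comp_mem l m n _ _ hg hf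

lemma Inj_linC_id (hC : IsSuperFamily odd B C) : ∀ n, LinearMap.id ∈ linC C n n := by
  intro n
  rw [mem_linC, LinearMap.toMatrix'_id]
  exact hC.one_mem n

lemma Inj_Kd_zero : toLin' (Kd k odd (Fin 0)) = LinearMap.id := by
  have h : Kd k odd (Fin 0) = 1 := by
    unfold Kd
    ext x y
    rw [Subsingleton.elim x y]
    simp
  rw [h, toLin'_one]

lemma Inj_Kd_comm (hC : IsSuperFamily odd B C) : ∀ m n, ∀ f ∈ linC C m n,
    toLin' (Kd k odd (Fin n)) ∘ₗ f = f ∘ₗ toLin' (Kd k odd (Fin m)) := by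
  intro m n f hf
  have h1 : LinearMap.toMatrix' f ∈ Hm C (Equiv.refl (Fin m)) (Equiv.refl (Fin n)) := hf
  have h2 := Hm_even hC h1
  have h3 := congrArg (fun M : Mor k ι m n => toLin' M) h2
  simp only [toLin'_mul, toLin'_toMatrix'] at h3
  exact h3

lemma Inj_rkK_eq {W : ℕ → Type*} [∀ n, AddCommGroup (W n)] [∀ n, Module k (W n)]
    (C : ∀ m n, Submodule k (W m →ₗ[k] W n)) (K : ∀ n, W n →ₗ[k] W n) (m n : ℕ)
    (t : W m →ₗ[k] W m) {X : Type*} [AddCommGroup X] [Module k X] (Ψ : C m n →ₗ[k] X)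
    (h : LinearMap.ker Ψ = LinearMap.ker (pairK C K m n t)) :
    rkK C K m n t = Module.finrank k (LinearMap.range Ψ) := by
  unfold rkK
  rw [← h]
  exact LinearEquiv.finrank_eq Ψ.quotKerEquivRange

theorem rkK_eq_hk (hC : IsSuperFamily odd B C) (m n : ℕ) (t : Mor k ι m m) :
    rkK (W := fun n => (Fin n → ι) → k) (linC C) (fun n => toLin' (Kd k odd (Fin n))) m n
      (toLin' t) = hk odd C m n t := by
  classical
  unfold hk
  set Q : Submodule k (Mor k ι n m) := tw (Kd k odd (Fin m)) (C n m) with hQ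
  let Ψ : linC C m n →ₗ[k] (Mor k ι m n ⧸ rad Q) :=
    (rad Q).mkQ ∘ₗ lr 1 t ∘ₗ (LinearMap.toMatrix' :
      (((Fin m → ι) → k) →ₗ[k] ((Fin n → ι) → k)) ≃ₗ[k] Mor k ι m n).toLinearMap ∘ₗ
      (linC C m n).subtype
  have hrange : LinearMap.range Ψ = (sand 1 (C m n) t).map (rad Q).mkQ := by
    ext z
    constructor
    · rintro ⟨f, rfl⟩
      exact ⟨_, ⟨_, f.2, rfl⟩, rfl⟩
    · rintro ⟨_, ⟨F, hF, rfl⟩, rfl⟩
      refine ⟨⟨toLin' F, ?_⟩, ?_⟩
      · rw [mem_linC, LinearMap.toMatrix'_toLin']; exact hF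
      · simp only [Ψ, LinearMap.comp_apply, Submodule.subtype_apply, LinearEquiv.coe_coe,
          LinearMap.toMatrix'_toLin']
  have hker : LinearMap.ker Ψ = LinearMap.ker
      (pairK (W := fun n => (Fin n → ι) → k) (linC C) (fun n => toLin' (Kd k odd (Fin n))) m n
        (toLin' t)) := by
    ext f
    rw [LinearMap.mem_ker, LinearMap.mem_ker]
    simp only [Ψ, LinearMap.comp_apply, Submodule.subtype_apply, LinearEquiv.coe_coe]
    rw [Submodule.mkQ_apply, Submodule.Quotient.mk_eq_zero, hQ, mem_rad_tw]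
    have key : ∀ g : linC C n m, pairK (W := fun n => (Fin n → ι) → k) (linC C)
        (fun n => toLin' (Kd k odd (Fin n))) m n
        (toLin' t) f g = trace (Kd k odd (Fin m) * LinearMap.toMatrix' (g : ((Fin n → ι) → k) →ₗ[k]
          ((Fin m → ι) → k)) * lr 1 t (LinearMap.toMatrix' (f : ((Fin m → ι) → k) →ₗ[k]
          ((Fin n → ι) → k)))) := by
      intro g
      change LinearMap.trace k ((Fin m → ι) → k) (toLin' (Kd k odd (Fin m)) ∘ₗ
        (g : ((Fin n → ι) → k) →ₗ[k] ((Fin m → ι) → k)) ∘ₗ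
        (f : ((Fin m → ι) → k) →ₗ[k] ((Fin n → ι) → k)) ∘ₗ toLin' t) = _
      rw [LinearMap.trace_eq_matrix_trace k (Pi.basisFun k _),
        LinearMap.toMatrix_eq_toMatrix', LinearMap.toMatrix'_comp, LinearMap.toMatrix'_comp,
        LinearMap.toMatrix'_comp, LinearMap.toMatrix'_toLin', LinearMap.toMatrix'_toLin']
      simp [lr, Matrix.mul_assoc]
    constructor
    · intro h
      ext g
      rw [key g]
      exact h _ g.2
    · intro h G hG
      have hG' : toLin' G ∈ linC C n m := by
        rw [mem_linC, LinearMap.toMatrix'_toLin']; exact hG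
      have h3 := key ⟨toLin' G, hG'⟩
      have h4 : LinearMap.toMatrix' (toLin' G) = G := LinearMap.toMatrix'_toLin' G
      rw [h, LinearMap.zero_apply] at h3
      change (0 : k) = trace (Kd k odd (Fin m) * LinearMap.toMatrix' (toLin' G) * _) at h3
      rw [h4] at h3
      exact h3.symm
  rw [Inj_rkK_eq (W := fun n => (Fin n → ι) → k) (linC C)
    (fun n => toLin' (Kd k odd (Fin n))) m n (toLin' t) Ψ hker, hrange]
  rfl

theorem Inj_numRank_eq_prk (n : ℕ) :
    numRank C n = prk (C 0 n) (C n 0) := by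
  have h1 : (classes C n).map (col k ι n : ((Fin n → ι) → k) →ₗ[k] Mor k ι 0 n) = C 0 n := by
    ext F
    constructor
    · rintro ⟨u, hu, rfl⟩
      exact hu
    · intro hF
      refine ⟨(col k ι n).symm F, ?_, (col k ι n).apply_symm_apply F⟩
      change (col k ι n) ((col k ι n).symm F) ∈ C 0 n
      rw [(col k ι n).apply_symm_apply F]
      exact hF
  have h2 : (numTriv C n).map (col k ι n : ((Fin n → ι) → k) →ₗ[k] Mor k ι 0 n) =
      C 0 n ⊓ rad (C n 0) := by
    have key : ∀ (G : Mor k ι n 0) (u : (Fin n → ι) → k),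
        trace (G * col k ι n u) = (G *ᵥ u) default := by
      intro G u
      rw [trace, Fintype.sum_unique]
      rfl
    ext F
    constructor
    · rintro ⟨u, hu, rfl⟩
      refine ⟨hu.1, fun G hG => ?_⟩
      have := hu.2 G hG
      have h3 := key G u
      rw [this] at h3
      exact h3
    · rintro ⟨hF, hF2⟩
      obtain ⟨u, hu, rfl⟩ : F ∈ (classes C n).map
          (col k ι n : ((Fin n → ι) → k) →ₗ[k] Mor k ι 0 n) := by rw [h1]; exact hF
      refine ⟨u, ⟨hu, fun G hG => ?_⟩, rfl⟩
      ext x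
      rw [Subsingleton.elim x default, ← key G u]
      exact hF2 G hG
  have h3 := prk_add_finrank (C 0 n) (C n 0)
  have h4 : Module.finrank k (C 0 n) = Module.finrank k (classes C n) := by
    rw [← h1]; exact LinearEquiv.finrank_map_eq (col k ι n) _
  have h5 : Module.finrank k (C 0 n ⊓ rad (C n 0) : Submodule k (Mor k ι 0 n)) =
      Module.finrank k (numTriv C n) := by
    rw [← h2]; exact LinearEquiv.finrank_map_eq (col k ι n) _
  rw [h4, h5] at h3
  unfold numRank
  omega

theorem exists_idem' (hC : IsSuperFamily odd B C) (hU : IsStable C U)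
    (r : ℕ) (h : numRank C r < Module.finrank k (U r)) :
    ∃ t ∈ C r r, t * t = t ∧ 1 ≤ t.rank ∧
      ∀ n, numRank C n + hk odd C r n t ≤ Module.finrank k (U n) := by
  have hnum : ∀ n, HalfFive.rkT (W := fun n => (Fin n → ι) → k) (linC C) 0 n LinearMap.id =
      numRank C n := by
    intro n
    rw [Inj_numRank_eq_prk, ← toLin'_one, rkT_eq_prk]
    congr 1
    ext F
    constructor
    · rintro ⟨G, hG, rfl⟩
      simpa [lr] using hG
    · intro hF
      exact ⟨F, hF, by simp [lr]⟩
  rw [← hnum] at h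
  obtain ⟨t, ht, htt, ht0, hall⟩ := five' (W := fun n => (Fin n → ι) → k)
    (linC C) (Inj_linC_comp hC) (Inj_linC_id hC) finrank_zero
    (fun n => toLin' (Kd k odd (Fin n))) Inj_Kd_zero (Inj_Kd_comm hC) U (U_zero hU)
    (U_stable hU) r h
  refine ⟨LinearMap.toMatrix' t, ht, ?_, ?_, ?_⟩
  · rw [← LinearMap.toMatrix'_comp, htt]
  · rw [rank_eq_finrank_range, toLin'_toMatrix', Nat.one_le_iff_ne_zero]
    intro h0
    apply ht0
    rw [Submodule.finrank_eq_zero, LinearMap.range_eq_bot] at h0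
    exact h0
  · intro n
    have := hall n
    rw [hnum, ← toLin'_toMatrix' t, rkK_eq_hk hC] at this
    exact this

/-- If there is no failure, the classes are everything and the pairing is perfect. -/
theorem no_fail' (hU : IsStable C U) (n : ℕ) (h : ¬ numRank C n < Module.finrank k (U n)) :
    classes C n = U n ∧ numTriv C n = ⊥ := by
  have h1 := classes_le hU n
  have h2 := Submodule.finrank_mono h1
  have h3 : Module.finrank k (numTriv C n) ≤ Module.finrank k (classes C n) :=
    Submodule.finrank_mono fun u hu => hu.1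
  unfold numRank at h
  constructor
  · exact Submodule.eq_of_le_of_finrank_le h1 (by omega)
  · rw [← Submodule.finrank_eq_zero (R := k)]
    omega

/-- The failure can be moved one step up (the trivial summand). -/
theorem fail_succ' (hC : IsSuperFamily odd B C) (hU : IsStable C U)
    (r : ℕ) (h : numRank C r < Module.finrank k (U r)) :
    numRank C (r + 1) < Module.finrank k (U (r + 1)) := by
  by_contra hcon
  obtain ⟨h1, h2⟩ := no_fail' hU (r + 1) hcon
  obtain ⟨e, he, e', he', hee⟩ := hC.unit_mem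
  have hi : tens (1 : Mor k ι r r) e ∈ C r (r + 1) := hC.tens_mem r r 0 1 _ _ (hC.one_mem r) he
  have hr : tens (1 : Mor k ι r r) e' ∈ C (r + 1) r := hC.tens_mem r r 1 0 _ _ (hC.one_mem r) he'
  set a : Mor k ι r (r + 1) := tens (1 : Mor k ι r r) e with ha
  set b : Mor k ι (r + 1) r := tens (1 : Mor k ι r r) e' with hb
  obtain ⟨c, hc, hba⟩ : ∃ c : k, c ≠ 0 ∧ b * a = c • (1 : Mor k ι r r) := by
    refine ⟨(e' * e) default default, ?_, ?_⟩
    · intro h0
      apply hee
      ext x y
      rw [Subsingleton.elim x default, Subsingleton.elim y default, h0]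
      rfl
    · exact tens_one_mul r e e'
  apply absurd h
  rw [not_lt]
  have hcl : classes C r = U r := by
    refine le_antisymm (classes_le hU r) fun u hu => ?_
    have h3 : a *ᵥ u ∈ classes C (r + 1) := by rw [h1]; exact hU.map_mem _ _ _ _ hi hu
    have h4 : b *ᵥ (a *ᵥ u) = c • u := by
      rw [mulVec_mulVec, hba, smul_mulVec, one_mulVec]
    have h5 : c • u ∈ classes C r := by
      rw [← h4]
      exact hC.comp_mem 0 (r + 1) r b _ hr h3
    have h6 := (classes C r).smul_mem c⁻¹ h5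
    rwa [smul_smul, inv_mul_cancel₀ hc, one_smul] at h6
  have htriv : numTriv C r = ⊥ := by
    rw [eq_bot_iff]
    intro u hu
    have h3 : a *ᵥ u ∈ numTriv C (r + 1) := by
      refine ⟨hC.comp_mem 0 r (r + 1) a _ hi hu.1, fun g hg => ?_⟩
      rw [mulVec_mulVec]
      exact hu.2 _ (hC.comp_mem r (r + 1) 0 g a hg hi)
    rw [h2, Submodule.mem_bot] at h3
    have h4 : b *ᵥ (a *ᵥ u) = c • u := by
      rw [mulVec_mulVec, hba, smul_mulVec, one_mulVec]
    rw [h3, mulVec_zero] at h4
    rw [Submodule.mem_bot]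
    exact (smul_eq_zero.mp h4.symm).resolve_left hc
  unfold numRank
  rw [hcl, htriv, finrank_bot, tsub_zero]

end MP021685Y
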