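import Pool.Agent.Lib.MP_021685_agY.FinB
import Pool.Agent.Lib.MP_021685_agY.Inj
import Pool.Agent.Lib.MP_021685_agZ.Asym
import Pool.Agent.Lib.MP_021685_agZ.Final

/-!
# The asymptotic size of `h(t, V^n)` when the growth is maximal

LEAF. `Ratio C` is the first case of `dich`. Guide: `MP021685Z.h_le`, `h_ge` (`agZ/Asym.lean`; the real
lemmas `Asym_real_le`, `Asym_real_ge` can be used as they are), `MP021685Z.half` (`agZ/Final.lean`,
`Num_half`).
`no_neg`: if `t ≠ 0` then `t.rank ≥ 1`, `h_ge'` with `δ = 1 / 2` gives `n` with `hk odd C r n t > 0`; but if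
`t` is in the radical of `C r r` then `tr (K G F t) = 0` for all `F ∈ C r n`, `G ∈ C n r`
(`G F ∈ C r r`), so `sand 1 (C r n) t ≤ rad (tw K (C n r))` and `hk = 0`.
`half'`: as `half` with `hr` in place of `Num_ratio`.
-/

set_option autoImplicit false
set_option linter.unusedSectionVars false

namespace MP021685Y

open Matrix MP021685Z

variable {k : Type*} [Field k] {ι : Type} [Fintype ι] [DecidableEq ι]

/-- The growth of the even numerical ranks is maximal. -/
def Ratio (C : ∀ m n : ℕ, Submodule k (Mor k ι m n)) : Prop :=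
  ∀ (s : ℕ) (δ : ℝ), 0 < δ → ∃ m0 : ℕ, ∀ m : ℕ, m0 ≤ m →
    ((Fintype.card ι : ℝ) ^ (2 * s) - δ) * (numRank C (2 * m) : ℝ) ≤
      (numRank C (2 * (m + s)) : ℝ)

variable {odd : ι → Bool} {B : Matrix ι ι k} {C : ∀ m n : ℕ, Submodule k (Mor k ι m n)}
  {U : ∀ n : ℕ, Submodule k ((Fin n → ι) → k)}

theorem AsymA_one_le (hC : IsSuperFamily odd B C) : (1 : ℝ) ≤ (Fintype.card ι : ℝ) := by
  have h : 0 < Fintype.card ι := by
    rw [Fintype.card_pos_iff]
    by_contra hι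
    rw [not_nonempty_iff] at hι
    obtain ⟨e, _, e', _, h⟩ := hC.unit_mem
    apply h
    funext x y
    rw [Matrix.mul_apply, Matrix.zero_apply]
    refine Finset.sum_eq_zero fun z _ => ?_
    exact (IsEmpty.false (z 0)).elim
  exact_mod_cast h

theorem AsymA_pos (hC : IsSuperFamily odd B C) (n : ℕ) : (0 : ℝ) < (numRank C n : ℝ) := by
  exact_mod_cast numRank_pos' hC n

theorem AsymA_step [IsAlgClosed k] [CharZero k] (hC : IsSuperFamily odd B C) (m : ℕ) :
    (numRank C (2 * m + 1) : ℝ) ≤ (Fintype.card ι : ℝ) * (numRank C (2 * m) : ℝ) := by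
  exact_mod_cast numRank_step' hC m

theorem AsymA_step_lower [IsAlgClosed k] [CharZero k] (hC : IsSuperFamily odd B C) (m : ℕ) :
    (numRank C (2 * (m + 1)) : ℝ) + (Fintype.card ι : ℝ) * (numRank C (2 * m) : ℝ) ≤
      (numRank C (2 * m + 1) : ℝ) + (Fintype.card ι : ℝ) ^ 2 * (numRank C (2 * m) : ℝ) := by
  exact_mod_cast numRank_step_lower hC m

/-- **The upper bound**, uniform in the idempotent. -/
theorem h_le' [IsAlgClosed k] [CharZero k] (hC : IsSuperFamily odd B C) (hr : Ratio C) (δ : ℝ)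
    (hδ : 0 < δ) : ∃ n₀ : ℕ, ∀ n : ℕ, n₀ ≤ n → ∀ (r : ℕ) (t : Mor k ι r r), t ∈ C r r →
      t * t = t → (hk odd C r n t : ℝ) ≤ (1 + δ) * (t.rank : ℝ) * (numRank C n : ℝ) := by
  obtain ⟨n₀, h⟩ := Asym_real_le (AsymA_one_le hC) (fun n => (numRank C n : ℝ))
    (fun n => AsymA_pos hC n) hr (AsymA_step_lower hC) δ hδ
  refine ⟨n₀, fun n hn r t ht ht2 => h n hn _ _ (Nat.cast_nonneg _) ?_ ?_⟩
  · intro m hm
    subst hm
    exact_mod_cast hk_even_le hC r m t ht ht2
  · intro m hm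
    subst hm
    exact_mod_cast hk_odd_le hC r m t ht ht2

/-- **The lower bound.** -/
theorem h_ge' [IsAlgClosed k] [CharZero k] (hC : IsSuperFamily odd B C) (hr : Ratio C) (r : ℕ)
    (t : Mor k ι r r) (ht : t ∈ C r r) (ht2 : t * t = t) (δ : ℝ) (hδ : 0 < δ) :
    ∃ n₀ : ℕ, ∀ n : ℕ, n₀ ≤ n →
      ((t.rank : ℝ) - δ) * (numRank C n : ℝ) ≤ (hk odd C r n t : ℝ) := by
  refine Asym_real_ge (AsymA_one_le hC) (fun n => (numRank C n : ℝ)) (fun n => AsymA_pos hC n)
    (AsymA_step hC) hr (AsymA_step_lower hC) r (t.rank : ℝ) (Nat.cast_nonneg _)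
    (fun n => (hk odd C r n t : ℝ)) (fun n => Nat.cast_nonneg _) ?_ ?_ δ hδ
  · intro m
    exact_mod_cast hk_even_ge hC r m t ht ht2
  · intro m
    exact_mod_cast hk_odd_ge hC r m t ht ht2

end MP021685Y
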