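import Pool.Agent.Lib.MP_021685_agY.AsymA

/-!
# No negligible idempotents; theorem half, when the growth is maximal

LEAF. `Ratio C` is the first case of `dich`. Guide: `MP021685Z.h_le`, `h_ge` (`agZ/Asym.lean`; the real
lemmas `Asym_real_le`, `Asym_real_ge` can be used as they are), `MP021685Z.half` (`agZ/Final.lean`,
`Num_half`).
`no_neg`: if `t ≠ 0` then `t.rank ≥ 1`, `h_ge'` with `δ = 1 / 2` gives `n` with `hk odd C r n t > 0`; but if
`t` is in the radical of `C r r` then `tr (K G F t) = 0` for all `F ∈ C r n`, `G ∈ C n r`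
(`G F ∈ C r r`), so `sand 1 (C r n) t ≤ rad (tw K (C n r))` and `hk = 0`.
`half'`: as `half` with `hr` in place of `Num_ratio`.
-/

set_option autoImplicit false
set_option linter.unusedSectionVars false

namespace MP021685Y

open Matrix MP021685Z

variable {k : Type*} [Field k] {ι : Type} [Fintype ι] [DecidableEq ι]

variable {odd : ι → Bool} {B : Matrix ι ι k} {C : ∀ m n : ℕ, Submodule k (Mor k ι m n)}
  {U : ∀ n : ℕ, Submodule k ((Fin n → ι) → k)}

/-- If `t` is in the radical, the numbers `h(t, V^n)` vanish. -/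
theorem AsymB_hk_zero (hC : IsSuperFamily odd B C) (r n : ℕ) (t : Mor k ι r r)
    (hrad : t ∈ rad (tw (Kd k odd (Fin r)) (C r r))) : hk odd C r n t = 0 := by
  have h1 : (sand 1 (C r n) t).map (rad (tw (Kd k odd (Fin r)) (C n r))).mkQ = ⊥ := by
    rw [← le_bot_iff, Submodule.map_le_iff_le_comap]
    rintro _ ⟨F, hF, rfl⟩
    rw [Submodule.mem_comap, Submodule.mem_bot, Submodule.mkQ_apply,
      Submodule.Quotient.mk_eq_zero, mem_rad_tw]
    intro G hG
    have h2 := (mem_rad_tw (Kd k odd (Fin r)) (C r r) t).1 hrad (G * F)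
      (hC.comp_mem r n r G F hG hF)
    have h3 : (lr (1 : Matrix (Fin n → ι) (Fin n → ι) k) t) F = F * t := by
      change (1 : Matrix (Fin n → ι) (Fin n → ι) k) * F * t = F * t
      rw [Matrix.one_mul]
    rw [← h2, h3, Matrix.mul_assoc, Matrix.mul_assoc, Matrix.mul_assoc]
  show Module.finrank k _ = 0
  rw [h1, finrank_bot]

/-- There are no negligible idempotents. -/
theorem no_neg [IsAlgClosed k] [CharZero k] (hC : IsSuperFamily odd B C) (hr : Ratio C) (r : ℕ)
    (t : Mor k ι r r) (ht : t ∈ C r r) (ht2 : t * t = t)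
    (hrad : t ∈ rad (tw (Kd k odd (Fin r)) (C r r))) : t = 0 := by
  by_contra hne
  have hrk : 1 ≤ t.rank := by
    rw [Nat.one_le_iff_ne_zero]
    intro h0
    apply hne
    have h1 : (t.rank : k) = trace t := rank_idem t ht2
    rw [rank_eq_finrank_range] at h0
    rw [Submodule.finrank_eq_zero, LinearMap.range_eq_bot] at h0
    exact (Matrix.toLin' (R := k)).map_eq_zero_iff.1 h0
  obtain ⟨n₀, hn₀⟩ := h_ge' hC hr r t ht ht2 (1 / 2) (by norm_num)
  have h2 := hn₀ n₀ le_rfl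
  have h3 : hk odd C r n₀ t = 0 := AsymB_hk_zero hC r n₀ t hrad
  rw [h3] at h2
  have h4 : (1 : ℝ) ≤ (numRank C n₀ : ℝ) := by exact_mod_cast numRank_pos' hC n₀
  have h5 : (1 : ℝ) ≤ (t.rank : ℝ) := by exact_mod_cast hrk
  have h6 : (0 : ℝ) < ((t.rank : ℝ) - 1 / 2) * (numRank C n₀ : ℝ) :=
    mul_pos (by linarith) (by linarith)
  rw [Nat.cast_zero] at h2
  linarith

/-- **Theorem half**, maximal growth. -/
theorem half' [IsAlgClosed k] [CharZero k] (hC : IsSuperFamily odd B C) (hr : Ratio C)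
    (hU : IsStable C U) :
    (∀ n, classes C n = U n ∧ numTriv C n = ⊥) ∨
      ∀ c : ℝ, 1 / 2 < c → ∃ n₀ : ℕ, ∀ n ≥ n₀,
        (numRank C n : ℝ) ≤ c * (Module.finrank k (U n) : ℝ) := by
  by_cases hf : ∃ r, numRank C r < Module.finrank k (U r)
  swap
  · left
    push Not at hf
    exact fun n => no_fail' hU n (not_lt.mpr (hf n))
  right
  intro c hc
  obtain ⟨r, hr1⟩ := hf
  obtain ⟨t, ht, ht2, htr, htn⟩ := exists_idem' hC hU r hr1
  have hc0 : 0 < c := by linarith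
  obtain ⟨δ, hδ0, hδ1, hδ2⟩ : ∃ δ : ℝ, 0 < δ ∧ δ < 1 ∧ 1 ≤ c * (2 - δ) := by
    refine ⟨min (1 / 2) (2 - 1 / c), ?_, ?_, ?_⟩
    · apply lt_min (by norm_num)
      have : 1 / c < 2 := by rw [div_lt_iff₀ hc0]; linarith
      linarith
    · exact lt_of_le_of_lt (min_le_left _ _) (by norm_num)
    · have h5 : min (1 / 2) (2 - 1 / c) ≤ 2 - 1 / c := min_le_right _ _
      have h6 : 1 / c ≤ 2 - min (1 / 2) (2 - 1 / c) := by linarith
      calc (1 : ℝ) = c * (1 / c) := by field_simp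
        _ ≤ c * (2 - min (1 / 2) (2 - 1 / c)) := mul_le_mul_of_nonneg_left h6 hc0.le
  obtain ⟨n₀, hn₀⟩ := h_ge' hC hr r t ht ht2 δ hδ0
  refine ⟨n₀, fun n hn => ?_⟩
  have h1 := hn₀ n hn
  have h2 : (numRank C n : ℝ) + (hk odd C r n t : ℝ) ≤ (Module.finrank k (U n) : ℝ) := by
    exact_mod_cast htn n
  have h3 : (1 : ℝ) ≤ (t.rank : ℝ) := by exact_mod_cast htr
  have h4 : (0 : ℝ) ≤ (numRank C n : ℝ) := Nat.cast_nonneg _
  have h5 : (1 - δ) * (numRank C n : ℝ) ≤ ((t.rank : ℝ) - δ) * (numRank C n : ℝ) :=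
    mul_le_mul_of_nonneg_right (by linarith) h4
  have h6 : (2 - δ) * (numRank C n : ℝ) ≤ (Module.finrank k (U n) : ℝ) := by
    have h7 : (2 - δ) * (numRank C n : ℝ) =
        (numRank C n : ℝ) + (1 - δ) * (numRank C n : ℝ) := by ring
    linarith
  calc (numRank C n : ℝ) = 1 * (numRank C n : ℝ) := (one_mul _).symm
    _ ≤ (c * (2 - δ)) * (numRank C n : ℝ) := mul_le_mul_of_nonneg_right hδ2 h4
    _ = c * ((2 - δ) * (numRank C n : ℝ)) := by ring
    _ ≤ c * (Module.finrank k (U n) : ℝ) := mul_le_mul_of_nonneg_left h6 hc0.le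

end MP021685Y
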