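import Pool.Agent.Lib.MP_021685_agY.Srk
import Pool.Agent.Lib.MP_021685_agZ.Bridge

/-!
# From the super ranks to `numRank`

LEAF. Guide: `MP021685Z.numRank_eq`, `prk_hom_eq`, `prk_out_eq`, `Bridge_units`, `numRank_pos`
(`agZ/Bridge.lean`), `Asym_even_eq`, `Asym_odd_eq` (`agZ/Asym.lean`).

`srk_tgt`: `srk_rei` with `e = refl`, `e' = b'.symm.trans ((finCongr h).trans b)` or the like
(`rei e' e' 1 = 1` is `Bridge_rei_one`).
`srk_numRank`: `numRank C (m + n) = prk (C 0 (m + n)) (C (m + n) 0)` (`numRank_eq`); `Kd` on words of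
length `0` is `1`; relabel to `srk em (sm (rv a) b) 1 1`; `srk_rot` with `r = rv a` gives
`srk (sm (rv (rv a)) em) b 1 1`, relabel by `sumEmpty`.
`hk_even`: `hk = srk (refl r) (refl (2m)) 1 t`; by `srk_tgt` the target is `sm (refl m) (refl m)`;
`srk_rotr` gives source `sm (refl r) (rv (refl m))`, idempotent `tsum t 1`; relabel the source by
`Equiv.sumCongr (refl) (Fin.revPerm)` (which keeps `tsum t 1`).
`hk_odd`: the target is `sm (refl m) (sm (refl 1) (refl m))`, `srk_rotr` with `r = sm ..`, then relabel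
the source `sm (refl r) (rv (sm ..))` to `sm (sm (refl r) (refl 1)) (refl m)` (any bijection of the
slots other than those of `r` is allowed since the idempotent is `1` there: the enumerations are
arbitrary).
-/

set_option autoImplicit false
set_option linter.unusedSectionVars false

namespace MP021685Y

open Matrix MP021685Z

variable {k : Type*} [Field k] {ι : Type} [Fintype ι] [DecidableEq ι]

variable {odd : ι → Bool} {B : Matrix ι ι k} {C : ∀ m n : ℕ, Submodule k (Mor k ι m n)}

/-- The number `h(t, V^n)`: the rank of `(F, G) ↦ str (G F t)` on `C r n × C n r`. -/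
noncomputable def hk (odd : ι → Bool) (C : ∀ m n : ℕ, Submodule k (Mor k ι m n)) (r n : ℕ)
    (t : Mor k ι r r) : ℕ := prk (sand 1 (C r n) t) (tw (Kd k odd (Fin r)) (C n r))

theorem Bridge_Kd_zero : Kd k odd (Fin 0) = 1 := by
  unfold Kd
  have h : (fun x : Fin 0 → ι => ∏ i, sgn k odd (x i)) = fun _ => 1 :=
    funext fun x => by simp
  rw [h]
  exact Matrix.diagonal_one

theorem Bridge_tw_one {a b : Type*} [Fintype a] [DecidableEq a] (Q : Submodule k (Matrix a b k)) :
    tw 1 Q = Q := by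
  ext F
  constructor
  · rintro ⟨G, hG, rfl⟩
    have h : (1 : Matrix a a k) * G = G := Matrix.one_mul G
    change (1 : Matrix a a k) * G ∈ Q
    rw [h]
    exact hG
  · intro hF
    exact ⟨F, hF, Matrix.one_mul F⟩

/-- The target slots may be relabelled at will. -/
theorem srk_tgt {m n n' : ℕ} {I J J' : Type} [Fintype I] [Fintype J] [Fintype J']
    [DecidableEq I] [DecidableEq J] [DecidableEq J'] (a : Fin m ≃ I) (b : Fin n ≃ J)
    (b' : Fin n' ≃ J') (h : n = n') (Y : Matrix (I → ι) (I → ι) k) :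
    srk odd C a b 1 Y = srk odd C a b' 1 Y := by
  have h1 := srk_rei (odd := odd) (C := C) (a := a) (b := b) (a' := a) (b' := b') rfl h.symm
    (Equiv.refl I) (b'.symm.trans ((finCongr h.symm).trans b))
    (by ext i; simp) (by ext i; simp) (1 : Matrix (J → ι) (J → ι) k) Y
  rw [Bridge_rei_one] at h1
  exact h1.symm

theorem srk_numRank [CharZero k] (hC : IsSuperFamily odd B C) {m n : ℕ} {I J : Type}
    [Fintype I] [Fintype J] [DecidableEq I] [DecidableEq J] (a : Fin m ≃ I) (b : Fin n ≃ J) :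
    srk odd C a b 1 1 = numRank C (m + n) := by
  have h0 : srk odd C (Equiv.refl (Fin 0)) (Equiv.refl (Fin (m + n))) (1 : Matrix _ _ k)
      (1 : Matrix _ _ k) = numRank C (m + n) := by
    unfold srk
    rw [numRank_eq, Bridge_Kd_zero, Bridge_tw_one, Bridge_sand_one, Hm_refl, Hm_refl]
  have h1 := srk_rei (odd := odd) (C := C) (a := em) (b := sm (rv a) b)
    (a' := Equiv.refl (Fin 0)) (b' := Equiv.refl (Fin (m + n))) rfl rfl em (sm (rv a) b)
    (by ext i; exact i.elim0) (by ext i; simp)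
    (1 : Matrix ((I ⊕ J) → ι) ((I ⊕ J) → ι) k) (1 : Matrix (Empty → ι) (Empty → ι) k)
  rw [Bridge_rei_one, Bridge_rei_one] at h1
  have h2 := srk_rot hC (rv a) em b (1 : Matrix (J → ι) (J → ι) k)
    (1 : Matrix (Empty → ι) (Empty → ι) k) (1 : Matrix (I → ι) (I → ι) k)
    (1 : Matrix (I → ι) (I → ι) k) (fun r s => Bridge_tr r s)
  rw [Bridge_tsum_one, Bridge_tsum_one, rv_rv] at h2
  have h3 := srk_rei (odd := odd) (C := C) (a := a) (b := b) (a' := sm a em) (b' := b)
    (Nat.add_zero m) rfl (Equiv.sumEmpty I Empty) (Equiv.refl J)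
    ((sm_em_right a).trans (by ext i; simp)) (by ext i; simp)
    (1 : Matrix (J → ι) (J → ι) k) (1 : Matrix (I → ι) (I → ι) k)
  rw [Bridge_rei_one, Bridge_rei_one] at h3
  rw [← h0, h1, h2, h3]

theorem Bridge_units' (hC : IsSuperFamily odd B C) (n : ℕ) :
    ∃ a ∈ C 0 n, ∃ b ∈ C n 0, b * a ≠ 0 := by
  induction n with
  | zero =>
    obtain ⟨e, he, e', he', h⟩ := hC.unit_mem
    have h1 : e' * e ∈ C 0 0 := hC.comp_mem 0 1 0 _ _ he' he
    refine ⟨e' * e, h1, 1, hC.one_mem 0, ?_⟩
    rw [Matrix.one_mul]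
    exact h
  | succ n ih =>
    obtain ⟨a, ha, b, hb, hab⟩ := ih
    obtain ⟨e, he, e', he', h⟩ := hC.unit_mem
    refine ⟨tens a e, hC.tens_mem 0 n 0 1 a e ha he, tens b e', hC.tens_mem n 0 1 0 b e' hb he', ?_⟩
    have hz : ∀ z : Fin 0 → ι, z = fun i => i.elim0 := fun z => funext fun i => i.elim0
    intro h0
    have h1 : ∀ x y : Fin 0 → ι, (b * a) x y * (e' * e) x y = (tens b e' * tens a e) x y := by
      intro x y
      rw [Matrix.mul_apply, Matrix.mul_apply, Matrix.mul_apply, Finset.sum_mul_sum, ← Fintype.sum_prod_type']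
      refine Fintype.sum_equiv (Fin.appendEquiv n 1) _ _ ?_
      rintro ⟨u, v⟩
      unfold tens
      have e1 : (fun i => (Fin.appendEquiv n 1) (u, v) (Fin.castAdd 1 i)) = u := by
        funext i
        exact Fin.append_left u v i
      have e2 : (fun i => (Fin.appendEquiv n 1) (u, v) (Fin.natAdd n i)) = v := by
        funext i
        exact Fin.append_right u v i
      rw [e1, e2, hz (fun i => x (Fin.castAdd 0 i)), hz (fun i => x (Fin.natAdd 0 i)), hz (fun i => y (Fin.castAdd 0 i)),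
        hz (fun i => y (Fin.natAdd 0 i)), hz x, hz y]
      ring
    have h2 : ∀ F : Mor k ι 0 0, F ≠ 0 → F (fun i => i.elim0) (fun i => i.elim0) ≠ 0 := by
      intro F hF hF0
      apply hF
      funext x y
      rw [hz x, hz y, hF0]
      rfl
    have h3 := h1 (fun i => i.elim0) (fun i => i.elim0)
    rw [h0] at h3
    exact mul_ne_zero (h2 _ hab) (h2 _ h) h3

theorem numRank_pos' (hC : IsSuperFamily odd B C) (n : ℕ) : 1 ≤ numRank C n := by
  obtain ⟨a, ha, b, hb, hab⟩ := Bridge_units' hC n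
  rw [numRank_eq]
  unfold prk
  rw [Nat.one_le_iff_ne_zero]
  intro h
  have h1 : (C 0 n).map (rad (C n 0)).mkQ = ⊥ := Submodule.finrank_eq_zero.1 h
  have h2 : (rad (C n 0)).mkQ a ∈ (C 0 n).map (rad (C n 0)).mkQ := ⟨a, ha, rfl⟩
  rw [h1, Submodule.mem_bot, Submodule.mkQ_apply, Submodule.Quotient.mk_eq_zero] at h2
  have h3 := h2 b hb
  have hz : ∀ z : Fin 0 → ι, z = fun i => i.elim0 := fun z => funext fun i => i.elim0
  apply hab
  funext x y
  rw [trace, Fintype.sum_eq_single (fun i => i.elim0)] at h3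
  · rw [hz x, hz y]
    exact h3
  · intro z hz'
    exact absurd (hz z) hz'

end MP021685Y
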