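import Pool.Agent.Lib.MP_021685_agY.Bridge

/-!
# The numbers `h(t, V^n)` as super ranks

LEAF. Guide: `MP021685Z.numRank_eq`, `prk_hom_eq`, `prk_out_eq`, `Bridge_units`, `numRank_pos`
(`agZ/Bridge.lean`), `Asym_even_eq`, `Asym_odd_eq` (`agZ/Asym.lean`).

`srk_tgt`: `srk_rei` with `e = refl`, `e' = b'.symm.trans ((finCongr h).trans b)` or the like
(`rei e' e' 1 = 1` is `Bridge_rei_one`).
`srk_numRank`: `numRank C (m + n) = prk (C 0 (m + n)) (C (m + n) 0)` (`numRank_eq`); `Kd` on words of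
length `0` is `1`; relabel to `srk em (sm (rv a) b) 1 1`; `srk_rot` with `r = rv a` gives
`srk (sm (rv (rv a)) em) b 1 1`, relabel by `sumEmpty`.
`hk_even`: `hk = srk (refl r) (refl (2m)) 1 t`; by `srk_tgt` the target is `sm (refl m) (refl m)`;
`srk_rotr` gives source `sm (refl r) (rv (refl m))`, idempotent `tsum t 1`; relabel the source by
`Equiv.sumCongr (refl) (Fin.revPerm)` (which keeps `tsum t 1`).
`hk_odd`: the target is `sm (refl m) (sm (refl 1) (refl m))`, `srk_rotr` with `r = sm ..`, then relabel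
the source `sm (refl r) (rv (sm ..))` to `sm (sm (refl r) (refl 1)) (refl m)` (any bijection of the
slots other than those of `r` is allowed since the idempotent is `1` there: the enumerations are
arbitrary).
-/

set_option autoImplicit false
set_option linter.unusedSectionVars false

namespace MP021685Y

open Matrix MP021685Z

variable {k : Type*} [Field k] {ι : Type} [Fintype ι] [DecidableEq ι]

variable {odd : ι → Bool} {B : Matrix ι ι k} {C : ∀ m n : ℕ, Submodule k (Mor k ι m n)}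

/-- Relabelling the second group of slots keeps `tsum t 1`. -/
theorem BridgeH_rei_tsum {I J J' : Type} [Fintype J] [Fintype J'] [DecidableEq J] [DecidableEq J']
    (σ : J' ≃ J) (t : Matrix (I → ι) (I → ι) k) :
    rei (Equiv.sumCongr (Equiv.refl I) σ) (Equiv.sumCongr (Equiv.refl I) σ)
      (tsum t (1 : Matrix (J → ι) (J → ι) k)) = tsum t (1 : Matrix (J' → ι) (J' → ι) k) := by
  rw [← Bridge_rei_one σ]
  rfl

theorem BridgeH_sm_trans {m n : ℕ} {I J J' : Type} (a : Fin m ≃ I) (b : Fin n ≃ J)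
    (σ : J ≃ J') : (sm a b).trans (Equiv.sumCongr (Equiv.refl I) σ) = sm a (b.trans σ) := by
  refine Equiv.ext fun i => ?_
  show (Equiv.sumCongr (Equiv.refl I) σ) ((Equiv.sumCongr a b) (finSumFinEquiv.symm i)) =
    (Equiv.sumCongr a (b.trans σ)) (finSumFinEquiv.symm i)
  cases finSumFinEquiv.symm i with
  | inl i => rfl
  | inr i => rfl

theorem BridgeH_assoc_tsum {I J J' : Type} [Fintype J] [Fintype J'] [DecidableEq J]
    [DecidableEq J'] (t : Matrix (I → ι) (I → ι) k) :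
    rei (Equiv.sumAssoc I J J') (Equiv.sumAssoc I J J')
      (tsum t (1 : Matrix ((J ⊕ J') → ι) ((J ⊕ J') → ι) k)) =
      tsum (tsum t (1 : Matrix (J → ι) (J → ι) k)) (1 : Matrix (J' → ι) (J' → ι) k) := by
  rw [← Bridge_tsum_one]
  funext x y
  change t (fun i => x (Sum.inl (Sum.inl i))) (fun i => y (Sum.inl (Sum.inl i))) *
    ((1 : Matrix (J → ι) (J → ι) k) (fun i => x (Sum.inl (Sum.inr i)))
      (fun i => y (Sum.inl (Sum.inr i))) *
      (1 : Matrix (J' → ι) (J' → ι) k) (fun i => x (Sum.inr i)) (fun i => y (Sum.inr i))) =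
    (t (fun i => x (Sum.inl (Sum.inl i))) (fun i => y (Sum.inl (Sum.inl i))) *
      (1 : Matrix (J → ι) (J → ι) k) (fun i => x (Sum.inl (Sum.inr i)))
        (fun i => y (Sum.inl (Sum.inr i)))) *
      (1 : Matrix (J' → ι) (J' → ι) k) (fun i => x (Sum.inr i)) (fun i => y (Sum.inr i))
  rw [mul_assoc]

theorem hk_even [CharZero k] (hC : IsSuperFamily odd B C) (r m : ℕ) (t : Mor k ι r r) :
    hk odd C r (2 * m) t =
      srk odd C (sm (Equiv.refl (Fin r)) (Equiv.refl (Fin m))) (Equiv.refl (Fin m)) 1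
        (tsum t 1) := by
  have h1 : hk odd C r (2 * m) t =
      srk odd C (Equiv.refl (Fin r)) (Equiv.refl (Fin (2 * m))) 1 t := rfl
  rw [h1, srk_tgt (Equiv.refl (Fin r)) (Equiv.refl (Fin (2 * m)))
    (sm (Equiv.refl (Fin m)) (Equiv.refl (Fin m))) (two_mul m) t,
    srk_rotr hC (Equiv.refl (Fin m)) (Equiv.refl (Fin r)) (Equiv.refl (Fin m)) t]
  have h2 := srk_rei (odd := odd) (C := C)
    (a := sm (Equiv.refl (Fin r)) (rv (Equiv.refl (Fin m)))) (b := Equiv.refl (Fin m))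
    (a' := sm (Equiv.refl (Fin r)) (Equiv.refl (Fin m))) (b' := Equiv.refl (Fin m)) rfl rfl
    (Equiv.sumCongr (Equiv.refl (Fin r)) Fin.revPerm) (Equiv.refl (Fin m))
    (by rw [BridgeH_sm_trans]; rfl) rfl (1 : Matrix (Fin m → ι) (Fin m → ι) k)
    (tsum t (1 : Matrix (Fin m → ι) (Fin m → ι) k))
  rw [BridgeH_rei_tsum, Bridge_rei_one] at h2
  exact h2.symm

theorem hk_odd [CharZero k] (hC : IsSuperFamily odd B C) (r m : ℕ) (t : Mor k ι r r) :
    hk odd C r (2 * m + 1) t =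
      srk odd C (sm (sm (Equiv.refl (Fin r)) (Equiv.refl (Fin 1))) (Equiv.refl (Fin m)))
        (Equiv.refl (Fin m)) 1 (tsum (tsum t (1 : Matrix (Fin 1 → ι) (Fin 1 → ι) k)) 1) := by
  have h1 : hk odd C r (2 * m + 1) t =
      srk odd C (Equiv.refl (Fin r)) (Equiv.refl (Fin (2 * m + 1))) 1 t := rfl
  rw [h1, srk_tgt (Equiv.refl (Fin r)) (Equiv.refl (Fin (2 * m + 1)))
    (sm (Equiv.refl (Fin m)) (sm (Equiv.refl (Fin 1)) (Equiv.refl (Fin m)))) (by omega) t,
    srk_rotr hC (sm (Equiv.refl (Fin 1)) (Equiv.refl (Fin m))) (Equiv.refl (Fin r))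
      (Equiv.refl (Fin m)) t]
  have h2 := srk_rei (odd := odd) (C := C)
    (a := sm (Equiv.refl (Fin r)) (rv (sm (Equiv.refl (Fin 1)) (Equiv.refl (Fin m)))))
    (b := Equiv.refl (Fin m))
    (a' := sm (sm (Equiv.refl (Fin r)) (Equiv.refl (Fin 1))) (Equiv.refl (Fin m)))
    (b' := Equiv.refl (Fin m)) (Nat.add_assoc r 1 m) rfl
    ((Equiv.sumAssoc (Fin r) (Fin 1) (Fin m)).trans (Equiv.sumCongr (Equiv.refl (Fin r))
      ((sm (Equiv.refl (Fin 1)) (Equiv.refl (Fin m))).symm.trans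
        (rv (sm (Equiv.refl (Fin 1)) (Equiv.refl (Fin m))))))) (Equiv.refl (Fin m))
    (by
      rw [← Equiv.trans_assoc, sm_assoc, Equiv.trans_assoc, BridgeH_sm_trans,
        ← Equiv.trans_assoc (sm (Equiv.refl (Fin 1)) (Equiv.refl (Fin m))),
        Equiv.self_trans_symm, Equiv.refl_trans]) rfl
    (1 : Matrix (Fin m → ι) (Fin m → ι) k)
    (tsum t (1 : Matrix ((Fin 1 ⊕ Fin m) → ι) ((Fin 1 ⊕ Fin m) → ι) k))
  have h3 : ∀ (σ : (Fin 1 ⊕ Fin m) ≃ (Fin 1 ⊕ Fin m)),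
      rei ((Equiv.sumAssoc (Fin r) (Fin 1) (Fin m)).trans
        (Equiv.sumCongr (Equiv.refl (Fin r)) σ)) ((Equiv.sumAssoc (Fin r) (Fin 1) (Fin m)).trans
        (Equiv.sumCongr (Equiv.refl (Fin r)) σ))
        (tsum t (1 : Matrix ((Fin 1 ⊕ Fin m) → ι) ((Fin 1 ⊕ Fin m) → ι) k)) =
      tsum (tsum t (1 : Matrix (Fin 1 → ι) (Fin 1 → ι) k)) (1 : Matrix (Fin m → ι) (Fin m → ι) k) := by
    intro σ
    have e1 : rei ((Equiv.sumAssoc (Fin r) (Fin 1) (Fin m)).trans
        (Equiv.sumCongr (Equiv.refl (Fin r)) σ)) ((Equiv.sumAssoc (Fin r) (Fin 1) (Fin m)).trans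
        (Equiv.sumCongr (Equiv.refl (Fin r)) σ))
        (tsum t (1 : Matrix ((Fin 1 ⊕ Fin m) → ι) ((Fin 1 ⊕ Fin m) → ι) k)) =
        rei (Equiv.sumAssoc (Fin r) (Fin 1) (Fin m)) (Equiv.sumAssoc (Fin r) (Fin 1) (Fin m))
          (rei (Equiv.sumCongr (Equiv.refl (Fin r)) σ) (Equiv.sumCongr (Equiv.refl (Fin r)) σ)
            (tsum t (1 : Matrix ((Fin 1 ⊕ Fin m) → ι) ((Fin 1 ⊕ Fin m) → ι) k))) := rfl
    rw [e1, BridgeH_rei_tsum, BridgeH_assoc_tsum]
  rw [h3, Bridge_rei_one] at h2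
  exact h2.symm

end MP021685Y
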