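import Pool.Agent.Lib.MP_021685_agY.Hm
import Pool.Agent.Lib.MP_021685_agZ.CsHom

/-!
# Cauchy-Schwarz for the super ranks

LEAF. Guide: `MP021685Z.cs_hom` (`agZ/CsHom.lean`). The algebra of the block matrices with blocks in
`Hm C a a`, `Hm C b a`, `Hm C a b`, `Hm C b b`; the linear form is
`tau M = trace (KK * M)` with `KK = fromBlocks (Kd k odd I) 0 0 (Kd k odd J)`, which commutes with
the algebra (`Hm_even`), so `tau (x y) = tau (y x)` and `tau` is zero on nilpotent elements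
(`KK * x` is nilpotent by `Commute.isNilpotent_mul_left` or the like). Then `HALF_CS`, `hh_prk`.
-/

set_option autoImplicit false
set_option linter.unusedSectionVars false

namespace MP021685Y

open Matrix MP021685Z

variable {k : Type*} [Field k] {ι : Type} [Fintype ι] [DecidableEq ι]

variable {odd : ι → Bool} {B : Matrix ι ι k} {C : ∀ m n : ℕ, Submodule k (Mor k ι m n)}

/-- The algebra of endomorphisms of `V^{⊗I} ⊕ V^{⊗J}`. -/
def Cs_alg (hC : IsSuperFamily odd B C) {m n : ℕ} {I J : Type} [Fintype I] [Fintype J]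
    [DecidableEq I] [DecidableEq J] (a : Fin m ≃ I) (b : Fin n ≃ J) :
    Subalgebra k (Matrix ((I → ι) ⊕ (J → ι)) ((I → ι) ⊕ (J → ι)) k) where
  carrier := {M | M.toBlocks₁₁ ∈ Hm C a a ∧ M.toBlocks₁₂ ∈ Hm C b a ∧
    M.toBlocks₂₁ ∈ Hm C a b ∧ M.toBlocks₂₂ ∈ Hm C b b}
  mul_mem' := by
    rintro x y ⟨a1, a2, a3, a4⟩ ⟨b1, b2, b3, b4⟩
    have h : x * y = fromBlocks (x.toBlocks₁₁ * y.toBlocks₁₁ + x.toBlocks₁₂ * y.toBlocks₂₁)
        (x.toBlocks₁₁ * y.toBlocks₁₂ + x.toBlocks₁₂ * y.toBlocks₂₂)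
        (x.toBlocks₂₁ * y.toBlocks₁₁ + x.toBlocks₂₂ * y.toBlocks₂₁)
        (x.toBlocks₂₁ * y.toBlocks₁₂ + x.toBlocks₂₂ * y.toBlocks₂₂) := by
      conv_lhs => rw [← fromBlocks_toBlocks x, ← fromBlocks_toBlocks y]
      rw [fromBlocks_multiply]
    rw [Set.mem_ofPred_eq, h]
    simp only [toBlocks_fromBlocks₁₁, toBlocks_fromBlocks₁₂, toBlocks_fromBlocks₂₁,
      toBlocks_fromBlocks₂₂]
    exact ⟨add_mem (Hm_mul hC a1 b1) (Hm_mul hC a2 b3),
      add_mem (Hm_mul hC a1 b2) (Hm_mul hC a2 b4),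
      add_mem (Hm_mul hC a3 b1) (Hm_mul hC a4 b3),
      add_mem (Hm_mul hC a3 b2) (Hm_mul hC a4 b4)⟩
  add_mem' := by
    rintro x y ⟨a1, a2, a3, a4⟩ ⟨b1, b2, b3, b4⟩
    exact ⟨add_mem a1 b1, add_mem a2 b2, add_mem a3 b3, add_mem a4 b4⟩
  algebraMap_mem' := by
    intro c
    have h : algebraMap k (Matrix ((I → ι) ⊕ (J → ι)) ((I → ι) ⊕ (J → ι)) k) c =
        fromBlocks (c • 1) 0 0 (c • 1) := by
      rw [Algebra.algebraMap_eq_smul_one, ← fromBlocks_one, fromBlocks_smul]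
      simp
    rw [Set.mem_ofPred_eq, h]
    simp only [toBlocks_fromBlocks₁₁, toBlocks_fromBlocks₁₂, toBlocks_fromBlocks₂₁,
      toBlocks_fromBlocks₂₂]
    exact ⟨Submodule.smul_mem _ _ (Hm_one hC a), zero_mem _, zero_mem _,
      Submodule.smul_mem _ _ (Hm_one hC b)⟩

theorem Cs_mem (hC : IsSuperFamily odd B C) {m n : ℕ} {I J : Type} [Fintype I] [Fintype J]
    [DecidableEq I] [DecidableEq J] {a : Fin m ≃ I} {b : Fin n ≃ J}
    {p : Matrix (I → ι) (I → ι) k} {q : Matrix (I → ι) (J → ι) k}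
    {r : Matrix (J → ι) (I → ι) k} {s : Matrix (J → ι) (J → ι) k} (hp : p ∈ Hm C a a)
    (hq : q ∈ Hm C b a) (hr : r ∈ Hm C a b) (hs : s ∈ Hm C b b) :
    fromBlocks p q r s ∈ Cs_alg hC a b := by
  show _ ∧ _ ∧ _ ∧ _
  simp only [toBlocks_fromBlocks₁₁, toBlocks_fromBlocks₁₂, toBlocks_fromBlocks₂₁,
      toBlocks_fromBlocks₂₂]
  exact ⟨hp, hq, hr, hs⟩

/-- The diagonal matrix of the signs on `V^{⊗I} ⊕ V^{⊗J}`. -/
def Cs_K (k : Type*) [Field k] {ι : Type} [DecidableEq ι] (odd : ι → Bool) (I J : Type)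
    [Fintype I] [Fintype J] : Matrix ((I → ι) ⊕ (J → ι)) ((I → ι) ⊕ (J → ι)) k :=
  fromBlocks (Kd k odd I) 0 0 (Kd k odd J)

theorem Cs_comm (hC : IsSuperFamily odd B C) {m n : ℕ} {I J : Type} [Fintype I] [Fintype J]
    [DecidableEq I] [DecidableEq J] {a : Fin m ≃ I} {b : Fin n ≃ J}
    {M : Matrix ((I → ι) ⊕ (J → ι)) ((I → ι) ⊕ (J → ι)) k} (hM : M ∈ Cs_alg hC a b) :
    Cs_K k odd I J * M = M * Cs_K k odd I J := by
  obtain ⟨h1, h2, h3, h4⟩ := hM
  conv_lhs => rw [← fromBlocks_toBlocks M]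
  conv_rhs => rw [← fromBlocks_toBlocks M]
  rw [Cs_K, fromBlocks_multiply, fromBlocks_multiply]
  simp only [Matrix.zero_mul, Matrix.mul_zero, add_zero, zero_add]
  rw [Hm_even hC h1, Hm_even hC h2, Hm_even hC h3, Hm_even hC h4]

/-- The supertrace on the block algebra. -/
def Cs_tr (hC : IsSuperFamily odd B C) {m n : ℕ} {I J : Type} [Fintype I] [Fintype J]
    [DecidableEq I] [DecidableEq J] (a : Fin m ≃ I) (b : Fin n ≃ J) :
    Cs_alg hC a b →ₗ[k] k where
  toFun x := trace (Cs_K k odd I J * x.1)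
  map_add' x y := by
    show trace (Cs_K k odd I J * (x.1 + y.1)) = _
    rw [Matrix.mul_add, trace_add]
  map_smul' c x := by
    show trace (Cs_K k odd I J * (c • x.1)) = c • trace (Cs_K k odd I J * x.1)
    rw [Matrix.mul_smul, trace_smul]

/-- Left multiplication by a matrix. -/
def Cs_lm {a b : Type*} [Fintype a] (K : Matrix a a k) : Matrix a b k →ₗ[k] Matrix a b k where
  toFun := fun G => K * G
  map_add' := fun F G => Matrix.mul_add K F G
  map_smul' := fun c F => Matrix.mul_smul K c F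

theorem Cs_range {S : Type*} [Ring S] [Algebra k S] {a b : Type*} [Fintype a]
    (K : Matrix a a k) (Q : Submodule k (Matrix a b k)) (r : S →ₗ[k] Matrix a b k)
    (hr : LinearMap.range r = Q) : LinearMap.range (Cs_lm K ∘ₗ r) = tw K Q := by
  rw [LinearMap.range_comp, hr]
  rfl

/-- Cauchy-Schwarz. -/
theorem cs' [IsAlgClosed k] [CharZero k] (hC : IsSuperFamily odd B C) {m n : ℕ} {I J : Type}
    [Fintype I] [Fintype J] [DecidableEq I] [DecidableEq J] (a : Fin m ≃ I) (b : Fin n ≃ J)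
    (η : Matrix (I → ι) (I → ι) k) (θ : Matrix (J → ι) (J → ι) k)
    (hη : η ∈ Hm C a a) (hη2 : η * η = η) (hθ : θ ∈ Hm C b b) (hθ2 : θ * θ = θ) :
    srk odd C a b θ η ^ 2 ≤ srk odd C a a η η * srk odd C b b θ θ := by
  classical
  let S := Cs_alg hC a b
  let e : S := ⟨fromBlocks η 0 0 0, Cs_mem hC hη (zero_mem _) (zero_mem _) (zero_mem _)⟩
  let f : S := ⟨fromBlocks 0 0 0 θ, Cs_mem hC (zero_mem _) (zero_mem _) (zero_mem _) hθ⟩
  have he : e * e = e := by
    apply Subtype.ext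
    show fromBlocks η 0 0 0 * fromBlocks η 0 0 0 = fromBlocks η 0 0 0
    rw [fromBlocks_multiply]
    simp [hη2]
  have hf : f * f = f := by
    apply Subtype.ext
    show fromBlocks 0 0 0 θ * fromBlocks 0 0 0 θ = fromBlocks 0 0 0 θ
    rw [fromBlocks_multiply]
    simp [hθ2]
  have hcs := HALF_CS (Cs_tr hC a b)
    (fun x y => by
      show trace (Cs_K k odd I J * (x.1 * y.1)) = trace (Cs_K k odd I J * (y.1 * x.1))
      rw [← Matrix.mul_assoc, Cs_comm hC x.2, Matrix.mul_assoc, trace_mul_comm,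
        Matrix.mul_assoc])
    (fun x hx => by
      have h1 : IsNilpotent (x.1 : Matrix _ _ k) := hx.map (Cs_alg hC a b).val
      have h2 : Commute (Cs_K k odd I J) x.1 := Cs_comm hC x.2
      exact (isNilpotent_trace_of_isNilpotent (h2.isNilpotent_mul_left h1)).eq_zero) e f he hf
  let b11 : S →ₗ[k] Matrix (I → ι) (I → ι) k :=
    { toFun := fun x => x.1.toBlocks₁₁, map_add' := fun _ _ => rfl, map_smul' := fun _ _ => rfl }
  let b12 : S →ₗ[k] Matrix (I → ι) (J → ι) k :=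
    { toFun := fun x => x.1.toBlocks₁₂, map_add' := fun _ _ => rfl, map_smul' := fun _ _ => rfl }
  let b21 : S →ₗ[k] Matrix (J → ι) (I → ι) k :=
    { toFun := fun x => x.1.toBlocks₂₁, map_add' := fun _ _ => rfl, map_smul' := fun _ _ => rfl }
  let b22 : S →ₗ[k] Matrix (J → ι) (J → ι) k :=
    { toFun := fun x => x.1.toBlocks₂₂, map_add' := fun _ _ => rfl, map_smul' := fun _ _ => rfl }
  have r11 : LinearMap.range b11 = Hm C a a := by
    ext F
    constructor
    · rintro ⟨x, rfl⟩; exact x.2.1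
    · intro hF
      exact ⟨⟨fromBlocks F 0 0 0, Cs_mem hC hF (zero_mem _) (zero_mem _) (zero_mem _)⟩,
        toBlocks_fromBlocks₁₁ _ _ _ _⟩
  have r12 : LinearMap.range b12 = Hm C b a := by
    ext F
    constructor
    · rintro ⟨x, rfl⟩; exact x.2.2.1
    · intro hF
      exact ⟨⟨fromBlocks 0 F 0 0, Cs_mem hC (zero_mem _) hF (zero_mem _) (zero_mem _)⟩,
        toBlocks_fromBlocks₁₂ _ _ _ _⟩
  have r21 : LinearMap.range b21 = Hm C a b := by
    ext F
    constructor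
    · rintro ⟨x, rfl⟩; exact x.2.2.2.1
    · intro hF
      exact ⟨⟨fromBlocks 0 0 F 0, Cs_mem hC (zero_mem _) (zero_mem _) hF (zero_mem _)⟩,
        toBlocks_fromBlocks₂₁ _ _ _ _⟩
  have r22 : LinearMap.range b22 = Hm C b b := by
    ext F
    constructor
    · rintro ⟨x, rfl⟩; exact x.2.2.2.2
    · intro hF
      exact ⟨⟨fromBlocks 0 0 0 F, Cs_mem hC (zero_mem _) (zero_mem _) (zero_mem _) hF⟩,
        toBlocks_fromBlocks₂₂ _ _ _ _⟩
  have h1 : hh (Cs_tr hC a b) e f = srk odd C a b θ η := by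
    refine hh_prk _ _ _ _ _ (lr θ η ∘ₗ b21) (Cs_lm (Kd k odd I) ∘ₗ b12) ?_
      (Cs_range _ _ _ r12) ?_
    · rw [LinearMap.range_comp, r21]; rfl
    · intro x y
      show trace (Cs_K k odd I J * (y.1 * (fromBlocks 0 0 0 θ * x.1 * fromBlocks η 0 0 0))) =
        trace ((Kd k odd I * y.1.toBlocks₁₂) * (θ * x.1.toBlocks₂₁ * η))
      conv_lhs => rw [← fromBlocks_toBlocks x.1, ← fromBlocks_toBlocks y.1]
      rw [Cs_K, fromBlocks_multiply, fromBlocks_multiply, fromBlocks_multiply,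
        fromBlocks_multiply, trace_fb]
      simp [Matrix.mul_assoc]
  have h2 : hh (Cs_tr hC a b) e e = srk odd C a a η η := by
    refine hh_prk _ _ _ _ _ (lr η η ∘ₗ b11) (Cs_lm (Kd k odd I) ∘ₗ b11) ?_
      (Cs_range _ _ _ r11) ?_
    · rw [LinearMap.range_comp, r11]; rfl
    · intro x y
      show trace (Cs_K k odd I J * (y.1 * (fromBlocks η 0 0 0 * x.1 * fromBlocks η 0 0 0))) =
        trace ((Kd k odd I * y.1.toBlocks₁₁) * (η * x.1.toBlocks₁₁ * η))
      conv_lhs => rw [← fromBlocks_toBlocks x.1, ← fromBlocks_toBlocks y.1]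
      rw [Cs_K, fromBlocks_multiply, fromBlocks_multiply, fromBlocks_multiply,
        fromBlocks_multiply, trace_fb]
      simp [Matrix.mul_assoc]
  have h3 : hh (Cs_tr hC a b) f f = srk odd C b b θ θ := by
    refine hh_prk _ _ _ _ _ (lr θ θ ∘ₗ b22) (Cs_lm (Kd k odd J) ∘ₗ b22) ?_
      (Cs_range _ _ _ r22) ?_
    · rw [LinearMap.range_comp, r22]; rfl
    · intro x y
      show trace (Cs_K k odd I J * (y.1 * (fromBlocks 0 0 0 θ * x.1 * fromBlocks 0 0 0 θ))) =
        trace ((Kd k odd J * y.1.toBlocks₂₂) * (θ * x.1.toBlocks₂₂ * θ))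
      conv_lhs => rw [← fromBlocks_toBlocks x.1, ← fromBlocks_toBlocks y.1]
      rw [Cs_K, fromBlocks_multiply, fromBlocks_multiply, fromBlocks_multiply,
        fromBlocks_multiply, trace_fb]
      simp [Matrix.mul_assoc]
  rw [h1, h2, h3] at hcs
  exact hcs

end MP021685Y
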