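import Pool.Agent.Lib.MP_021685_agZ.Defs

/-!
# Families of correspondences on a super space: definitions

`V = k^ι` with a parity `odd : ι → Bool` of the basis vectors.
-/

set_option autoImplicit false

namespace MP021685Y

open Matrix MP021685Z

/-- The sign `-1` of an odd index, `1` of an even index. -/
def sgn (k : Type*) [Field k] {ι : Type} (odd : ι → Bool) (i : ι) : k := if odd i then -1 else 1

/-- The signed exchange of the two factors of `V ⊗ V`: `v ⊗ w ↦ (-1) ^ (|v| |w|) w ⊗ v`. -/
def swapMor (k : Type*) [Field k] {ι : Type} [DecidableEq ι] (odd : ι → Bool) : Mor k ι 2 2 :=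
  fun x y => if y 0 = x 1 ∧ y 1 = x 0 then (if odd (x 0) && odd (x 1) then -1 else 1) else 0

/-- A family of correspondences on the super space `V`: spaces `C m n` of even linear maps
`V^{⊗m} → V^{⊗n}`, closed under composition and tensor products, which contain the identities, the
signed exchange of two factors, a nondegenerate supersymmetric bilinear form on `V` and its inverse
tensor in `V ⊗ V`, and a vector `e` in `V` and a linear form `e'` on `V` with `e' e ≠ 0`. -/
structure IsSuperFamily {k : Type*} [Field k] {ι : Type} [Fintype ι] [DecidableEq ι]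
    (odd : ι → Bool) (B : Matrix ι ι k) (C : ∀ m n : ℕ, Submodule k (Mor k ι m n)) : Prop where
  even_mem : ∀ (m n : ℕ) (f : Mor k ι m n), f ∈ C m n → ∀ x y, f x y ≠ 0 →
    ∏ i, sgn k odd (x i) = ∏ i, sgn k odd (y i)
  one_mem : ∀ n : ℕ, (1 : Mor k ι n n) ∈ C n n
  swap_mem : swapMor k odd ∈ C 2 2
  comp_mem : ∀ (l m n : ℕ) (f : Mor k ι m n) (g : Mor k ι l m),
    f ∈ C m n → g ∈ C l m → f * g ∈ C l n
  tens_mem : ∀ (m n m' n' : ℕ) (f : Mor k ι m n) (g : Mor k ι m' n'),
    f ∈ C m n → g ∈ C m' n' → tens f g ∈ C (m + m') (n + n')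
  nondeg : IsUnit B.det
  symm : ∀ i j, B j i = (if odd i && odd j then -1 else 1) * B i j
  form_mem : formMor B ∈ C 2 0
  coform_mem : coformMor B ∈ C 0 2
  unit_mem : ∃ e ∈ C 0 1, ∃ e' ∈ C 1 0, e' * e ≠ 0

end MP021685Y
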