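import Mathlib

/-!
# Either the ratios tend to `N²` or `a / b` tends to `0` (real numbers)

`q m = a (2 (m + 1)) / a (2 m)` is increasing (`hconv`) and at most `N ^ 2` (`htwo`), so it has a
limit `q ≤ N ^ 2`. If `q = N ^ 2`: for every `s`, `a (2 (m + s)) / a (2 m) = ∏_{i < s} q (m + i) → N^(2s)`,
first case. If `q < N ^ 2`: `a (2 m) ≤ a 0 * q ^ m`, `b (2 m) ≥ N^(2m) / (m + 1)^K`,
`b (2 m + 1) ≥ b (2 m)`, `a (2 m + 1) ≤ N * a (2 m)`, so `a n / b n` is at most
`N * a 0 * (q / N²)^m * (m + 1)^K` for `n = 2 m`, `2 m + 1` (if `q = 0` trivial; `0 < q` by positivity), which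
tends to `0` (`tendsto_pow_const_mul_const_pow_of_abs_lt_one`).
-/

set_option autoImplicit false

namespace MP021685Y

open Filter Topology

theorem dich {N : ℝ} (hN : 1 ≤ N) (K : ℕ) (a b : ℕ → ℝ) (ha : ∀ n, 0 < a n)
    (hab : ∀ n, a n ≤ b n)
    (hconv : ∀ m, a (2 * (m + 1)) ^ 2 ≤ a (2 * m) * a (2 * (m + 2)))
    (htwo : ∀ m, a (2 * (m + 1)) ≤ N ^ 2 * a (2 * m))
    (hstep : ∀ m, a (2 * m + 1) ≤ N * a (2 * m))
    (hb : ∀ m : ℕ, N ^ (2 * m) ≤ b (2 * m) * ((m : ℝ) + 1) ^ K)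
    (hbm : ∀ n, b n ≤ b (n + 1)) :
    (∀ (s : ℕ) (δ : ℝ), 0 < δ → ∃ m0 : ℕ, ∀ m : ℕ, m0 ≤ m →
      (N ^ (2 * s) - δ) * a (2 * m) ≤ a (2 * (m + s))) ∨
    Tendsto (fun n => a n / b n) atTop (𝓝 0) := by
  have hN0 : 0 < N := by linarith
  obtain ⟨q, hq⟩ : ∃ q : ℕ → ℝ, ∀ i, q i = a (2 * (i + 1)) / a (2 * i) := ⟨_, fun _ => rfl⟩
  have hq0 : ∀ i, 0 < q i := fun i => by
    rw [hq]
    exact div_pos (ha _) (ha _)
  have hqa : ∀ i, a (2 * (i + 1)) = q i * a (2 * i) := fun i => by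
    rw [hq, div_mul_cancel₀ _ (ha _).ne']
  have hqm : ∀ i, q i ≤ q (i + 1) := fun i => by
    rw [hq, hq, div_le_div_iff₀ (ha _) (ha _)]
    have h4 := hconv i
    rw [sq, mul_comm (a (2 * i))] at h4
    exact h4
  have hqmono : Monotone q := monotone_nat_of_le_succ hqm
  have hqN : ∀ i, q i ≤ N ^ 2 := fun i => by
    rw [hq, div_le_iff₀ (ha _)]
    exact htwo i
  by_cases hcase : ∀ ε : ℝ, 0 < ε → ∃ m0, N ^ 2 - ε ≤ q m0
  · left
    intro s δ hδ
    -- choose ε with (N² - ε)^s ≥ N^(2s) - δ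
    have hcont : Tendsto (fun ε : ℝ => (N ^ 2 - ε) ^ s) (𝓝 0) (𝓝 ((N ^ 2 - 0) ^ s)) :=
      ((continuous_const.sub continuous_id).pow s).tendsto 0
    rw [sub_zero, ← pow_mul] at hcont
    have hev : ∀ᶠ ε in 𝓝 (0 : ℝ), N ^ (2 * s) - δ < (N ^ 2 - ε) ^ s :=
      hcont.eventually (lt_mem_nhds (by linarith))
    have hev2 : ∀ᶠ ε in 𝓝 (0 : ℝ), ε < N ^ 2 := gt_mem_nhds (by positivity)
    obtain ⟨η, hη, hball⟩ := Metric.eventually_nhds_iff.mp (hev.and hev2)
    have hη2 : dist (η / 2) (0 : ℝ) < η := by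
      rw [Real.dist_eq, sub_zero, abs_of_pos (by linarith)]
      linarith
    obtain ⟨hε1, hε2⟩ := hball hη2
    obtain ⟨m0, hm0⟩ := hcase (η / 2) (by linarith)
    refine ⟨m0, fun m hm => ?_⟩
    have hlow : ∀ j, (N ^ 2 - η / 2) ^ j * a (2 * m) ≤ a (2 * (m + j)) := by
      intro j
      induction j with
      | zero => simp
      | succ j ih =>
        have h4 : a (2 * (m + (j + 1))) = q (m + j) * a (2 * (m + j)) := hqa (m + j)
        have h5 : N ^ 2 - η / 2 ≤ q (m + j) := hm0.trans (hqmono (by omega))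
        rw [h4, pow_succ, mul_comm ((N ^ 2 - η / 2) ^ j), mul_assoc]
        exact mul_le_mul h5 ih (mul_nonneg (pow_nonneg (by linarith) _) (ha _).le) (hq0 _).le
    exact (mul_le_mul_of_nonneg_right hε1.le (ha _).le).trans (hlow s)
  · right
    push Not at hcase
    obtain ⟨ε, hε, hlt⟩ := hcase
    -- the rate
    set ρ : ℝ := max (N ^ 2 - ε) (N ^ 2 / 2) with hρ
    have hρ0 : 0 < ρ := lt_of_lt_of_le (by positivity) (le_max_right _ _)
    have hρN : ρ < N ^ 2 := by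
      have : 0 < N ^ 2 := by positivity
      exact max_lt (by linarith) (by linarith)
    have hqρ : ∀ i, q i ≤ ρ := fun i => (hlt i).le.trans (le_max_left _ _)
    have hup : ∀ m, a (2 * m) ≤ a 0 * ρ ^ m := by
      intro m
      induction m with
      | zero => simp
      | succ m ih =>
        rw [hqa m, pow_succ]
        calc q m * a (2 * m) ≤ ρ * (a 0 * ρ ^ m) :=
              mul_le_mul (hqρ m) ih (ha _).le hρ0.le
          _ = a 0 * (ρ ^ m * ρ) := by ring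
    have hb0 : ∀ n, 0 < b n := fun n => (ha n).trans_le (hab n)
    -- the bound for `a n / b n`
    have hbound : ∀ m n : ℕ, n = 2 * m ∨ n = 2 * m + 1 →
        a n / b n ≤ N * a 0 * (((m : ℝ) + 1) ^ K * (ρ / N ^ 2) ^ m) := by
      intro m n hn
      have h1 : a n ≤ N * a (2 * m) := by
        rcases hn with rfl | rfl
        · have := mul_le_mul_of_nonneg_right hN (ha (2 * m)).le
          linarith
        · exact hstep m
      have h2 : b (2 * m) ≤ b n := by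
        rcases hn with rfl | rfl
        · exact le_rfl
        · exact hbm _
      have hp : 0 < ((m : ℝ) + 1) ^ K := by positivity
      have h3 : N ^ (2 * m) ≤ b n * ((m : ℝ) + 1) ^ K :=
        (hb m).trans (mul_le_mul_of_nonneg_right h2 hp.le)
      rw [div_le_iff₀ (hb0 n)]
      have h4 : a n ≤ N * (a 0 * ρ ^ m) := h1.trans (mul_le_mul_of_nonneg_left (hup m) hN0.le)
      have h5 : N * a 0 * (((m : ℝ) + 1) ^ K * (ρ / N ^ 2) ^ m) * b n =
          N * (a 0 * ρ ^ m) * (b n * ((m : ℝ) + 1) ^ K / N ^ (2 * m)) := by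
        rw [div_pow, ← pow_mul]
        ring
      rw [h5]
      have h6 : 1 ≤ b n * ((m : ℝ) + 1) ^ K / N ^ (2 * m) := by
        rw [le_div_iff₀ (by positivity), one_mul]
        exact h3
      have h7 : 0 ≤ N * (a 0 * ρ ^ m) := by
        have := ha 0
        positivity
      calc a n ≤ N * (a 0 * ρ ^ m) := h4
        _ = N * (a 0 * ρ ^ m) * 1 := by ring
        _ ≤ _ := mul_le_mul_of_nonneg_left h6 h7
    have hlim : Tendsto (fun m : ℕ => (m : ℝ) ^ K * (ρ / N ^ 2) ^ m) atTop (𝓝 0) := by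
      apply tendsto_pow_const_mul_const_pow_of_abs_lt_one
      rw [abs_of_pos (by positivity), div_lt_one (by positivity)]
      exact hρN
    have hlim2 : Tendsto (fun m : ℕ => (((m + 1 : ℕ) : ℝ)) ^ K * (ρ / N ^ 2) ^ (m + 1)) atTop
        (𝓝 0) := hlim.comp (tendsto_add_atTop_nat 1)
    have hlim3 : Tendsto (fun m : ℕ => N * a 0 * (((m : ℝ) + 1) ^ K * (ρ / N ^ 2) ^ m)) atTop
        (𝓝 0) := by
      have h1 := hlim2.const_mul (N * a 0 * (N ^ 2 / ρ))
      rw [mul_zero] at h1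
      refine h1.congr fun m => ?_
      push_cast
      have : N ^ 2 / ρ * (ρ / N ^ 2) = 1 := by
        field_simp
      calc N * a 0 * (N ^ 2 / ρ) * (((m : ℝ) + 1) ^ K * (ρ / N ^ 2) ^ (m + 1)) =
            N * a 0 * (((m : ℝ) + 1) ^ K * (ρ / N ^ 2) ^ m) * (N ^ 2 / ρ * (ρ / N ^ 2)) := by
              rw [pow_succ]; ring
        _ = _ := by rw [this, mul_one]
    have hlim4 : Tendsto (fun n : ℕ => N * a 0 *
        ((((n / 2 : ℕ) : ℝ) + 1) ^ K * (ρ / N ^ 2) ^ (n / 2))) atTop (𝓝 0) :=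
      hlim3.comp (Nat.tendsto_div_const_atTop (by norm_num))
    refine squeeze_zero (fun n => (div_pos (ha n) (hb0 n)).le) (fun n => ?_) hlim4
    exact hbound (n / 2) n (by omega)

end MP021685Y
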