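import Pool.Agent.Lib.MP_021685_agZ.EffNum

/-!
# The rate of convergence

Compare `MP021685Z.eff_ratio`, `eff_log`, `eff_final` (`agZ/EffNum.lean`).

`eff_ratio'`: let `q i = a (i + 1) / a i` (increasing). `a m ≤ q (m - 1) ^ m` (`a 0 ≤ 1`), so
`a m ≤ q m ^ m`; with `h3`: `2 m log N ≤ log (2 N) + m log (q m) + N² log (m + 1)`, and
`log (2 N) ≤ N² log 2` (`2 N ≤ 2 ^ (N ^ 2)`), so `log (q m / N²) ≥ - N² log (2 m + 2) / m =: - l`.
Then `a (m + s) ≥ q m ^ s a m ≥ N^(2s) exp (- s l) a m ≥ N^(2s) (1 - s l) a m`.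
`eff_log'`: for `x ≥ 2` and `y ≥ 2 x log x + 1`: `x log (y + 2) < y`. The function `y - x log (y + 2)` is
increasing for `y + 2 ≥ x`; at `y₀ = 2 x log x + 1` the claim is `2 x log x + 3 < x² exp (1 / x)`,
`exp (1/x) ≥ 1 + 1/x + 1/(2x²)`, and `2 x log x ≤ 2 x (log 2 + x / 2 - 1) ≤ x² - 0.61 x`.
Without calculus: `log (y + 2) ≤ log (y₀ + 2) + (y - y₀) / (y₀ + 2)` (`Real.log_le_sub_one_of_pos`).
`eff_final'`: `x log (2 m + 2) < 2 m` from `eff_log'` with `y = 2 m ≥ n - 1`.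
-/

set_option autoImplicit false

namespace MP021685Y

theorem EffNum_two_mul_le (N : ℕ) (hN : 1 ≤ N) : 2 * N ≤ 2 ^ (N ^ 2) := by
  have h1 : N < 2 ^ N := Nat.lt_two_pow_self
  rcases Nat.lt_or_ge N 2 with h | h
  · have : N = 1 := by omega
    subst this
    norm_num
  · have h2 : N + 1 ≤ N ^ 2 := by nlinarith
    calc 2 * N ≤ 2 * 2 ^ N := by omega
      _ = 2 ^ (N + 1) := by ring
      _ ≤ 2 ^ (N ^ 2) := Nat.pow_le_pow_right (by norm_num) h2

theorem eff_ratio' (N : ℕ) (hN : 1 ≤ N) (a : ℕ → ℝ) (ha : ∀ m, 0 < a m) (h0 : a 0 ≤ 1)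
    (h1 : ∀ m, a (m + 1) ^ 2 ≤ a m * a (m + 2)) (m : ℕ) (hm : 1 ≤ m)
    (h3 : (N : ℝ) ^ (2 * m) ≤ 2 * N * a m * ((m : ℝ) + 1) ^ (N ^ 2)) (s : ℕ) :
    (N : ℝ) ^ (2 * s) * (1 - s * ((N : ℝ) ^ 2 * Real.log (2 * (m : ℝ) + 2) / (m : ℝ))) * a m ≤
      a (m + s) := by
  have hN0 : (0 : ℝ) < N := by exact_mod_cast hN
  have hm0 : (0 : ℝ) < m := by exact_mod_cast hm
  -- the ratios
  obtain ⟨q, hq⟩ : ∃ q : ℕ → ℝ, ∀ i, q i = a (i + 1) / a i := ⟨_, fun _ => rfl⟩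
  have hq0 : ∀ i, 0 < q i := fun i => by
    rw [hq]
    exact div_pos (ha _) (ha _)
  have hqa : ∀ i, a (i + 1) = q i * a i := fun i => by
    rw [hq, div_mul_cancel₀ _ (ha i).ne']
  have hqm : ∀ i, q i ≤ q (i + 1) := fun i => by
    rw [hq, hq, div_le_div_iff₀ (ha _) (ha _)]
    have h4 := h1 i
    rw [sq, mul_comm (a i)] at h4
    exact h4
  have hqmono : Monotone q := monotone_nat_of_le_succ hqm
  have hup : ∀ j, j ≤ m → a j ≤ q m ^ j := by
    intro j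
    induction j with
    | zero =>
      intro _
      rw [pow_zero]
      exact h0
    | succ j ih =>
      intro hj
      rw [hqa j, pow_succ, mul_comm]
      exact mul_le_mul (ih (by omega)) (hqmono (by omega)) (hq0 _).le (pow_nonneg (hq0 m).le _)
  have hlow : ∀ j, q m ^ j * a m ≤ a (m + j) := by
    intro j
    induction j with
    | zero => simp
    | succ j ih =>
      have h4 : a (m + (j + 1)) = q (m + j) * a (m + j) := hqa (m + j)
      rw [h4, pow_succ, mul_comm (q m ^ j), mul_assoc]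
      exact mul_le_mul (hqmono (Nat.le_add_right m j)) ih (mul_nonneg (pow_nonneg (hq0 m).le _) (ha m).le)
        (hq0 _).le
  -- the bound for the ratio
  obtain ⟨l, hl⟩ : ∃ l : ℝ, l = (N : ℝ) ^ 2 * Real.log (2 * (m : ℝ) + 2) / (m : ℝ) := ⟨_, rfl⟩
  rw [← hl]
  have h5 : -l ≤ Real.log (q m / (N : ℝ) ^ 2) := by
    have h6 : (N : ℝ) ^ (2 * m) ≤ 2 ^ (N ^ 2) * q m ^ m * ((m : ℝ) + 1) ^ (N ^ 2) := by
      have h7 : (2 : ℝ) * N ≤ 2 ^ (N ^ 2) := by exact_mod_cast EffNum_two_mul_le N hN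
      refine h3.trans (mul_le_mul_of_nonneg_right ?_ (by positivity))
      exact mul_le_mul h7 (hup m le_rfl) (ha m).le (by positivity)
    have h6' : (N : ℝ) ^ (2 * m) ≤ q m ^ m * (2 * (m : ℝ) + 2) ^ (N ^ 2) := by
      have h8 : (2 * (m : ℝ) + 2) ^ (N ^ 2) = 2 ^ (N ^ 2) * ((m : ℝ) + 1) ^ (N ^ 2) := by
        rw [← mul_pow]
        congr 1
        ring
      rw [h8]
      calc (N : ℝ) ^ (2 * m) ≤ 2 ^ (N ^ 2) * q m ^ m * ((m : ℝ) + 1) ^ (N ^ 2) := h6
        _ = q m ^ m * (2 ^ (N ^ 2) * ((m : ℝ) + 1) ^ (N ^ 2)) := by ring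
    have h7 := Real.log_le_log (by positivity) h6'
    rw [Real.log_mul (pow_pos (hq0 m) _).ne' (by positivity), Real.log_pow, Real.log_pow,
      Real.log_pow] at h7
    push_cast at h7
    rw [Real.log_div (hq0 m).ne' (by positivity), Real.log_pow]
    push_cast
    have h8 : l * (m : ℝ) = (N : ℝ) ^ 2 * Real.log (2 * (m : ℝ) + 2) := by
      rw [hl, div_mul_cancel₀ _ hm0.ne']
    have h9 : (m : ℝ) * (-l) ≤ (m : ℝ) * (Real.log (q m) - 2 * Real.log N) := by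
      linarith
    exact le_of_mul_le_mul_left h9 hm0
  have hqN : 0 < q m / (N : ℝ) ^ 2 := div_pos (hq0 m) (by positivity)
  have h6 : 1 - s * l ≤ (q m / (N : ℝ) ^ 2) ^ s := by
    have h7 : Real.exp (s * Real.log (q m / (N : ℝ) ^ 2)) = (q m / (N : ℝ) ^ 2) ^ s := by
      rw [mul_comm, Real.exp_mul, Real.exp_log hqN, Real.rpow_natCast]
    rw [← h7]
    have h8 := Real.add_one_le_exp (s * Real.log (q m / (N : ℝ) ^ 2))
    have h9 : (s : ℝ) * (-l) ≤ s * Real.log (q m / (N : ℝ) ^ 2) := mul_le_mul_of_nonneg_left h5 (Nat.cast_nonneg _)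
    linarith
  calc (N : ℝ) ^ (2 * s) * (1 - s * l) * a m ≤ (N : ℝ) ^ (2 * s) * (q m / (N : ℝ) ^ 2) ^ s * a m :=
        mul_le_mul_of_nonneg_right (mul_le_mul_of_nonneg_left h6 (by positivity)) (ha m).le
    _ = q m ^ s * a m := by
        rw [div_pow, ← pow_mul, mul_div_cancel₀ _ (by positivity)]
    _ ≤ a (m + s) := hlow s

theorem eff_log' {x y : ℝ} (hx : 2 ≤ x) (hy : 2 * x * Real.log x + 1 ≤ y) :
    x * Real.log (y + 2) < y := by
  have hx0 : 0 < x := by linarith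
  -- upper bound for log x
  have hlx : Real.log x ≤ Real.log 2 + (x / 2 - 1) := by
    have h1 : Real.log x = Real.log 2 + Real.log (x / 2) := by
      rw [← Real.log_mul (by norm_num) (by positivity)]
      congr 1
      field_simp
    rw [h1]
    have := Real.log_le_sub_one_of_pos (show 0 < x / 2 by positivity)
    linarith
  have hl2 := Real.log_two_lt_d9
  have hl2' := Real.log_two_gt_d9
  have hl0 : Real.log 2 ≤ Real.log x := Real.log_le_log (by norm_num) hx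
  obtain ⟨c, hc⟩ : ∃ c : ℝ, c = 2 * x * Real.log x + 3 := ⟨_, rfl⟩
  have hc0 : x < c := by
    rw [hc]
    nlinarith
  have hcp : 0 < c := by linarith
  have hcx : c < x ^ 2 + x + 1 / 2 := by
    rw [hc]
    nlinarith
  -- log c < 2 log x + 1 / x
  have h2 : Real.log c < 2 * Real.log x + 1 / x := by
    have h3 : x ^ 2 + x + 1 / 2 ≤ x ^ 2 * Real.exp (1 / x) := by
      have h4 := Real.quadratic_le_exp_of_nonneg (show 0 ≤ 1 / x by positivity)
      have h5 : x ^ 2 * (1 + 1 / x + (1 / x) ^ 2 / 2) = x ^ 2 + x + 1 / 2 := by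
        field_simp
      rw [← h5]
      exact mul_le_mul_of_nonneg_left h4 (by positivity)
    have h6 := Real.log_lt_log hcp (hcx.trans_le h3)
    rw [Real.log_mul (by positivity) (Real.exp_pos _).ne', Real.log_pow, Real.log_exp] at h6
    push_cast at h6
    exact h6
  have hy0 : 0 < y + 2 := by linarith
  have h3 : Real.log (y + 2) ≤ Real.log c + (y + 2 - c) / c := by
    have h4 : Real.log (y + 2) = Real.log ((y + 2) / c) + Real.log c := by
      rw [Real.log_div hy0.ne' hcp.ne']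
      ring
    have h5 := Real.log_le_sub_one_of_pos (div_pos hy0 hcp)
    have h6 : (y + 2 - c) / c = (y + 2) / c - 1 := by field_simp
    linarith
  have h4 : x * ((y + 2 - c) / c) ≤ y + 2 - c := by
    have h5 : 0 ≤ y + 2 - c := by
      rw [hc]
      linarith
    rw [mul_div_assoc', div_le_iff₀ hcp]
    nlinarith
  have h5 : x * (2 * Real.log x + 1 / x) = 2 * x * Real.log x + 1 := by
    field_simp
  calc x * Real.log (y + 2) ≤ x * (Real.log c + (y + 2 - c) / c) :=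
        mul_le_mul_of_nonneg_left h3 hx0.le
    _ = x * Real.log c + x * ((y + 2 - c) / c) := by ring
    _ < x * (2 * Real.log x + 1 / x) + (y + 2 - c) := by
        have := mul_lt_mul_of_pos_left h2 hx0
        linarith
    _ = y := by
        rw [h5, hc]
        ring

theorem EffNum_x {N r : ℕ} (hN : 1 ≤ N) {ε x : ℝ} (hε : 0 < ε) (hε1 : ε ≤ 1)
    (hx : x = ((r : ℝ) + 2) * (N : ℝ) ^ (r + 3) / ε) : 2 ≤ x := by
  have hN1 : (1 : ℝ) ≤ (N : ℝ) ^ (r + 3) := one_le_pow₀ (by exact_mod_cast hN)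
  have hr : (2 : ℝ) ≤ (r : ℝ) + 2 := by
    have := Nat.cast_nonneg (α := ℝ) r
    linarith
  have hxe : x * ε = ((r : ℝ) + 2) * (N : ℝ) ^ (r + 3) := by
    rw [hx]
    field_simp
  have h1 : 2 ≤ x * ε := by
    rw [hxe]
    nlinarith
  have h2 : 0 ≤ x := by
    rw [hx]
    positivity
  nlinarith

theorem eff_final' {N r : ℕ} (hN : 1 ≤ N) {ε x : ℝ} (hε : 0 < ε) (hε1 : ε ≤ 1)
    (hx : x = ((r : ℝ) + 2) * (N : ℝ) ^ (r + 3) / ε) {n m : ℕ}
    (hn : 2 * x * Real.log x + 2 ≤ n) (hm : n = 2 * m ∨ n = 2 * m + 1) {a b η : ℝ} (ha : 0 < a)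
    (hη : η ≤ ((r : ℝ) + 2) / 2 * (N : ℝ) ^ (r + 3) * (Real.log (2 * (m : ℝ) + 2) / (m : ℝ)))
    (hb : a * (2 - η) ≤ b) : ¬ (1 + ε) * b ≤ 2 * a := by
  intro h
  have hx2 : 2 ≤ x := EffNum_x hN hε hε1 hx
  have hxe : x * ε = ((r : ℝ) + 2) * (N : ℝ) ^ (r + 3) := by
    rw [hx]
    field_simp
  have hmn : (n : ℝ) ≤ 2 * m + 1 := by
    rcases hm with h1 | h1
    · have h2 : (n : ℝ) = 2 * m := by exact_mod_cast h1
      linarith
    · have h2 : (n : ℝ) = 2 * m + 1 := by exact_mod_cast h1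
      linarith
  have hlx : 0 ≤ Real.log x := Real.log_nonneg (by linarith)
  have hm0 : (0 : ℝ) < (m : ℝ) := by nlinarith
  have h1 : x * Real.log (2 * (m : ℝ) + 2) < 2 * (m : ℝ) := by
    refine eff_log' hx2 ?_
    linarith
  have h2 : η < ε := by
    refine lt_of_le_of_lt hη ?_
    have h3 : ((r : ℝ) + 2) / 2 * (N : ℝ) ^ (r + 3) * (Real.log (2 * (m : ℝ) + 2) / (m : ℝ)) =
        x * ε / 2 * Real.log (2 * (m : ℝ) + 2) / (m : ℝ) := by
      rw [hxe]
      ring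
    rw [h3, div_lt_iff₀ hm0]
    nlinarith
  have h3 : (1 + ε) * (a * (2 - η)) ≤ 2 * a := (mul_le_mul_of_nonneg_left hb (by linarith)).trans h
  have h4 : (1 + ε) * (2 - η) ≤ 2 := by
    have h5 : a * ((1 + ε) * (2 - η)) ≤ a * 2 := by linarith
    exact le_of_mul_le_mul_left h5 ha
  nlinarith

/-- The threshold is at least `4`, so `m ≥ 1`. -/
theorem eff_m {N r : ℕ} (hN : 1 ≤ N) {ε x : ℝ} (hε : 0 < ε) (hε1 : ε ≤ 1)
    (hx : x = ((r : ℝ) + 2) * (N : ℝ) ^ (r + 3) / ε) {n m : ℕ}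
    (hn : 2 * x * Real.log x + 2 ≤ n) (hm : n = 2 * m ∨ n = 2 * m + 1) : 1 ≤ m := by
  have hx2 : 2 ≤ x := EffNum_x hN hε hε1 hx
  have hlx : 0 ≤ Real.log x := Real.log_nonneg (by linarith)
  have h1 : (2 : ℝ) ≤ n := by nlinarith
  have h2 : 2 ≤ n := by exact_mod_cast h1
  omega

end MP021685Y
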