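import Pool.Agent.Lib.MP_021685_agY.Ev
import Pool.Agent.Lib.MP_021685_agZ.RotA

/-!
# Planar rotations on the right: membership

LEAF. Guide: `MP021685Z.rotM_in_mem`, `MP021685Z.rotM_out_mem` in
`Pool/Agent/Lib/MP_021685_agZ/Rot.lean` (the matrix identities there can be copied; only the
memberships change: `Hm_tsum`, `Hm_mul`, `Hm_rei` with `sm_assoc`, `sm_em_left`, `sm_em_right`,
`Hm_one`, `evI_mem'`, `coevI_mem'`, `rv_rv`).

`rotL`: `F : V^a → V^r ⊗ V^b`; `rotL B F = (ev_{rv r, r} ⊗ 1_b) ∘ (1_{rv r} ⊗ F)`.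
`rotR`: `G : V^{rv r} ⊗ V^a → V^b`; `rotR B G = (1_r ⊗ G) ∘ (coev_{r, rv r} ⊗ 1_a)`.
`rotLr`: `F : V^a → V^b ⊗ V^r`; `rotLr B F = (1_b ⊗ ev_{r, rv r}) ∘ (F ⊗ 1_{rv r})`.
`rotRr`: `G : V^a ⊗ V^{rv r} → V^b`; `rotRr B G = (G ⊗ 1_r) ∘ (1_a ⊗ coev_{rv r, r})`.
-/

set_option autoImplicit false
set_option linter.unusedSectionVars false

namespace MP021685Y

open Matrix MP021685Z

variable {k : Type*} [Field k] {ι : Type} [Fintype ι] [DecidableEq ι]

/-- Rotation of the output slots `R` on the right to the input. -/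
def rotLr (B : Matrix ι ι k) {R I J : Type} [Fintype R] [DecidableEq R]
    (F : Matrix ((J ⊕ R) → ι) (I → ι) k) : Matrix (J → ι) ((I ⊕ R) → ι) k :=
  fun y z => ∑ s : R → ι, (∏ i, B (s i) (z (Sum.inr i))) * F (Sum.elim y s) (z ∘ Sum.inl)

/-- The inverse rotation. -/
noncomputable def rotRr (B : Matrix ι ι k) {R I J : Type} [Fintype R] [DecidableEq R]
    (G : Matrix (J → ι) ((I ⊕ R) → ι) k) : Matrix ((J ⊕ R) → ι) (I → ι) k :=
  fun z y => ∑ t : R → ι, (∏ i, B⁻¹ (t i) (z (Sum.inr i))) * G (z ∘ Sum.inl) (Sum.elim y t)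


variable {odd : ι → Bool} {B : Matrix ι ι k} {C : ∀ m n : ℕ, Submodule k (Mor k ι m n)}

theorem RotMr_em {n : ℕ} {I : Type} (a : Fin n ≃ I) :
    a.trans (Equiv.sumEmpty I Empty).symm = (finCongr (Nat.add_zero n).symm).trans (sm a em) := by
  have h := sm_em_right a
  ext i : 1
  have h2 := congrArg (fun e => e i) h
  simp only [Equiv.trans_apply] at h2 ⊢
  rw [Equiv.symm_apply_eq, ← h2]
  rfl

theorem RotMr_in_eq {R I J : Type} [Fintype R] [Fintype I] [Fintype J]
    [DecidableEq R] [DecidableEq I] [DecidableEq J]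
    (B : Matrix ι ι k) (F : Matrix ((J ⊕ R) → ι) (I → ι) k) :
    rotLr B F = rei (Equiv.sumAssoc J R R) (Equiv.sumEmpty J Empty).symm
      (MP021685Z.tsum 1 (evI B R)) * MP021685Z.tsum F 1 := by
  ext y z
  refine Eq.trans ?_ (Matrix.mul_apply).symm
  apply Fintype.sum_of_injective (fun s : R → ι => Sum.elim (Sum.elim y s) (z ∘ Sum.inr))
  · intro s s' hss
    have := congrArg (fun f : (J ⊕ R) ⊕ R → ι => fun i : R => f (Sum.inl (Sum.inr i))) hss
    simpa using this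
  · intro x hx
    simp only [rei, MP021685Z.tsum, Matrix.one_apply]
    by_cases h5 : x ∘ Sum.inr = z ∘ Sum.inr
    · by_cases h6 : y = x ∘ Sum.inl ∘ Sum.inl
      · exfalso
        apply hx
        refine ⟨x ∘ Sum.inl ∘ Sum.inr, ?_⟩
        funext i
        rcases i with (i | i) | i
        · exact congrFun h6 i
        · rfl
        · exact (congrFun h5 i).symm
      · have h7 : ¬ ((y ∘ (Equiv.sumEmpty J Empty).symm.symm) ∘ Sum.inl =
            (x ∘ (Equiv.sumAssoc J R R).symm) ∘ Sum.inl) := by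
          intro h8
          apply h6
          exact h8
        rw [if_neg h7]
        simp
    · rw [if_neg h5]
      simp
  · intro s
    simp only [rei, MP021685Z.tsum, Matrix.one_apply]
    have h5 : (y ∘ (Equiv.sumEmpty J Empty).symm.symm) ∘ Sum.inl =
        ((Sum.elim (Sum.elim y s) (z ∘ Sum.inr)) ∘ (Equiv.sumAssoc J R R).symm) ∘
          Sum.inl := rfl
    have h6 : (Sum.elim (Sum.elim y s) (z ∘ Sum.inr)) ∘ Sum.inr = z ∘ Sum.inr := rfl
    rw [if_pos h5, if_pos h6, mul_one, one_mul]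
    rfl

theorem RotMr_out_eq {R I J : Type} [Fintype R] [Fintype I] [Fintype J]
    [DecidableEq R] [DecidableEq I] [DecidableEq J]
    (B : Matrix ι ι k) (G : Matrix (J → ι) ((I ⊕ R) → ι) k) :
    rotRr B G = MP021685Z.tsum G 1 * rei (Equiv.sumEmpty I Empty).symm
      (Equiv.sumAssoc I R R) (MP021685Z.tsum 1 (coevI B R)) := by
  ext z y
  refine Eq.trans ?_ (Matrix.mul_apply).symm
  apply Fintype.sum_of_injective (fun t : R → ι => Sum.elim (Sum.elim y t) (z ∘ Sum.inr))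
  · intro s s' hss
    have := congrArg (fun f : (I ⊕ R) ⊕ R → ι => fun i : R => f (Sum.inl (Sum.inr i))) hss
    simpa using this
  · intro x hx
    simp only [rei, MP021685Z.tsum, Matrix.one_apply]
    by_cases h5 : z ∘ Sum.inr = x ∘ Sum.inr
    · by_cases h6 : x ∘ Sum.inl ∘ Sum.inl = y
      · exfalso
        apply hx
        refine ⟨x ∘ Sum.inl ∘ Sum.inr, ?_⟩
        funext i
        rcases i with (i | i) | i
        · exact (congrFun h6 i).symm
        · rfl
        · exact congrFun h5 i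
      · have h7 : ¬ ((x ∘ (Equiv.sumAssoc I R R).symm) ∘ Sum.inl =
            (y ∘ (Equiv.sumEmpty I Empty).symm.symm) ∘ Sum.inl) := by
          intro h8
          apply h6
          exact h8
        rw [if_neg h7]
        simp
    · rw [if_neg h5]
      simp
  · intro t
    simp only [rei, MP021685Z.tsum, Matrix.one_apply]
    have h5 : ((Sum.elim (Sum.elim y t) (z ∘ Sum.inr)) ∘ (Equiv.sumAssoc I R R).symm) ∘
          Sum.inl = (y ∘ (Equiv.sumEmpty I Empty).symm.symm) ∘ Sum.inl := rfl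
    have h6 : z ∘ Sum.inr = (Sum.elim (Sum.elim y t) (z ∘ Sum.inr)) ∘ Sum.inr := rfl
    rw [if_pos h5, if_pos h6, mul_one, one_mul, mul_comm]
    rfl

theorem rotLr_mem (hC : IsSuperFamily odd B C) {l m n : ℕ} {R I J : Type} [Fintype R]
    [Fintype I] [Fintype J] [DecidableEq R] [DecidableEq I] [DecidableEq J] {r : Fin l ≃ R}
    {a : Fin m ≃ I} {b : Fin n ≃ J} {F : Matrix ((J ⊕ R) → ι) (I → ι) k}
    (hF : F ∈ Hm C a (sm b r)) : rotLr B F ∈ Hm C (sm a (rv r)) b := by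
  have h1 := Hm_tsum hC hF (Hm_one hC (rv r))
  have h0 : evI B R ∈ Hm C (sm r (rv r)) em := by
    have h := evI_mem' hC (rv r)
    rwa [rv_rv] at h
  have h2 : rei (Equiv.sumAssoc J R R) (Equiv.sumEmpty J Empty).symm
      (MP021685Z.tsum (1 : Matrix (J → ι) (J → ι) k) (evI B R)) ∈
      Hm C (sm (sm b r) (rv r)) b :=
    Hm_rei (Nat.add_assoc n l l) (Nat.add_zero n).symm _ _ (sm_assoc b r (rv r))
      (RotMr_em b) (Hm_tsum hC (Hm_one hC b) h0)
  have h3 := Hm_mul hC h2 h1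
  rw [RotMr_in_eq]
  exact h3

theorem rotRr_mem (hC : IsSuperFamily odd B C) {l m n : ℕ} {R I J : Type} [Fintype R]
    [Fintype I] [Fintype J] [DecidableEq R] [DecidableEq I] [DecidableEq J] {r : Fin l ≃ R}
    {a : Fin m ≃ I} {b : Fin n ≃ J} {G : Matrix (J → ι) ((I ⊕ R) → ι) k}
    (hG : G ∈ Hm C (sm a (rv r)) b) : rotRr B G ∈ Hm C a (sm b r) := by
  have h1 := Hm_tsum hC hG (Hm_one hC r)
  have h0 : coevI B R ∈ Hm C em (sm (rv r) r) := by
    have h := coevI_mem' hC (rv r)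
    rwa [rv_rv] at h
  have h2 : rei (Equiv.sumEmpty I Empty).symm (Equiv.sumAssoc I R R)
      (MP021685Z.tsum (1 : Matrix (I → ι) (I → ι) k) (coevI B R)) ∈
      Hm C a (sm (sm a (rv r)) r) :=
    Hm_rei (Nat.add_zero m).symm (Nat.add_assoc m l l) _ _ (RotMr_em a)
      (sm_assoc a (rv r) r) (Hm_tsum hC (Hm_one hC a) h0)
  have h3 := Hm_mul hC h1 h2
  rw [RotMr_out_eq]
  exact h3

end MP021685Y
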