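import Pool.Agent.Lib.MP_021685_agY.RotM
import Pool.Agent.Lib.MP_021685_agY.RotMr

/-!
# Planar rotations: inverse, supertrace, idempotents

LEAF. Guide: `MP021685Z.rotR_rotL`, `rotL_rotR`, `trace_rot` (`agZ/RotA.lean`), `PrkRot_sand`
(`agZ/PrkRot.lean`).

`strace_rot`: with `κ x = ∏ i, sgn (x i)` one has for all `r s : R → ι`
`κ(r) ∏ B (r i) (s i) = ∏ B (s i) (r i)` (from `Hm_even`/`even_mem` of `formMor B` and `symm`: if
`B i j ≠ 0` then `odd i = odd j`, so the sign in `symm` is `sgn i`; lemma `sgn_mul_B`), so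
`∑_r κ(r) B⁻¹(r, t) B(r, s) = ∑_r B(s, r) B⁻¹(r, t) = δ`. Then as in `trace_rot`.
`strace_rotr`: `κ(r) B(s, r) = B(r, s)` by the same lemma, `∑_r B⁻¹(t, r) B(r, s) = δ`.
-/

set_option autoImplicit false
set_option linter.unusedSectionVars false

namespace MP021685Y

open Matrix MP021685Z

variable {k : Type*} [Field k] {ι : Type} [Fintype ι] [DecidableEq ι]

variable {odd : ι → Bool} {B : Matrix ι ι k} {C : ∀ m n : ℕ, Submodule k (Mor k ι m n)}

theorem RotS_sum {R J : Type} [Fintype R] [Fintype J] [DecidableEq R] [DecidableEq J]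
    (f : ((R ⊕ J) → ι) → k) :
    ∑ u : (R ⊕ J) → ι, f u = ∑ p : R → ι, ∑ q : J → ι, f (Sum.elim p q) := by
  rw [← (Equiv.sumArrowEquivProdArrow R J ι).symm.sum_comp f, Fintype.sum_prod_type]
  rfl

theorem RotS_sign {R J : Type} [Fintype R] [Fintype J] (p : R → ι) (q : J → ι) :
    ∏ i, sgn k odd (Sum.elim p q i) = (∏ i, sgn k odd (p i)) * ∏ i, sgn k odd (q i) := by
  rw [Fintype.prod_sum_type]
  rfl

theorem RotS_Kd {I : Type} [Fintype I] [DecidableEq I] {J : Type} (M : Matrix (I → ι) (J → ι) k)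
    (x : I → ι) (y : J → ι) : ∑ j, Kd k odd I x j * M j y = (∏ i, sgn k odd (x i)) * M x y := by
  unfold Kd
  rw [← Matrix.mul_apply, Matrix.diagonal_mul]

/-- `sgn i * B i j = B j i` and `sgn j * B i j = B j i`. -/
theorem sgn_mul_B [CharZero k] (hC : IsSuperFamily odd B C) (i j : ι) :
    sgn k odd i * B i j = B j i ∧ sgn k odd j * B i j = B j i := by
  have he := hC.even_mem 2 0 (formMor B) hC.form_mem
  have hs := hC.symm i j
  by_cases h0 : B i j = 0
  · rw [h0, mul_zero] at hs
    rw [h0, hs, mul_zero, mul_zero]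
    exact ⟨rfl, rfl⟩
  · have h1 := he (fun l => l.elim0) ![i, j] (by
      show B (![i, j] 0) (![i, j] 1) ≠ 0
      exact h0)
    rw [Fin.prod_univ_zero, Fin.prod_univ_two] at h1
    have h2 : (1 : k) = sgn k odd i * sgn k odd j := h1
    have hne : (1 : k) ≠ -1 := by
      intro h3
      have h4 : (2 : k) = 0 := by linear_combination h3
      exact two_ne_zero h4
    unfold sgn at h2 ⊢
    rw [hs]
    cases hi : odd i <;> cases hj : odd j
    · simp
    · rw [hi, hj] at h2
      exact absurd (by simpa using h2) hne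
    · rw [hi, hj] at h2
      exact absurd (by simpa using h2) hne
    · simp

theorem RotS_kap [CharZero k] (hC : IsSuperFamily odd B C) {R : Type} [Fintype R] (r s : R → ι) :
    (∏ i, sgn k odd (r i)) * ∏ i, B (r i) (s i) = ∏ i, B (s i) (r i) := by
  rw [← Finset.prod_mul_distrib]
  exact Finset.prod_congr rfl fun i _ => (sgn_mul_B hC (r i) (s i)).1

theorem RotS_kapr [CharZero k] (hC : IsSuperFamily odd B C) {R : Type} [Fintype R] (s r : R → ι) :
    (∏ i, sgn k odd (r i)) * ∏ i, B (s i) (r i) = ∏ i, B (r i) (s i) := by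
  rw [← Finset.prod_mul_distrib]
  exact Finset.prod_congr rfl fun i _ => (sgn_mul_B hC (s i) (r i)).2

theorem rotRr_rotLr (hB : IsUnit B.det) {R I J : Type} [Fintype R] [DecidableEq R]
    (F : Matrix ((J ⊕ R) → ι) (I → ι) k) : rotRr B (rotLr B F) = F := by
  ext z y
  simp only [rotRr, rotLr]
  have h := formR_mul_inv hB R
  calc ∑ t : R → ι, (∏ i, B⁻¹ (t i) (z (Sum.inr i))) *
        ∑ s : R → ι, (∏ i, B (s i) (Sum.elim y t (Sum.inr i))) *
          F (Sum.elim (z ∘ Sum.inl) s) (Sum.elim y t ∘ Sum.inl)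
      = ∑ s : R → ι, (∑ t : R → ι, (∏ i, B (s i) (t i)) * ∏ i, B⁻¹ (t i) (z (Sum.inr i))) *
          F (Sum.elim (z ∘ Sum.inl) s) y := by
        simp only [Finset.mul_sum, Finset.sum_mul]
        rw [Finset.sum_comm]
        refine Finset.sum_congr rfl fun s _ => Finset.sum_congr rfl fun t _ => ?_
        rw [Sum.elim_comp_inl]
        simp only [Sum.elim_inr]
        ring
    _ = ∑ s : R → ι, (if s = z ∘ Sum.inr then 1 else 0) *
          F (Sum.elim (z ∘ Sum.inl) s) y := by
        refine Finset.sum_congr rfl fun s _ => ?_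
        congr 1
        exact congrFun (congrFun h s) (z ∘ Sum.inr)
    _ = F z y := by
        simp

theorem rotLr_rotRr (hB : IsUnit B.det) {R I J : Type} [Fintype R] [DecidableEq R]
    (G : Matrix (J → ι) ((I ⊕ R) → ι) k) : rotLr B (rotRr B G) = G := by
  ext y z
  simp only [rotRr, rotLr]
  have h := formR_inv_mul hB R
  calc ∑ s : R → ι, (∏ i, B (s i) (z (Sum.inr i))) *
        ∑ t : R → ι, (∏ i, B⁻¹ (t i) (Sum.elim y s (Sum.inr i))) *
          G (Sum.elim y s ∘ Sum.inl) (Sum.elim (z ∘ Sum.inl) t)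
      = ∑ t : R → ι, (∑ s : R → ι, (∏ i, B⁻¹ (t i) (s i)) * ∏ i, B (s i) (z (Sum.inr i))) *
          G y (Sum.elim (z ∘ Sum.inl) t) := by
        simp only [Finset.mul_sum, Finset.sum_mul]
        rw [Finset.sum_comm]
        refine Finset.sum_congr rfl fun s _ => Finset.sum_congr rfl fun t _ => ?_
        rw [Sum.elim_comp_inl]
        simp only [Sum.elim_inr]
        ring
    _ = ∑ t : R → ι, (if t = z ∘ Sum.inr then 1 else 0) *
          G y (Sum.elim (z ∘ Sum.inl) t) := by
        refine Finset.sum_congr rfl fun t _ => ?_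
        congr 1
        exact congrFun (congrFun h t) (z ∘ Sum.inr)
    _ = G y z := by
        simp

theorem strace_rot [CharZero k] (hC : IsSuperFamily odd B C) {R I J : Type} [Fintype R]
    [Fintype I] [Fintype J] [DecidableEq R] [DecidableEq I] [DecidableEq J]
    (F : Matrix ((R ⊕ J) → ι) (I → ι) k) (G : Matrix (I → ι) ((R ⊕ J) → ι) k) :
    trace (Kd k odd (R ⊕ I) * rotR B G * rotL B F) = trace (Kd k odd I * G * F) := by
  have h := formR_mul_inv hC.nondeg R
  simp only [Matrix.trace, Matrix.diag_apply, Matrix.mul_apply, RotS_Kd]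
  rw [RotS_sum]
  simp only [rotR, rotL, Sum.elim_inl, Sum.elim_comp_inr, RotS_sign]
  calc ∑ r : R → ι, ∑ x : I → ι, ∑ y : J → ι,
        ((∏ i, sgn k odd (r i)) * (∏ i, sgn k odd (x i)) *
          ∑ t : R → ι, (∏ i, B⁻¹ (r i) (t i)) * G x (Sum.elim t y)) *
          ∑ s : R → ι, (∏ i, B (r i) (s i)) * F (Sum.elim s y) x
      = ∑ x : I → ι, ∑ y : J → ι, ∑ t : R → ι, ∑ s : R → ι,
          (∑ r : R → ι, (∏ i, B (s i) (r i)) * ∏ i, B⁻¹ (r i) (t i)) *
            ((∏ i, sgn k odd (x i)) * G x (Sum.elim t y) * F (Sum.elim s y) x) := by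
        rw [Finset.sum_comm]
        refine Finset.sum_congr rfl fun x _ => ?_
        rw [Finset.sum_comm]
        refine Finset.sum_congr rfl fun y _ => ?_
        simp only [Finset.mul_sum, Finset.sum_mul]
        rw [Finset.sum_comm]
        rw [Finset.sum_comm]
        have e1 : ∀ r : R → ι, ∑ s : R → ι, ∑ t : R → ι,
            (∏ i, sgn k odd (r i)) * (∏ i, sgn k odd (x i)) *
              ((∏ i, B⁻¹ (r i) (t i)) * G x (Sum.elim t y)) *
                ((∏ i, B (r i) (s i)) * F (Sum.elim s y) x) =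
            ∑ t : R → ι, ∑ s : R → ι, (∏ i, B (s i) (r i)) * (∏ i, B⁻¹ (r i) (t i)) *
              ((∏ i, sgn k odd (x i)) * G x (Sum.elim t y) * F (Sum.elim s y) x) := by
          intro r
          rw [Finset.sum_comm]
          refine Finset.sum_congr rfl fun t _ => Finset.sum_congr rfl fun s _ => ?_
          rw [← RotS_kap hC r s]
          ring
        rw [Finset.sum_congr rfl fun r _ => e1 r, Finset.sum_comm]
        refine Finset.sum_congr rfl fun t _ => ?_
        rw [Finset.sum_comm]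
    _ = ∑ x : I → ι, ∑ y : J → ι, ∑ t : R → ι, ∑ s : R → ι,
          (if s = t then 1 else 0) *
            ((∏ i, sgn k odd (x i)) * G x (Sum.elim t y) * F (Sum.elim s y) x) := by
        refine Finset.sum_congr rfl fun x _ => Finset.sum_congr rfl fun y _ =>
          Finset.sum_congr rfl fun t _ => Finset.sum_congr rfl fun s _ => ?_
        congr 1
        exact congrFun (congrFun h s) t
    _ = _ := by
        simp only [ite_mul, one_mul, zero_mul, Finset.sum_ite_eq', Finset.mem_univ, if_true]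
        refine Finset.sum_congr rfl fun x _ => ?_
        rw [RotS_sum, Finset.sum_comm]

theorem strace_rotr [CharZero k] (hC : IsSuperFamily odd B C) {R I J : Type} [Fintype R]
    [Fintype I] [Fintype J] [DecidableEq R] [DecidableEq I] [DecidableEq J]
    (F : Matrix ((J ⊕ R) → ι) (I → ι) k) (G : Matrix (I → ι) ((J ⊕ R) → ι) k) :
    trace (Kd k odd (I ⊕ R) * rotRr B G * rotLr B F) = trace (Kd k odd I * G * F) := by
  have h := formR_inv_mul hC.nondeg R
  simp only [Matrix.trace, Matrix.diag_apply, Matrix.mul_apply, RotS_Kd]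
  rw [RotS_sum]
  simp only [rotRr, rotLr, Sum.elim_inr, Sum.elim_comp_inl, RotS_sign]
  calc ∑ x : I → ι, ∑ r : R → ι, ∑ y : J → ι,
        ((∏ i, sgn k odd (x i)) * (∏ i, sgn k odd (r i)) *
          ∑ t : R → ι, (∏ i, B⁻¹ (t i) (r i)) * G x (Sum.elim y t)) *
          ∑ s : R → ι, (∏ i, B (s i) (r i)) * F (Sum.elim y s) x
      = ∑ x : I → ι, ∑ y : J → ι, ∑ t : R → ι, ∑ s : R → ι,
          (∑ r : R → ι, (∏ i, B⁻¹ (t i) (r i)) * ∏ i, B (r i) (s i)) *
            ((∏ i, sgn k odd (x i)) * G x (Sum.elim y t) * F (Sum.elim y s) x) := by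
        refine Finset.sum_congr rfl fun x _ => ?_
        rw [Finset.sum_comm]
        refine Finset.sum_congr rfl fun y _ => ?_
        simp only [Finset.mul_sum, Finset.sum_mul]
        have e1 : ∀ r : R → ι, ∑ s : R → ι, ∑ t : R → ι,
            (∏ i, sgn k odd (x i)) * (∏ i, sgn k odd (r i)) *
              ((∏ i, B⁻¹ (t i) (r i)) * G x (Sum.elim y t)) *
                ((∏ i, B (s i) (r i)) * F (Sum.elim y s) x) =
            ∑ t : R → ι, ∑ s : R → ι, (∏ i, B⁻¹ (t i) (r i)) * (∏ i, B (r i) (s i)) *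
              ((∏ i, sgn k odd (x i)) * G x (Sum.elim y t) * F (Sum.elim y s) x) := by
          intro r
          rw [Finset.sum_comm]
          refine Finset.sum_congr rfl fun t _ => Finset.sum_congr rfl fun s _ => ?_
          rw [← RotS_kapr hC s r]
          ring
        rw [Finset.sum_congr rfl fun r _ => e1 r, Finset.sum_comm]
        refine Finset.sum_congr rfl fun t _ => ?_
        rw [Finset.sum_comm]
    _ = ∑ x : I → ι, ∑ y : J → ι, ∑ t : R → ι, ∑ s : R → ι,
          (if t = s then 1 else 0) *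
            ((∏ i, sgn k odd (x i)) * G x (Sum.elim y t) * F (Sum.elim y s) x) := by
        refine Finset.sum_congr rfl fun x _ => Finset.sum_congr rfl fun y _ =>
          Finset.sum_congr rfl fun t _ => Finset.sum_congr rfl fun s _ => ?_
        congr 1
        exact congrFun (congrFun h t) s
    _ = _ := by
        simp only [ite_mul, one_mul, zero_mul, Finset.sum_ite_eq, Finset.mem_univ, if_true]
        refine Finset.sum_congr rfl fun x _ => ?_
        rw [RotS_sum]

/-- `rotLr` of `F Y`. -/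
theorem rotLr_mul {R I J : Type} [Fintype R] [Fintype I] [DecidableEq R] [DecidableEq I]
    (Y : Matrix (I → ι) (I → ι) k) (F : Matrix ((J ⊕ R) → ι) (I → ι) k) :
    rotLr B (F * Y) = rotLr B F * tsum Y (1 : Matrix (R → ι) (R → ι) k) := by
  ext y z
  simp only [Matrix.mul_apply, RotS_sum]
  simp only [rotLr, MP021685Z.tsum, Sum.elim_inr, Sum.elim_comp_inl, Sum.elim_comp_inr,
    Matrix.one_apply, Matrix.mul_apply]
  simp only [mul_ite, mul_one, mul_zero, Finset.sum_ite_eq', Finset.mem_univ, if_true]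
  simp only [Finset.mul_sum, Finset.sum_mul]
  rw [Finset.sum_comm]
  refine Finset.sum_congr rfl fun v _ => Finset.sum_congr rfl fun s _ => ?_
  simp only [Function.comp_apply]
  ring

end MP021685Y
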