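import Pool.Agent.Lib.MP_021685_agY.Grow
import Pool.Agent.Lib.MP_021685_agY.RotS
import Pool.Agent.Lib.MP_021685_agZ.Inj

/-!
# The dimension of the stable spaces grows

`growthU`: `exists_monMor` and `mon_rank` for `S = C m m`; `finrank (C m m) ≤ finrank (U (2 m))`,
because a planar rotation sends `C m m` injectively to `C 0 (m + m)`.
-/

set_option autoImplicit false
set_option linter.unusedSectionVars false

namespace MP021685Y

open Matrix MP021685Z

variable {k : Type*} [Field k] {ι : Type} [Fintype ι] [DecidableEq ι]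

variable {odd : ι → Bool} {B : Matrix ι ι k} {C : ∀ m n : ℕ, Submodule k (Mor k ι m n)}
  {U : ∀ n : ℕ, Submodule k ((Fin n → ι) → k)}

/-- The enumeration of the output slots. -/
private def GrowU_sm (m : ℕ) : Fin (m + m) ≃ Fin m ⊕ Fin m :=
  sm (rv (Equiv.refl (Fin m))) (Equiv.refl (Fin m))

/-- The rotation of all input slots, as a linear map. -/
private noncomputable def GrowU_rot (B : Matrix ι ι k) (m : ℕ) :
    Mor k ι m m →ₗ[k] ((Fin (m + m) → ι) → k) where
  toFun F := fun x => rotR B (rei (Equiv.sumEmpty (Fin m) Empty) (Equiv.refl (Fin m)) F)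
    (x ∘ (GrowU_sm m).symm) Empty.elim
  map_add' F G := by
    funext x
    simp only [rotR, rei, Matrix.add_apply, Pi.add_apply, mul_add, Finset.sum_add_distrib]
  map_smul' c F := by
    funext x
    simp only [rotR, rei, Matrix.smul_apply, Pi.smul_apply, smul_eq_mul, Finset.mul_sum,
      RingHom.id_apply]
    exact Finset.sum_congr rfl fun t _ => by ring

private theorem GrowU_rot_inj (hB : IsUnit B.det) (m : ℕ) : Function.Injective (GrowU_rot B m) := by
  intro F G hFG
  have h1 : rotR B (rei (Equiv.sumEmpty (Fin m) Empty) (Equiv.refl (Fin m)) F) =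
      rotR B (rei (Equiv.sumEmpty (Fin m) Empty) (Equiv.refl (Fin m)) G) := by
    funext z y
    have h2 := congrFun hFG (z ∘ GrowU_sm m)
    have h3 : (z ∘ GrowU_sm m) ∘ (GrowU_sm m).symm = z := by
      funext i
      simp
    have h4 : y = Empty.elim := Subsingleton.elim _ _
    change rotR B (rei (Equiv.sumEmpty (Fin m) Empty) (Equiv.refl (Fin m)) F)
      ((z ∘ GrowU_sm m) ∘ (GrowU_sm m).symm) Empty.elim =
      rotR B (rei (Equiv.sumEmpty (Fin m) Empty) (Equiv.refl (Fin m)) G)
      ((z ∘ GrowU_sm m) ∘ (GrowU_sm m).symm) Empty.elim at h2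
    rw [h3] at h2
    rw [h4]
    exact h2
  have h2 := congrArg (rotL B) h1
  rw [rotL_rotR hB, rotL_rotR hB] at h2
  funext x y
  have h3 := congrFun (congrFun h2 x) (y ∘ Equiv.sumEmpty (Fin m) Empty)
  have h4 : (y ∘ Equiv.sumEmpty (Fin m) Empty) ∘ (Equiv.sumEmpty (Fin m) Empty).symm = y := by
    funext i
    simp
  change F (x ∘ (Equiv.refl (Fin m)).symm)
    ((y ∘ Equiv.sumEmpty (Fin m) Empty) ∘ (Equiv.sumEmpty (Fin m) Empty).symm) =
    G (x ∘ (Equiv.refl (Fin m)).symm)
    ((y ∘ Equiv.sumEmpty (Fin m) Empty) ∘ (Equiv.sumEmpty (Fin m) Empty).symm) at h3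
  rw [h4] at h3
  exact h3

private theorem GrowU_rot_mem (hC : IsSuperFamily odd B C) (m : ℕ) {F : Mor k ι m m}
    (hF : F ∈ C m m) : GrowU_rot B m F ∈ classes C (m + m) := by
  have h1 : rei (Equiv.sumEmpty (Fin m) Empty) (Equiv.refl (Fin m)) F ∈
      Hm C (sm (rv (rv (Equiv.refl (Fin m)))) em) (Equiv.refl (Fin m)) := by
    refine Hm_rei (C := C) (a := Equiv.refl (Fin m)) (b := Equiv.refl (Fin m)) (m' := m + 0) (n' := m)
      rfl rfl (Equiv.sumEmpty (Fin m) Empty) (Equiv.refl (Fin m)) ?_ ?_ hF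
    · rw [rv_rv, sm_em_right]
      rfl
    · rfl
  have h2 := rotR_mem' hC h1
  have h3 : rei em (GrowU_sm m) (rotR B (rei (Equiv.sumEmpty (Fin m) Empty) (Equiv.refl (Fin m)) F)) ∈
      C 0 (m + m) := h2
  have h4 : (fun x _ => GrowU_rot B m F x : Mor k ι 0 (m + m)) =
      rei em (GrowU_sm m) (rotR B (rei (Equiv.sumEmpty (Fin m) Empty) (Equiv.refl (Fin m)) F)) := by
    funext x y
    change rotR B (rei (Equiv.sumEmpty (Fin m) Empty) (Equiv.refl (Fin m)) F)
      (x ∘ (GrowU_sm m).symm) Empty.elim = rotR B (rei (Equiv.sumEmpty (Fin m) Empty)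
        (Equiv.refl (Fin m)) F) (x ∘ (GrowU_sm m).symm) (y ∘ em.symm)
    congr 1
    exact Subsingleton.elim _ _
  change (fun x _ => GrowU_rot B m F x : Mor k ι 0 (m + m)) ∈ C 0 (m + m)
  rw [h4]
  exact h3

theorem growthU [CharZero k] (hC : IsSuperFamily odd B C) (hU : IsStable C U) (m : ℕ) :
    (Fintype.card ι) ^ (2 * m) ≤
      Module.finrank k (U (2 * m)) * (m + 1) ^ ((Fintype.card ι) ^ 2) := by
  choose ε hε using exists_monMor hC m
  have h1 := mon_rank k ι m (C m m) ε hε
  have h2 : Module.finrank k (C m m) ≤ Module.finrank k (U (m + m)) := by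
    let f : C m m →ₗ[k] U (m + m) := ((GrowU_rot B m).comp (C m m).subtype).codRestrict (U (m + m))
      fun F => classes_le hU (m + m) (GrowU_rot_mem hC m F.2)
    refine LinearMap.finrank_le_finrank_of_injective (f := f) ?_
    intro F G hFG
    apply Subtype.ext
    exact GrowU_rot_inj hC.nondeg m (congrArg Subtype.val hFG)
  rw [← two_mul] at h2
  exact h1.trans (Nat.mul_le_mul_right _ h2)

theorem U_mono (hC : IsSuperFamily odd B C) (hU : IsStable C U) (n : ℕ) :
    Module.finrank k (U n) ≤ Module.finrank k (U (n + 1)) := by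
  obtain ⟨e, he, e', he', hee⟩ := hC.unit_mem
  have hi : (tens (1 : Mor k ι n n) e : Mor k ι n (n + 1)) ∈ C n (n + 1) :=
    hC.tens_mem n n 0 1 _ _ (hC.one_mem n) he
  have hc : (e' * e) default default ≠ 0 := by
    intro h0
    apply hee
    ext x y
    rw [Subsingleton.elim x default, Subsingleton.elim y default, h0]
    rfl
  have hba := tens_one_mul n e e'
  let f : U n →ₗ[k] U (n + 1) :=
    ((Matrix.mulVecLin (tens (1 : Mor k ι n n) e : Mor k ι n (n + 1))).comp (U n).subtype).codRestrict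
      (U (n + 1)) fun u => hU.map_mem n (n + 1) _ _ hi u.2
  refine LinearMap.finrank_le_finrank_of_injective (f := f) ?_
  intro u v huv
  have h1 : (tens (1 : Mor k ι n n) e : Mor k ι n (n + 1)) *ᵥ (u : (Fin n → ι) → k) =
      (tens (1 : Mor k ι n n) e : Mor k ι n (n + 1)) *ᵥ (v : (Fin n → ι) → k) :=
    congrArg Subtype.val huv
  have h2 := congrArg (fun w => (tens (1 : Mor k ι n n) e' : Mor k ι (n + 1) n) *ᵥ w) h1
  simp only [mulVec_mulVec] at h2
  rw [hba, smul_mulVec, smul_mulVec, one_mulVec, one_mulVec] at h2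
  apply Subtype.ext
  exact smul_right_injective _ hc h2

end MP021685Y
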