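import Pool.Agent.Lib.MP_021685_agY.Hm

/-!
# The nested form and the nested tensor are in the family

LEAF. Guide: `MP021685Z.evI_mem`, `MP021685Z.coevI_mem` in `Pool/Agent/Lib/MP_021685_agZ/Hom.lean`.
Proof for `evI`: induction on `n`. `I ≃ Fin n`; relabelling (`Hm_rei`) reduces to
`a = Equiv.refl (Fin n)` (if `a'.trans e = a` then `(rv a').trans e = rv a`).
`n = 0`: the map is the identity of `V^{⊗0}` up to relabelling.
`n + 1`: `Fin (n + 1) ≃ Fin n ⊕ Fin 1` respects the enumerations; for `I ⊕ J` the word of the input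
slots of the nested form is `rv J, rv I, I, J`, and
`evI B (I ⊕ J) = evI B J ∘ (1_{rv J} ⊗ evI B I ⊗ 1_J)` up to relabelling of associativity and `Empty`
(`sm_assoc`, `sm_em_left`, `rv_sm`); all of this is planar, no permutation of slots is used.
For `I = Fin 1` it is `formMor B` (slots `0`, `1`).  The same for `coevI` with `coformMor B`.
-/

set_option autoImplicit false
set_option linter.unusedSectionVars false

namespace MP021685Y

open Matrix MP021685Z

variable {k : Type*} [Field k] {ι : Type} [Fintype ι] [DecidableEq ι]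

variable {odd : ι → Bool} {B : Matrix ι ι k} {C : ∀ m n : ℕ, Submodule k (Mor k ι m n)}

private theorem Ev_cast_in {m m' n : ℕ} (h : m = m') {f : Mor k ι m n} (hf : f ∈ C m n) :
    (fun x y => f x (y ∘ Fin.cast h) : Mor k ι m' n) ∈ C m' n := by
  subst h
  exact hf

private theorem Ev_cast_out {m n n' : ℕ} (h : n = n') {f : Mor k ι m n} (hf : f ∈ C m n) :
    (fun x y => f (x ∘ Fin.cast h) y : Mor k ι m n') ∈ C m n' := by
  subst h
  exact hf

/-- The nested form on `Fin (n + n)`. -/
private def evN (B : Matrix ι ι k) (n : ℕ) : Mor k ι (n + n) 0 :=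
  fun _ y => ∏ j : Fin n, B (y (Fin.castAdd n j.rev)) (y (Fin.natAdd n j))

/-- The nested tensor on `Fin (n + n)`. -/
private noncomputable def coevN (B : Matrix ι ι k) (n : ℕ) : Mor k ι 0 (n + n) :=
  fun x _ => ∏ j : Fin n, B⁻¹ (x (Fin.castAdd n j)) (x (Fin.natAdd n j.rev))

private theorem one_app (n : ℕ) (x y : Fin n → ι) :
    (1 : Mor k ι n n) x y = if x = y then 1 else 0 := Matrix.one_apply

private theorem Ev_fun1 {x y : Fin 1 → ι} : x = y ↔ x 0 = y 0 := by
  constructor
  · rintro rfl
    rfl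
  · intro h
    funext i
    rw [Subsingleton.elim i 0]
    exact h

private theorem Ev_outer_in {m : ℕ} (f : Mor k ι m 0) (x : Fin 0 → ι)
    (y : Fin (1 + m + 1) → ι) :
    ((formMor B : Mor k ι (1 + 0 + 1) 0) * tens (tens (1 : Mor k ι 1 1) f) (1 : Mor k ι 1 1)) x y =
      B (y (Fin.castAdd 1 (Fin.castAdd m 0))) (y (Fin.natAdd (1 + m) 0)) *
        f x (fun i => y (Fin.castAdd 1 (Fin.natAdd 1 i))) := by
  rw [Matrix.mul_apply]
  rw [Finset.sum_eq_single (![y (Fin.castAdd 1 (Fin.castAdd m 0)), y (Fin.natAdd (1 + m) 0)] :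
    Fin (1 + 0 + 1) → ι)]
  · have hx : (fun i : Fin 0 => (![y (Fin.castAdd 1 (Fin.castAdd m 0)), y (Fin.natAdd (1 + m) 0)] :
      Fin (1 + 0 + 1) → ι) (Fin.castAdd 1 (Fin.natAdd 1 i))) = x := Subsingleton.elim _ _
    have h1 : (1 : Mor k ι 1 1) (fun i => (![y (Fin.castAdd 1 (Fin.castAdd m 0)),
        y (Fin.natAdd (1 + m) 0)] : Fin (1 + 0 + 1) → ι) (Fin.castAdd 1 (Fin.castAdd 0 i)))
        (fun i => y (Fin.castAdd 1 (Fin.castAdd m i))) = 1 := by
      rw [one_app, if_pos]
      rw [Ev_fun1]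
      rfl
    have h2 : (1 : Mor k ι 1 1) (fun i => (![y (Fin.castAdd 1 (Fin.castAdd m 0)),
        y (Fin.natAdd (1 + m) 0)] : Fin (1 + 0 + 1) → ι) (Fin.natAdd (1 + 0) i))
        (fun i => y (Fin.natAdd (1 + m) i)) = 1 := by
      rw [one_app, if_pos]
      rw [Ev_fun1]
      rfl
    simp only [tens]
    rw [hx, h1, h2, one_mul, mul_one]
    rfl
  · intro z _ hz
    simp only [tens, one_app]
    by_cases h4 : (fun i : Fin 1 => z (Fin.castAdd 1 (Fin.castAdd 0 i))) =
        fun i => y (Fin.castAdd 1 (Fin.castAdd m i))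
    · by_cases h5 : (fun i : Fin 1 => z (Fin.natAdd (1 + 0) i)) =
          fun i => y (Fin.natAdd (1 + m) i)
      · exfalso
        apply hz
        rw [Ev_fun1] at h4 h5
        funext i
        have hi := (by decide : ∀ i : Fin (1 + 0 + 1),
          i = Fin.castAdd 1 (Fin.castAdd 0 (0 : Fin 1)) ∨ i = Fin.natAdd (1 + 0) (0 : Fin 1)) i
        rcases hi with rfl | rfl
        · exact h4
        · exact h5
      · rw [if_neg h5]
        simp
    · rw [if_neg h4]
      simp
  · intro h
    exact absurd (Finset.mem_univ _) h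

private theorem Ev_outer_out {m : ℕ} (f : Mor k ι 0 m) (x : Fin (1 + m + 1) → ι)
    (y : Fin 0 → ι) :
    (tens (tens (1 : Mor k ι 1 1) f) (1 : Mor k ι 1 1) * (coformMor B : Mor k ι 0 (1 + 0 + 1))) x y =
      f (fun i => x (Fin.castAdd 1 (Fin.natAdd 1 i))) y *
      B⁻¹ (x (Fin.castAdd 1 (Fin.castAdd m 0))) (x (Fin.natAdd (1 + m) 0)) := by
  rw [Matrix.mul_apply]
  rw [Finset.sum_eq_single (![x (Fin.castAdd 1 (Fin.castAdd m 0)), x (Fin.natAdd (1 + m) 0)] :
    Fin (1 + 0 + 1) → ι)]
  · have hx : (fun i : Fin 0 => (![x (Fin.castAdd 1 (Fin.castAdd m 0)), x (Fin.natAdd (1 + m) 0)] :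
      Fin (1 + 0 + 1) → ι) (Fin.castAdd 1 (Fin.natAdd 1 i))) = y := Subsingleton.elim _ _
    have h1 : (1 : Mor k ι 1 1) (fun i => x (Fin.castAdd 1 (Fin.castAdd m i)))
        (fun i => (![x (Fin.castAdd 1 (Fin.castAdd m 0)),
        x (Fin.natAdd (1 + m) 0)] : Fin (1 + 0 + 1) → ι) (Fin.castAdd 1 (Fin.castAdd 0 i))) = 1 := by
      rw [one_app, if_pos]
      rw [Ev_fun1]
      rfl
    have h2 : (1 : Mor k ι 1 1) (fun i => x (Fin.natAdd (1 + m) i))
        (fun i => (![x (Fin.castAdd 1 (Fin.castAdd m 0)),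
        x (Fin.natAdd (1 + m) 0)] : Fin (1 + 0 + 1) → ι) (Fin.natAdd (1 + 0) i)) = 1 := by
      rw [one_app, if_pos]
      rw [Ev_fun1]
      rfl
    simp only [tens]
    rw [hx, h1, h2, one_mul, mul_one]
    rfl
  · intro z _ hz
    simp only [tens, one_app]
    by_cases h4 : (fun i => x (Fin.castAdd 1 (Fin.castAdd m i))) =
        (fun i : Fin 1 => z (Fin.castAdd 1 (Fin.castAdd 0 i)))
    · by_cases h5 : (fun i => x (Fin.natAdd (1 + m) i)) =
          (fun i : Fin 1 => z (Fin.natAdd (1 + 0) i))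
      · exfalso
        apply hz
        rw [Ev_fun1] at h4 h5
        funext i
        have hi := (by decide : ∀ i : Fin (1 + 0 + 1),
          i = Fin.castAdd 1 (Fin.castAdd 0 (0 : Fin 1)) ∨ i = Fin.natAdd (1 + 0) (0 : Fin 1)) i
        rcases hi with rfl | rfl
        · exact h4.symm
        · exact h5.symm
      · rw [if_neg h5]
        simp
    · rw [if_neg h4]
      simp
  · intro h
    exact absurd (Finset.mem_univ _) h

private theorem evN_mem (hC : IsSuperFamily odd B C) (n : ℕ) : evN B n ∈ C (n + n) 0 := by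
  induction n with
  | zero =>
    have h1 : evN B 0 = (1 : Mor k ι 0 0) := by
      ext x y
      have hxy : x = y := Subsingleton.elim _ _
      rw [one_app, if_pos hxy]
      simp [evN]
    rw [h1]
    exact hC.one_mem 0
  | succ n ih =>
    have hG : tens (tens (1 : Mor k ι 1 1) (evN B n)) (1 : Mor k ι 1 1) ∈
        C (1 + (n + n) + 1) (1 + 0 + 1) :=
      hC.tens_mem _ _ _ _ _ _ (hC.tens_mem _ _ _ _ _ _ (hC.one_mem 1) ih) (hC.one_mem 1)
    have hP : (formMor B : Mor k ι (1 + 0 + 1) 0) *
        tens (tens (1 : Mor k ι 1 1) (evN B n)) (1 : Mor k ι 1 1) ∈ C (1 + (n + n) + 1) 0 :=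
      hC.comp_mem _ _ _ _ _ hC.form_mem hG
    have hn : 1 + (n + n) + 1 = (n + 1) + (n + 1) := by omega
    have h2 := Ev_cast_in hn hP
    have h3 : (fun x y => ((formMor B : Mor k ι (1 + 0 + 1) 0) *
        tens (tens (1 : Mor k ι 1 1) (evN B n)) (1 : Mor k ι 1 1)) x (y ∘ Fin.cast hn) :
        Mor k ι ((n + 1) + (n + 1)) 0) = evN B (n + 1) := by
      ext x y
      rw [Ev_outer_in]
      simp only [evN]
      rw [Fin.prod_univ_castSucc, mul_comm]
      have e1 : ∀ j : Fin n, (y ∘ Fin.cast hn) (Fin.castAdd 1 (Fin.natAdd 1 (Fin.castAdd n j.rev))) =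
          y (Fin.castAdd (n + 1) (Fin.castSucc j).rev) := by
        intro j
        simp only [Function.comp_apply]
        apply congrArg y
        apply Fin.ext
        simp [Fin.rev]
        omega
      have e2 : ∀ j : Fin n, (y ∘ Fin.cast hn) (Fin.castAdd 1 (Fin.natAdd 1 (Fin.natAdd n j))) =
          y (Fin.natAdd (n + 1) (Fin.castSucc j)) := by
        intro j
        simp only [Function.comp_apply]
        apply congrArg y
        apply Fin.ext
        simp
        omega
      have e3 : (y ∘ Fin.cast hn) (Fin.castAdd 1 (Fin.castAdd (n + n) 0)) =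
          y (Fin.castAdd (n + 1) (Fin.last n).rev) := by
        simp only [Function.comp_apply]
        apply congrArg y
        apply Fin.ext
        simp
      have e4 : (y ∘ Fin.cast hn) (Fin.natAdd (1 + (n + n)) 0) =
          y (Fin.natAdd (n + 1) (Fin.last n)) := by
        simp only [Function.comp_apply]
        apply congrArg y
        apply Fin.ext
        simp only [Fin.val_cast, Fin.val_natAdd, Fin.val_zero, Fin.val_last]
        omega
      rw [e3, e4]
      congr 1
      apply Finset.prod_congr rfl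
      intro j _
      rw [e1 j, e2 j]
    rw [← h3]
    exact h2

private theorem coevN_mem (hC : IsSuperFamily odd B C) (n : ℕ) : coevN B n ∈ C 0 (n + n) := by
  induction n with
  | zero =>
    have h1 : coevN B 0 = (1 : Mor k ι 0 0) := by
      ext x y
      have hxy : x = y := funext fun i => Fin.elim0 (i : Fin 0)
      rw [one_app, if_pos hxy]
      simp [coevN]
    rw [h1]
    exact hC.one_mem 0
  | succ n ih =>
    have hG : tens (tens (1 : Mor k ι 1 1) (coevN B n)) (1 : Mor k ι 1 1) ∈
        C (1 + 0 + 1) (1 + (n + n) + 1) :=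
      hC.tens_mem _ _ _ _ _ _ (hC.tens_mem _ _ _ _ _ _ (hC.one_mem 1) ih) (hC.one_mem 1)
    have hP : tens (tens (1 : Mor k ι 1 1) (coevN B n)) (1 : Mor k ι 1 1) *
        (coformMor B : Mor k ι 0 (1 + 0 + 1)) ∈ C 0 (1 + (n + n) + 1) :=
      hC.comp_mem _ _ _ _ _ hG hC.coform_mem
    have hn : 1 + (n + n) + 1 = (n + 1) + (n + 1) := by omega
    have h2 := Ev_cast_out hn hP
    have h3 : (fun x y => (tens (tens (1 : Mor k ι 1 1) (coevN B n)) (1 : Mor k ι 1 1) *
        (coformMor B : Mor k ι 0 (1 + 0 + 1))) (x ∘ Fin.cast hn) y :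
        Mor k ι 0 ((n + 1) + (n + 1))) = coevN B (n + 1) := by
      ext x y
      rw [Ev_outer_out]
      simp only [coevN]
      rw [Fin.prod_univ_succ, mul_comm]
      have e1 : ∀ j : Fin n, (x ∘ Fin.cast hn) (Fin.castAdd 1 (Fin.natAdd 1 (Fin.castAdd n j))) =
          x (Fin.castAdd (n + 1) (Fin.succ j)) := by
        intro j
        simp only [Function.comp_apply]
        apply congrArg x
        apply Fin.ext
        simp
        omega
      have e2 : ∀ j : Fin n, (x ∘ Fin.cast hn)
          (Fin.castAdd 1 (Fin.natAdd 1 (Fin.natAdd n j.rev))) =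
          x (Fin.natAdd (n + 1) (Fin.succ j).rev) := by
        intro j
        simp only [Function.comp_apply]
        apply congrArg x
        apply Fin.ext
        simp [Fin.rev]
        omega
      have e3 : (x ∘ Fin.cast hn) (Fin.castAdd 1 (Fin.castAdd (n + n) 0)) =
          x (Fin.castAdd (n + 1) 0) := by
        simp only [Function.comp_apply]
        apply congrArg x
        apply Fin.ext
        simp
      have e4 : (x ∘ Fin.cast hn) (Fin.natAdd (1 + (n + n)) 0) =
          x (Fin.natAdd (n + 1) (Fin.rev 0)) := by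
        simp only [Function.comp_apply]
        apply congrArg x
        apply Fin.ext
        simp only [Fin.val_cast, Fin.val_natAdd, Fin.val_zero, Fin.val_rev]
        omega
      rw [e3, e4]
      congr 1
      apply Finset.prod_congr rfl
      intro j _
      rw [e1 j, e2 j]
    rw [← h3]
    exact h2

theorem evI_mem' (hC : IsSuperFamily odd B C) {n : ℕ} {I : Type} [Fintype I] (a : Fin n ≃ I) :
    evI B I ∈ Hm C (sm (rv a) a) em := by
  change rei (sm (rv a) a) em (evI B I) ∈ C (n + n) 0
  have h1 : rei (sm (rv a) a) em (evI B I) = evN B n := by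
    ext x y
    simp only [rei, evI, evN]
    refine Fintype.prod_equiv a.symm _ _ (fun i => ?_)
    rfl
  rw [h1]
  exact evN_mem hC n

theorem coevI_mem' (hC : IsSuperFamily odd B C) {n : ℕ} {I : Type} [Fintype I]
    (a : Fin n ≃ I) : coevI B I ∈ Hm C em (sm a (rv a)) := by
  change rei em (sm a (rv a)) (coevI B I) ∈ C 0 (n + n)
  have h1 : rei em (sm a (rv a)) (coevI B I) = coevN B n := by
    ext x y
    simp only [rei, coevI, coevN]
    refine Fintype.prod_equiv a.symm _ _ (fun i => ?_)
    rfl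
  rw [h1]
  exact coevN_mem hC n

end MP021685Y
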