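import Pool.Agent.Lib.MP_021685_agY.Two
import Pool.Agent.Lib.MP_021685_agY.BridgeH
import Pool.Agent.Lib.MP_021685_agZ.Final

/-!
# The numbers `h(t, V^n)` and `a_n`: inequalities

LEAF. Guide: `MP021685Z.lower_gen`, `numRank_step`, `numRank_convex` (`agZ/Final.lean`),
`Asym_lower`, `Asym_upper`, `Asym_unit`, `Asym_step_lower`, `Asym_retract` (`agZ/Asym.lean`).
Everything follows from `D_le'`, `prk_split`, `srk_numRank`, `hk_even`, `hk_odd`, `cs'`.

`lower_gen'`: `prk_split` (for `P = Hm C (sm r μ) μ`, any `Q`) and `D_le'` for `1 - t`.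
`hk_even_le`, `hk_even_ge`: `hk_even` + `D_le'` / `lower_gen'` for `r = Equiv.refl (Fin r)`.
`hk_odd_le`, `hk_odd_ge`: the same with the idempotent `tsum t 1` on `Fin r ⊕ Fin 1`, whose rank is
`t.rank * N` (`rank_tsum`).
`numRank_step'`, `numRank_two_step`: `D_le'` for `w = 1` on `Fin 1`, `Fin 1 ⊕ Fin 1` (or `Fin 2`).
`numRank_convex'`: `cs'` with `a = refl (Fin m)`, `b = refl (Fin (m + 2))`, idempotents `1`.
`numRank_step_lower`: as `Asym_step_lower`: `p = 1 ⊗ (E E')` on `V ⊗ V`, `E' E = 1` (`Asym_unit`),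
`rank p = N`, `lower_gen'` for `p`, and the retraction bounds
`srk (sm (sm 1 1) m) m 1 (p ⊗ 1) ≤ numRank (2 m + 1)`: here `Asym_retract` has to be used with
`Q = tw K (...)`, `Q' = tw K' (...)`, `h2 : ∀ G ∈ Q, v * G ∈ Q'`: `v (K G) = K' (v G)` by `Hm_even`.
-/

set_option autoImplicit false
set_option linter.unusedSectionVars false

namespace MP021685Y

open Matrix MP021685Z

variable {k : Type*} [Field k] {ι : Type} [Fintype ι] [DecidableEq ι]

variable {odd : ι → Bool} {B : Matrix ι ι k} {C : ∀ m n : ℕ, Submodule k (Mor k ι m n)}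

/-- The general lower bound. -/
theorem lower_gen' [IsAlgClosed k] [CharZero k] (hC : IsSuperFamily odd B C) {l : ℕ}
    {R : Type} [Fintype R] [DecidableEq R] (r : Fin l ≃ R) (m : ℕ)
    (t : Matrix (R → ι) (R → ι) k) (ht : t ∈ Hm C r r) (ht2 : t * t = t) :
    numRank C (l + (m + m)) + t.rank * numRank C (m + m) ≤
      srk odd C (sm r (Equiv.refl (Fin m))) (Equiv.refl (Fin m)) 1 (tsum t 1) +
        Fintype.card ι ^ l * numRank C (m + m) := by
  have h0 : (1 - t) * (1 - t) = 1 - t := by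
    rw [mul_sub, sub_mul, sub_mul, ht2]
    simp
  have h1 := prk_split (Hm C (sm r (Equiv.refl (Fin m))) (Equiv.refl (Fin m)))
    (tw (Kd k odd (R ⊕ Fin m)) (Hm C (Equiv.refl (Fin m)) (sm r (Equiv.refl (Fin m)))))
    (tsum t (1 : Matrix (Fin m → ι) (Fin m → ι) k))
  rw [← tsum_sub_one] at h1
  have h2 := D_le' hC r m (1 - t) (sub_mem (Hm_one hC r) ht) h0
  have h3 : prk (Hm C (sm r (Equiv.refl (Fin m))) (Equiv.refl (Fin m)))
      (tw (Kd k odd (R ⊕ Fin m)) (Hm C (Equiv.refl (Fin m)) (sm r (Equiv.refl (Fin m))))) =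
      numRank C (l + (m + m)) := by
    rw [← Nat.add_assoc, ← srk_numRank hC (sm r (Equiv.refl (Fin m))) (Equiv.refl (Fin m)), srk,
      sand_one]
  rw [h3] at h1
  have h5 := rank_compl t ht2
  rw [Fintype.card_fun, Fintype.card_congr r.symm, Fintype.card_fin] at h5
  calc numRank C (l + (m + m)) + t.rank * numRank C (m + m)
      ≤ (srk odd C (sm r (Equiv.refl (Fin m))) (Equiv.refl (Fin m)) 1 (tsum t 1) +
        (1 - t).rank * numRank C (m + m)) + t.rank * numRank C (m + m) :=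
        Nat.add_le_add_right (h1.trans (Nat.add_le_add_left h2 _)) _
    _ = srk odd C (sm r (Equiv.refl (Fin m))) (Equiv.refl (Fin m)) 1 (tsum t 1) +
        ((1 - t).rank + t.rank) * numRank C (m + m) := by ring
    _ = _ := by rw [h5]

/-- `t ⊗ 1` is an idempotent. -/
theorem FinA_idem {r : ℕ} (t : Mor k ι r r) (ht2 : t * t = t) :
    tsum t (1 : Matrix (Fin 1 → ι) (Fin 1 → ι) k) * tsum t (1 : Matrix (Fin 1 → ι) (Fin 1 → ι) k) =
      tsum t (1 : Matrix (Fin 1 → ι) (Fin 1 → ι) k) := by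
  rw [tsum_mul, ht2, mul_one]

/-- The rank of `t ⊗ 1`. -/
theorem FinA_rank [CharZero k] {r : ℕ} (t : Mor k ι r r) (ht2 : t * t = t) :
    (tsum t (1 : Matrix (Fin 1 → ι) (Fin 1 → ι) k)).rank = t.rank * Fintype.card ι := by
  rw [rank_tsum t (1 : Matrix (Fin 1 → ι) (Fin 1 → ι) k) ht2 (mul_one 1), rank_one,
    Fintype.card_fun, Fintype.card_fin, pow_one]

/-- `t ⊗ 1` is in the family. -/
theorem FinA_mem (hC : IsSuperFamily odd B C) {r : ℕ} {t : Mor k ι r r} (ht : t ∈ C r r) :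
    tsum t (1 : Matrix (Fin 1 → ι) (Fin 1 → ι) k) ∈
      Hm C (sm (Equiv.refl (Fin r)) (Equiv.refl (Fin 1)))
        (sm (Equiv.refl (Fin r)) (Equiv.refl (Fin 1))) :=
  Hm_tsum hC (show t ∈ Hm C (Equiv.refl (Fin r)) (Equiv.refl (Fin r)) from ht)
    (Hm_one hC (Equiv.refl (Fin 1)))

theorem hk_even_le [IsAlgClosed k] [CharZero k] (hC : IsSuperFamily odd B C) (r m : ℕ)
    (t : Mor k ι r r) (ht : t ∈ C r r) (ht2 : t * t = t) :
    hk odd C r (2 * m) t ≤ t.rank * numRank C (2 * m) := by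
  rw [hk_even hC, two_mul]
  exact D_le' hC (Equiv.refl (Fin r)) m t ht ht2

theorem hk_odd_le [IsAlgClosed k] [CharZero k] (hC : IsSuperFamily odd B C) (r m : ℕ)
    (t : Mor k ι r r) (ht : t ∈ C r r) (ht2 : t * t = t) :
    hk odd C r (2 * m + 1) t ≤ Fintype.card ι * t.rank * numRank C (2 * m) := by
  rw [hk_odd hC, two_mul, mul_comm (Fintype.card ι), ← FinA_rank t ht2]
  exact D_le' hC (sm (Equiv.refl (Fin r)) (Equiv.refl (Fin 1))) m _ (FinA_mem hC ht)
    (FinA_idem t ht2)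

theorem hk_even_ge [IsAlgClosed k] [CharZero k] (hC : IsSuperFamily odd B C) (r m : ℕ)
    (t : Mor k ι r r) (ht : t ∈ C r r) (ht2 : t * t = t) :
    numRank C (r + (m + m)) + t.rank * numRank C (2 * m) ≤
      hk odd C r (2 * m) t + Fintype.card ι ^ r * numRank C (2 * m) := by
  rw [hk_even hC, two_mul]
  exact lower_gen' hC (Equiv.refl (Fin r)) m t ht ht2

theorem hk_odd_ge [IsAlgClosed k] [CharZero k] (hC : IsSuperFamily odd B C) (r m : ℕ)
    (t : Mor k ι r r) (ht : t ∈ C r r) (ht2 : t * t = t) :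
    numRank C (r + 1 + (m + m)) + Fintype.card ι * t.rank * numRank C (2 * m) ≤
      hk odd C r (2 * m + 1) t + Fintype.card ι ^ (r + 1) * numRank C (2 * m) := by
  rw [hk_odd hC, two_mul, mul_comm (Fintype.card ι), ← FinA_rank t ht2]
  exact lower_gen' hC (sm (Equiv.refl (Fin r)) (Equiv.refl (Fin 1))) m _ (FinA_mem hC ht)
    (FinA_idem t ht2)

end MP021685Y
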