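import Pool.Agent.Lib.MP_021685_agY.FinA
import Pool.Agent.Lib.MP_021685_agZ.Asym

/-!
# The numbers `h(t, V^n)` and `a_n`: inequalities

`numRank_step'`, `numRank_two_step`: `D_le'` for `w = 1` on `Fin 1` and `Fin 2`.
`numRank_convex'`: `cs'` with `a = refl (Fin m)`, `b = refl (Fin (m + 2))`, idempotents `1`.
`numRank_step_lower`: as `Asym_step_lower`: `p = 1 ⊗ (E E')` on `V ⊗ V`, `E' E = 1`,
`rank p = N`, `lower_gen'` for `p`, and the retraction of `p ⊗ 1` onto `V ⊗ V^m`.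
-/

set_option autoImplicit false
set_option linter.unusedSectionVars false

namespace MP021685Y

open Matrix MP021685Z

variable {k : Type*} [Field k] {ι : Type} [Fintype ι] [DecidableEq ι]

variable {odd : ι → Bool} {B : Matrix ι ι k} {C : ∀ m n : ℕ, Submodule k (Mor k ι m n)}

theorem FinB_upper [IsAlgClosed k] [CharZero k] (hC : IsSuperFamily odd B C) {l : ℕ}
    {R : Type} [Fintype R] [DecidableEq R] (r : Fin l ≃ R) (m : ℕ) :
    numRank C (l + m + m) ≤ Fintype.card ι ^ l * numRank C (m + m) := by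
  have h := D_le' hC r m 1 (Hm_one hC r) (Matrix.one_mul _)
  have h1 : Fintype.card R = l := by
    rw [← Fintype.card_congr r, Fintype.card_fin]
  rw [tsum_one, srk_numRank hC, Matrix.rank_one, Fintype.card_fun, h1] at h
  exact h

theorem numRank_step' [IsAlgClosed k] [CharZero k] (hC : IsSuperFamily odd B C) (m : ℕ) :
    numRank C (2 * m + 1) ≤ Fintype.card ι * numRank C (2 * m) := by
  have h := FinB_upper hC (Equiv.refl (Fin 1)) m
  rw [pow_one] at h
  rw [show 2 * m + 1 = 1 + m + m by ring, show 2 * m = m + m by ring]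
  exact h

theorem numRank_two_step [IsAlgClosed k] [CharZero k] (hC : IsSuperFamily odd B C) (m : ℕ) :
    numRank C (2 * (m + 1)) ≤ Fintype.card ι ^ 2 * numRank C (2 * m) := by
  have h := FinB_upper hC (Equiv.refl (Fin 2)) m
  rw [show 2 * (m + 1) = 2 + m + m by ring, show 2 * m = m + m by ring]
  exact h

theorem numRank_convex' [IsAlgClosed k] [CharZero k] (hC : IsSuperFamily odd B C) (m : ℕ) :
    numRank C (2 * (m + 1)) ^ 2 ≤ numRank C (2 * m) * numRank C (2 * (m + 2)) := by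
  have h := cs' hC (Equiv.refl (Fin m)) (Equiv.refl (Fin (m + 2))) 1 1 (Hm_one hC _)
    (Matrix.one_mul _) (Hm_one hC _) (Matrix.one_mul _)
  rw [srk_numRank hC, srk_numRank hC, srk_numRank hC] at h
  rw [show 2 * (m + 1) = m + (m + 2) by ring, show 2 * m = m + m by ring,
    show 2 * (m + 2) = m + 2 + (m + 2) by ring]
  exact h

/-- The trivial summand, normalised. -/
theorem FinB_unit (hC : IsSuperFamily odd B C) :
    ∃ (E : Matrix (Fin 1 → ι) (Fin 0 → ι) k) (E' : Matrix (Fin 0 → ι) (Fin 1 → ι) k),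
      E ∈ Hm C (Equiv.refl (Fin 0)) (Equiv.refl (Fin 1)) ∧
      E' ∈ Hm C (Equiv.refl (Fin 1)) (Equiv.refl (Fin 0)) ∧ E' * E = 1 := by
  obtain ⟨e, he, e', he', h⟩ := hC.unit_mem
  have hz : ∀ z : Fin 0 → ι, z = fun i => i.elim0 := fun z => funext fun i => i.elim0
  set c := (e' * e) (fun i => i.elim0) (fun i => i.elim0) with hc
  have hc0 : c ≠ 0 := by
    intro h0
    apply h
    funext x y
    rw [hz x, hz y, ← hc, h0]
    rfl
  refine ⟨c⁻¹ • e, e', ?_, ?_, ?_⟩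
  · rw [Hm_refl]
    exact (C 0 1).smul_mem _ he
  · rw [Hm_refl]
    exact he'
  · funext x y
    rw [Matrix.mul_smul, Matrix.smul_apply, hz x, hz y, ← hc, Matrix.one_apply, if_pos rfl,
      smul_eq_mul, inv_mul_cancel₀ hc0]

/-- Retracts of super ranks. -/
theorem FinB_retract (hC : IsSuperFamily odd B C) {m m' n : ℕ} {I I' J : Type} [Fintype I]
    [Fintype I'] [Fintype J] [DecidableEq I] [DecidableEq I'] [DecidableEq J] (a : Fin m ≃ I)
    (a' : Fin m' ≃ I') (b : Fin n ≃ J) (u : Matrix (I → ι) (I' → ι) k)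
    (v : Matrix (I' → ι) (I → ι) k) (hu : u ∈ Hm C a' a) (hv : v ∈ Hm C a a')
    (huv : u * v * (u * v) = u * v) :
    srk odd C a b 1 (u * v) ≤ srk odd C a' b 1 1 := by
  unfold srk
  rw [sand_one (Hm C a' b)]
  refine Asym_retract _ _ _ _ u v ?_ ?_ ?_
  · rintro _ ⟨F, hF, rfl⟩
    change (1 : Matrix (J → ι) (J → ι) k) * F * (u * v) * u ∈ _
    rw [Matrix.one_mul]
    exact Hm_mul hC (Hm_mul hC hF (Hm_mul hC hu hv)) hu
  · rintro _ ⟨G, hG, rfl⟩
    refine ⟨v * G, Hm_mul hC hv hG, ?_⟩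
    change Kd k odd I' * (v * G) = v * (Kd k odd I * G)
    rw [← Matrix.mul_assoc, ← Matrix.mul_assoc, Hm_even hC hv]
  · rintro _ ⟨F, hF, rfl⟩
    change (1 : Matrix (J → ι) (J → ι) k) * F * (u * v) =
      (1 : Matrix (J → ι) (J → ι) k) * F * (u * v) * u * v
    rw [Matrix.one_mul, Matrix.mul_assoc (F * _) u v, Matrix.mul_assoc F, huv]

/-- `V` is a direct summand of `V ⊗ V`. -/
theorem numRank_step_lower [IsAlgClosed k] [CharZero k] (hC : IsSuperFamily odd B C) (m : ℕ) :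
    numRank C (2 * (m + 1)) + Fintype.card ι * numRank C (2 * m) ≤
      numRank C (2 * m + 1) + Fintype.card ι ^ 2 * numRank C (2 * m) := by
  obtain ⟨E, E', hE, hE', hEE⟩ := FinB_unit hC
  have hEi : (E * E') * (E * E') = E * E' := by
    rw [Matrix.mul_assoc, ← Matrix.mul_assoc E' E E', hEE, Matrix.one_mul]
  have hEm : E * E' ∈ Hm C (Equiv.refl (Fin 1)) (Equiv.refl (Fin 1)) := Hm_mul hC hE hE'
  let p : Matrix ((Fin 1 ⊕ Fin 1) → ι) ((Fin 1 ⊕ Fin 1) → ι) k :=
    tsum (1 : Matrix (Fin 1 → ι) (Fin 1 → ι) k) (E * E')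
  have hp : p ∈ Hm C (sm (Equiv.refl (Fin 1)) (Equiv.refl (Fin 1)))
      (sm (Equiv.refl (Fin 1)) (Equiv.refl (Fin 1))) := Hm_tsum hC (Hm_one hC _) hEm
  have hp2 : p * p = p := by
    change MP021685Z.tsum _ _ * MP021685Z.tsum _ _ = MP021685Z.tsum _ _
    rw [tsum_mul, Matrix.one_mul, hEi]
  have hpr : p.rank = Fintype.card ι := by
    have h1 := rank_tsum (I := Fin 1) (J := Fin 1) (1 : Matrix (Fin 1 → ι) (Fin 1 → ι) k) (E * E')
      (Matrix.one_mul _) hEi
    have h2 : (E * E').rank = 1 := by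
      have h3 := rank_idem (E * E') hEi
      rw [Matrix.trace_mul_comm, hEE, trace_one] at h3
      have h4 : Fintype.card (Fin 0 → ι) = 1 := by
        rw [Fintype.card_fun, Fintype.card_fin, pow_zero]
      rw [h4] at h3
      exact_mod_cast h3
    rw [h2, mul_one, Matrix.rank_one, Fintype.card_fun, Fintype.card_fin, pow_one] at h1
    exact h1
  have h := lower_gen' hC (sm (Equiv.refl (Fin 1)) (Equiv.refl (Fin 1))) m p hp hp2
  let u : Matrix (((Fin 1 ⊕ Fin 1) ⊕ Fin m) → ι) (((Fin 1 ⊕ Fin 0) ⊕ Fin m) → ι) k :=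
    tsum (tsum (1 : Matrix (Fin 1 → ι) (Fin 1 → ι) k) E) (1 : Matrix (Fin m → ι) (Fin m → ι) k)
  let v : Matrix (((Fin 1 ⊕ Fin 0) ⊕ Fin m) → ι) (((Fin 1 ⊕ Fin 1) ⊕ Fin m) → ι) k :=
    tsum (tsum (1 : Matrix (Fin 1 → ι) (Fin 1 → ι) k) E') (1 : Matrix (Fin m → ι) (Fin m → ι) k)
  have hu : u ∈ Hm C (sm (sm (Equiv.refl (Fin 1)) (Equiv.refl (Fin 0))) (Equiv.refl (Fin m)))
      (sm (sm (Equiv.refl (Fin 1)) (Equiv.refl (Fin 1))) (Equiv.refl (Fin m))) :=
    Hm_tsum hC (Hm_tsum hC (Hm_one hC _) hE) (Hm_one hC _)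
  have hv : v ∈ Hm C (sm (sm (Equiv.refl (Fin 1)) (Equiv.refl (Fin 1))) (Equiv.refl (Fin m)))
      (sm (sm (Equiv.refl (Fin 1)) (Equiv.refl (Fin 0))) (Equiv.refl (Fin m))) :=
    Hm_tsum hC (Hm_tsum hC (Hm_one hC _) hE') (Hm_one hC _)
  have huv : u * v = tsum p (1 : Matrix (Fin m → ι) (Fin m → ι) k) := by
    change MP021685Z.tsum _ _ * MP021685Z.tsum _ _ = MP021685Z.tsum _ _
    rw [tsum_mul, tsum_mul, Matrix.one_mul, Matrix.one_mul]
  have huv2 : u * v * (u * v) = u * v := by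
    rw [huv, tsum_mul, hp2, Matrix.one_mul]
  have hret := FinB_retract hC _ _ (Equiv.refl (Fin m)) u v hu hv huv2
  rw [huv, srk_numRank hC] at hret
  rw [hpr] at h
  have e1 : 2 * (m + 1) = 1 + 1 + (m + m) := by ring
  have e2 : 2 * m + 1 = 1 + 0 + m + m := by ring
  have e3 : 2 * m = m + m := by ring
  rw [e1, e2, e3]
  exact h.trans (Nat.add_le_add_right hret _)

end MP021685Y
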