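import Pool.Agent.Lib.MP_021685_agY.Perm
import Pool.Agent.Lib.MP_021685_agZ.Growth

/-!
# Signed permutations span a large space

LEAF. Guide: `MP021685Z.gram_rank` (`agZ/Growth.lean`: `Growth_rank_map`, `Growth_trace_sq`,
`Growth_fix`, `Growth_fix_sq`, `Growth_fix_one`, `Growth_fix_inv`, `Growth_burnside`).

Gram matrix `G s t = ∑_{x,y} P_s x y * P_t x y` of the matrices `P_s = monMor k s (ε s)`: an integer,
`G s t = ∑_{x, x ∘ s = x ∘ t} ± 1`, so `|G s t| ≤ Growth_fix ι (s * t⁻¹)` (the number of `x` with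
`x ∘ s = x ∘ t`), `G s s = N ^ m`, symmetric. Over `ℝ`: `(tr G)² ≤ rank G * tr G²` and
`tr G² = ∑ (G s t)² ≤ ∑ fix² = m! ∑_σ Growth_fix (ι × ι) σ ≤ m! (m + 1)^(N²) m!`. The rank over `k`
is the same (`Growth_rank_map` through `ℚ`) and at most `finrank S`: `G = M * Mᵀ`, `M` the matrix
with rows the vectors `P_s`, `rank (M * Mᵀ) ≤ rank M` = dimension of the span of the rows.
-/

set_option autoImplicit false
set_option linter.unusedSectionVars false

namespace MP021685Y

open Matrix MP021685Z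

/-- The Gram matrix of the signed permutations, with integer entries. -/
def Grow_gram (ι : Type) [Fintype ι] [DecidableEq ι] (m : ℕ)
    (ε : Equiv.Perm (Fin m) → (Fin m → ι) → ℤˣ) (s t : Equiv.Perm (Fin m)) : ℤ :=
  ∑ x : Fin m → ι, if x ∘ s = x ∘ t then ((ε s x : ℤ) * (ε t x : ℤ)) else 0

theorem Grow_unit_sq (u : ℤˣ) : (u : ℤ) * (u : ℤ) = 1 := by
  rcases Int.units_eq_one_or u with h | h <;> rw [h] <;> norm_num

theorem Grow_unit_abs (u : ℤˣ) : |(u : ℤ)| = 1 := by
  rcases Int.units_eq_one_or u with h | h <;> rw [h] <;> norm_num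

theorem Grow_gram_self (ι : Type) [Fintype ι] [DecidableEq ι] (m : ℕ)
    (ε : Equiv.Perm (Fin m) → (Fin m → ι) → ℤˣ) (s : Equiv.Perm (Fin m)) :
    Grow_gram ι m ε s s = (Fintype.card ι : ℤ) ^ m := by
  unfold Grow_gram
  simp only [if_true, Grow_unit_sq]
  rw [Finset.sum_const, Finset.card_univ, Fintype.card_fun, Fintype.card_fin]
  simp

theorem Grow_gram_symm (ι : Type) [Fintype ι] [DecidableEq ι] (m : ℕ)
    (ε : Equiv.Perm (Fin m) → (Fin m → ι) → ℤˣ) (s t : Equiv.Perm (Fin m)) :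
    Grow_gram ι m ε s t = Grow_gram ι m ε t s := by
  unfold Grow_gram
  refine Finset.sum_congr rfl fun x _ => ?_
  by_cases h : x ∘ s = x ∘ t
  · rw [if_pos h, if_pos h.symm, mul_comm]
  · rw [if_neg h, if_neg (fun h' => h h'.symm)]

theorem Grow_gram_le (ι : Type) [Fintype ι] [DecidableEq ι] (m : ℕ)
    (ε : Equiv.Perm (Fin m) → (Fin m → ι) → ℤˣ) (s t : Equiv.Perm (Fin m)) :
    |Grow_gram ι m ε s t| ≤ (Growth_fix ι (s * t⁻¹) : ℤ) := by
  unfold Grow_gram Growth_fix
  refine (Finset.abs_sum_le_sum_abs _ _).trans ?_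
  rw [Finset.card_filter, Nat.cast_sum]
  refine Finset.sum_le_sum fun x _ => ?_
  by_cases h : x ∘ s = x ∘ t
  · have h1 : x = x ∘ (s * t⁻¹ : Equiv.Perm (Fin m)) := by
      have h2 : x ∘ (s * t⁻¹ : Equiv.Perm (Fin m)) = (x ∘ s) ∘ (t⁻¹ : Equiv.Perm (Fin m)) := rfl
      rw [h2, h]
      funext i
      simp
    rw [if_pos h, if_pos h1, abs_mul, Grow_unit_abs, Grow_unit_abs, mul_one, Nat.cast_one]
  · rw [if_neg h, abs_zero]
    split_ifs <;> norm_num

theorem mon_rank (k : Type*) [Field k] [CharZero k] (ι : Type) [Fintype ι] [DecidableEq ι]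
    (m : ℕ) (S : Submodule k (Mor k ι m m)) (ε : Equiv.Perm (Fin m) → (Fin m → ι) → ℤˣ)
    (hS : ∀ σ, monMor k σ (ε σ) ∈ S) :
    (Fintype.card ι) ^ (2 * m) ≤ Module.finrank k S * (m + 1) ^ ((Fintype.card ι) ^ 2) := by
  classical
  let G : Matrix (Equiv.Perm (Fin m)) (Equiv.Perm (Fin m)) ℚ := fun s t => (Grow_gram ι m ε s t : ℚ)
  -- the rank of the Gram matrix is at most the dimension of `S`
  have hrank : G.rank ≤ Module.finrank k S := by
    let M : Matrix (Equiv.Perm (Fin m)) ((Fin m → ι) × (Fin m → ι)) k :=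
      fun s p => monMor k s (ε s) p.1 p.2
    have h1 : G.map (algebraMap ℚ k) = M * Mᵀ := by
      ext s t
      rw [Matrix.map_apply, Matrix.mul_apply, Fintype.sum_prod_type]
      have h2 : (algebraMap ℚ k) (G s t) = ((Grow_gram ι m ε s t : ℤ) : k) := by
        simp [G]
      rw [h2]
      unfold Grow_gram
      push_cast
      refine Finset.sum_congr rfl fun x _ => ?_
      rw [Finset.sum_eq_single (x ∘ s)]
      · rw [Matrix.transpose_apply]
        simp only [M, monMor, if_true]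
        by_cases h : x ∘ s = x ∘ t
        · rw [if_pos h, if_pos h]
        · rw [if_neg h, if_neg h, mul_zero]
      · intro y _ hy
        simp only [M, monMor]
        rw [if_neg hy, zero_mul]
      · intro h
        exact absurd (Finset.mem_univ _) h
    rw [← Growth_rank_map (algebraMap ℚ k) G, h1]
    refine (Matrix.rank_mul_le_left M Mᵀ).trans ?_
    rw [Matrix.rank_eq_finrank_span_row]
    let φ : Mor k ι m m →ₗ[k] ((Fin m → ι) × (Fin m → ι) → k) :=
      { toFun := fun f p => f p.1 p.2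
        map_add' := fun _ _ => rfl
        map_smul' := fun _ _ => rfl }
    have h3 : Submodule.span k (Set.range M.row) ≤ S.map φ := by
      rw [Submodule.span_le]
      rintro _ ⟨s, rfl⟩
      exact ⟨monMor k s (ε s), hS s, rfl⟩
    exact (Submodule.finrank_mono h3).trans (Submodule.finrank_map_le φ S)
  refine le_trans ?_ (Nat.mul_le_mul_right _ hrank)
  rw [← Growth_rank_map (algebraMap ℚ ℝ) G]
  set A : Matrix (Equiv.Perm (Fin m)) (Equiv.Perm (Fin m)) ℝ := G.map (algebraMap ℚ ℝ) with hAd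
  have hA : ∀ s t, A s t = (Grow_gram ι m ε s t : ℝ) := by
    intro s t
    rw [hAd, Matrix.map_apply]
    simp [G]
  have hAh : A.IsHermitian := by
    ext s t
    rw [Matrix.conjTranspose_apply, hA, hA, Grow_gram_symm ι m ε s t]
    simp
  have h1 := Growth_trace_sq A hAh
  have h2 : A.trace = (m.factorial : ℝ) * (Fintype.card ι : ℝ) ^ m := by
    rw [Matrix.trace]
    have : ∀ s : Equiv.Perm (Fin m), A.diag s = (Fintype.card ι : ℝ) ^ m := by
      intro s
      rw [Matrix.diag_apply, hA, Grow_gram_self]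
      push_cast
      rfl
    rw [Finset.sum_congr rfl fun s _ => this s, Finset.sum_const, Finset.card_univ, Fintype.card_perm,
      Fintype.card_fin, nsmul_eq_mul]
  have h3 : (A * A).trace ≤ (m.factorial : ℝ) *
      (((m : ℝ) + 1) ^ (Fintype.card ι ^ 2) * (m.factorial : ℝ)) := by
    have h4 : ∀ s : Equiv.Perm (Fin m), (A * A).diag s ≤
        ∑ σ : Equiv.Perm (Fin m), ((Growth_fix (ι × ι) σ : ℕ) : ℝ) := by
      intro s
      rw [Matrix.diag_apply, Matrix.mul_apply]
      have h5 : ∀ t : Equiv.Perm (Fin m), A s t * A t s ≤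
          ((Growth_fix (ι × ι) (s * t⁻¹) : ℕ) : ℝ) := by
        intro t
        rw [hA, hA, Grow_gram_symm ι m ε t s, ← Growth_fix_sq, ← sq]
        have h6 := Grow_gram_le ι m ε s t
        have h7 : |(Grow_gram ι m ε s t : ℝ)| ≤ ((Growth_fix ι (s * t⁻¹) : ℕ) : ℝ) := by
          exact_mod_cast h6
        rw [← sq_abs]
        push_cast
        exact pow_le_pow_left₀ (abs_nonneg _) h7 2
      refine (Finset.sum_le_sum fun t _ => h5 t).trans (le_of_eq ?_)
      exact Fintype.sum_equiv ((Equiv.inv (Equiv.Perm (Fin m))).trans (Equiv.mulLeft s)) _ _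
        fun t => rfl
    rw [Matrix.trace]
    refine (Finset.sum_le_sum fun s _ => h4 s).trans ?_
    rw [Finset.sum_const, Finset.card_univ, Fintype.card_perm,
      Fintype.card_fin, nsmul_eq_mul]
    refine mul_le_mul_of_nonneg_left ?_ (Nat.cast_nonneg _)
    have h6 := Growth_burnside (ι × ι) m
    have h7 : Fintype.card (ι × ι) = Fintype.card ι ^ 2 := by
      rw [Fintype.card_prod, sq]
    rw [h7] at h6
    have h8 : ((∑ σ : Equiv.Perm (Fin m), Growth_fix (ι × ι) σ : ℕ) : ℝ) ≤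
        (((m + 1) ^ (Fintype.card ι ^ 2) * m.factorial : ℕ) : ℝ) := by exact_mod_cast h6
    push_cast at h8
    exact h8
  have hf : (0 : ℝ) < (m.factorial : ℝ) := by exact_mod_cast m.factorial_pos
  have h9 : ((m.factorial : ℝ) * (Fintype.card ι : ℝ) ^ m) ^ 2 ≤
      (A.rank : ℝ) * ((m.factorial : ℝ) * (((m : ℝ) + 1) ^ (Fintype.card ι ^ 2) *
        (m.factorial : ℝ))) := by
    rw [← h2]
    exact h1.trans (mul_le_mul_of_nonneg_left h3 (Nat.cast_nonneg _))
  have h10 : (Fintype.card ι : ℝ) ^ (2 * m) ≤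
      (A.rank : ℝ) * ((m : ℝ) + 1) ^ (Fintype.card ι ^ 2) := by
    have h11 : (m.factorial : ℝ) ^ 2 * (Fintype.card ι : ℝ) ^ (2 * m) ≤
        (m.factorial : ℝ) ^ 2 * ((A.rank : ℝ) * ((m : ℝ) + 1) ^ (Fintype.card ι ^ 2)) := by
      calc (m.factorial : ℝ) ^ 2 * (Fintype.card ι : ℝ) ^ (2 * m) =
            ((m.factorial : ℝ) * (Fintype.card ι : ℝ) ^ m) ^ 2 := by
            rw [mul_pow, ← pow_mul, mul_comm m 2]
        _ ≤ _ := h9
        _ = _ := by ring
    exact le_of_mul_le_mul_left h11 (by positivity)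
  exact_mod_cast h10

end MP021685Y
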