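import Pool.Agent.Lib.MP_021685_agY.Defs
import Pool.Agent.Lib.MP_021685_agZ.TwoA

/-!
# Correspondences between enumerated sets of slots (planar: no permutations)
-/

set_option autoImplicit false
set_option linter.unusedSectionVars false

namespace MP021685Y

open Matrix MP021685Z

section Enum

/-- The enumeration of `I ⊕ J`: first `I`, then `J`. -/
def sm {m n : ℕ} {I J : Type} (a : Fin m ≃ I) (b : Fin n ≃ J) : Fin (m + n) ≃ I ⊕ J :=
  finSumFinEquiv.symm.trans (Equiv.sumCongr a b)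

/-- The reversed enumeration. -/
def rv {n : ℕ} {I : Type} (a : Fin n ≃ I) : Fin n ≃ I := Fin.revPerm.trans a

/-- The enumeration of the empty set. -/
def em : Fin 0 ≃ Empty := Equiv.equivOfIsEmpty _ _

theorem rv_rv {n : ℕ} {I : Type} (a : Fin n ≃ I) : rv (rv a) = a := by
  ext i
  simp [rv]

theorem Hm_sm_inl {m n : ℕ} {I J : Type} (a : Fin m ≃ I) (b : Fin n ≃ J) (i : Fin m) :
    sm a b (Fin.castAdd n i) = Sum.inl (a i) := by
  simp [sm]

theorem Hm_sm_inr {m n : ℕ} {I J : Type} (a : Fin m ≃ I) (b : Fin n ≃ J) (i : Fin n) :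
    sm a b (Fin.natAdd m i) = Sum.inr (b i) := by
  simp [sm]

theorem sm_assoc {l m n : ℕ} {I J K : Type} (a : Fin l ≃ I) (b : Fin m ≃ J) (c : Fin n ≃ K) :
    (sm (sm a b) c).trans (Equiv.sumAssoc I J K) =
      (finCongr (Nat.add_assoc l m n)).trans (sm a (sm b c)) := by
  apply Equiv.ext
  intro i
  refine Fin.addCases (fun i => ?_) (fun i => ?_) i
  · refine Fin.addCases (fun i => ?_) (fun i => ?_) i
    · have h : (finCongr (Nat.add_assoc l m n)) (Fin.castAdd n (Fin.castAdd m i)) =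
          Fin.castAdd (m + n) i := by
        ext
        simp
      rw [Equiv.trans_apply, Equiv.trans_apply, h, Hm_sm_inl, Hm_sm_inl, Hm_sm_inl]
      rfl
    · have h : (finCongr (Nat.add_assoc l m n)) (Fin.castAdd n (Fin.natAdd l i)) =
          Fin.natAdd l (Fin.castAdd n i) := by
        ext
        simp
      rw [Equiv.trans_apply, Equiv.trans_apply, h, Hm_sm_inl, Hm_sm_inr, Hm_sm_inr, Hm_sm_inl]
      rfl
  · have h : (finCongr (Nat.add_assoc l m n)) (Fin.natAdd (l + m) i) =
        Fin.natAdd l (Fin.natAdd m i) := by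
      ext
      simp [Nat.add_assoc]
    rw [Equiv.trans_apply, Equiv.trans_apply, h, Hm_sm_inr, Hm_sm_inr, Hm_sm_inr]
    rfl

theorem sm_em_left {n : ℕ} {I : Type} (a : Fin n ≃ I) :
    (sm em a).trans (Equiv.emptySum Empty I) = (finCongr (Nat.zero_add n)).trans a := by
  apply Equiv.ext
  intro i
  refine Fin.addCases (fun i => i.elim0) (fun i => ?_) i
  have h : (finCongr (Nat.zero_add n)) (Fin.natAdd 0 i) = i := by
    ext
    simp
  rw [Equiv.trans_apply, Equiv.trans_apply, h, Hm_sm_inr]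
  rfl

theorem sm_em_right {n : ℕ} {I : Type} (a : Fin n ≃ I) :
    (sm a em).trans (Equiv.sumEmpty I Empty) = a := by
  apply Equiv.ext
  intro i
  refine Fin.addCases (motive := fun i : Fin (n + 0) =>
    ((sm a em).trans (Equiv.sumEmpty I Empty)) i = a i) (fun i => ?_) (fun i => i.elim0) i
  rw [Equiv.trans_apply, Hm_sm_inl]
  rfl

theorem rv_sm {m n : ℕ} {I J : Type} (a : Fin m ≃ I) (b : Fin n ≃ J) :
    (rv (sm a b)).trans (Equiv.sumComm I J) =
      (finCongr (Nat.add_comm m n)).trans (sm (rv b) (rv a)) := by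
  apply Equiv.ext
  intro i
  obtain ⟨j, rfl⟩ : ∃ j, i = Fin.rev j := ⟨Fin.rev i, (Fin.rev_rev i).symm⟩
  have hl : ((rv (sm a b)).trans (Equiv.sumComm I J)) (Fin.rev j) =
      Equiv.sumComm I J (sm a b j) := by
    simp [rv]
  rw [hl, Equiv.trans_apply]
  refine Fin.addCases (motive := fun j : Fin (m + n) =>
    Equiv.sumComm I J (sm a b j) =
      (sm (rv b) (rv a)) ((finCongr (Nat.add_comm m n)) (Fin.rev j))) (fun j => ?_) (fun j => ?_) j
  · have h : (finCongr (Nat.add_comm m n)) (Fin.rev (Fin.castAdd n j)) =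
        Fin.natAdd n (Fin.rev j) := by
      ext
      simp only [finCongr_apply, Fin.val_cast, Fin.val_rev, Fin.val_castAdd, Fin.val_natAdd]
      have := j.isLt
      omega
    rw [h, Hm_sm_inl, Hm_sm_inr]
    simp [rv]
  · have h : (finCongr (Nat.add_comm m n)) (Fin.rev (Fin.natAdd m j)) =
        Fin.castAdd m (Fin.rev j) := by
      ext
      simp only [finCongr_apply, Fin.val_cast, Fin.val_rev, Fin.val_castAdd, Fin.val_natAdd]
      have := j.isLt
      omega
    rw [h, Hm_sm_inr, Hm_sm_inl]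
    simp [rv]

end Enum

variable {k : Type*} [Field k] {ι : Type} [Fintype ι] [DecidableEq ι]

/-- The correspondences with input slots `I` and output slots `J`, enumerated by `a` and `b`. -/
def Hm (C : ∀ m n : ℕ, Submodule k (Mor k ι m n)) {m n : ℕ} {I J : Type} (a : Fin m ≃ I)
    (b : Fin n ≃ J) : Submodule k (Matrix (J → ι) (I → ι) k) where
  carrier := {F | rei a b F ∈ C m n}
  zero_mem' := (C m n).zero_mem
  add_mem' := fun ha hb => (C m n).add_mem ha hb
  smul_mem' := fun c _ hx => (C m n).smul_mem c hx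

/-- The diagonal matrix of the signs of the words on `I`. -/
def Kd (k : Type*) [Field k] {ι : Type} [DecidableEq ι] (odd : ι → Bool) (I : Type) [Fintype I] :
    Matrix (I → ι) (I → ι) k := Matrix.diagonal fun x => ∏ i, sgn k odd (x i)

/-- `K Q = {K G | G ∈ Q}`. -/
def tw {a b : Type*} [Fintype a] (K : Matrix a a k) (Q : Submodule k (Matrix a b k)) :
    Submodule k (Matrix a b k) :=
  Q.map ({ toFun := fun G => K * G
           map_add' := fun F G => Matrix.mul_add K F G
           map_smul' := fun c F => Matrix.mul_smul K c F } :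
           Matrix a b k →ₗ[k] Matrix a b k)

theorem mem_rad_tw {a b : Type*} [Fintype a] [Fintype b] (K : Matrix a a k)
    (Q : Submodule k (Matrix a b k)) (F : Matrix b a k) :
    F ∈ rad (tw K Q) ↔ ∀ G ∈ Q, trace (K * G * F) = 0 := by
  constructor
  · intro h G hG
    exact h (K * G) ⟨G, hG, rfl⟩
  · rintro h _ ⟨G, hG, rfl⟩
    exact h G hG

/-- The rank of the pairing `(F, G) ↦ str (G F)` between `X Hom(I, J) Y` and `Hom(J, I)`. -/
noncomputable def srk (odd : ι → Bool) (C : ∀ m n : ℕ, Submodule k (Mor k ι m n)) {m n : ℕ}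
    {I J : Type} [Fintype I] [Fintype J] [DecidableEq I] [DecidableEq J]
    (a : Fin m ≃ I) (b : Fin n ≃ J) (X : Matrix (J → ι) (J → ι) k)
    (Y : Matrix (I → ι) (I → ι) k) : ℕ :=
  prk (sand X (Hm C a b) Y) (tw (Kd k odd I) (Hm C b a))

variable {odd : ι → Bool} {B : Matrix ι ι k} {C : ∀ m n : ℕ, Submodule k (Mor k ι m n)}

theorem Hm_refl (m n : ℕ) : Hm C (Equiv.refl (Fin m)) (Equiv.refl (Fin n)) = C m n := rfl

theorem Hm_cast_left {m m' n : ℕ} {I J : Type} (h : m = m') (a : Fin m' ≃ I) (b : Fin n ≃ J) :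
    Hm C ((finCongr h).trans a) b = Hm C a b := by
  subst h
  rfl

theorem Hm_cast_right {m n n' : ℕ} {I J : Type} (h : n = n') (a : Fin m ≃ I) (b : Fin n' ≃ J) :
    Hm C a ((finCongr h).trans b) = Hm C a b := by
  subst h
  rfl

theorem Hm_rei_iff {m n : ℕ} {I J I' J' : Type} (a : Fin m ≃ I) (b : Fin n ≃ J) (e : I' ≃ I)
    (e' : J' ≃ J) (F : Matrix (J → ι) (I → ι) k) :
    rei e e' F ∈ Hm C (a.trans e.symm) (b.trans e'.symm) ↔ F ∈ Hm C a b := by
  change rei (a.trans e.symm) (b.trans e'.symm) (rei e e' F) ∈ C m n ↔ rei a b F ∈ C m n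
  rw [Hom_rei_rei]
  have h1 : (a.trans e.symm).trans e = a := by
    ext i
    simp
  have h2 : (b.trans e'.symm).trans e' = b := by
    ext i
    simp
  rw [h1, h2]

/-- Relabelling along maps which respect the enumerations. -/
theorem Hm_rei {m n m' n' : ℕ} {I J I' J' : Type} {a : Fin m ≃ I} {b : Fin n ≃ J}
    {a' : Fin m' ≃ I'} {b' : Fin n' ≃ J'} (hm : m' = m) (hn : n' = n) (e : I' ≃ I)
    (e' : J' ≃ J) (ha : a'.trans e = (finCongr hm).trans a)
    (hb : b'.trans e' = (finCongr hn).trans b) {F : Matrix (J → ι) (I → ι) k}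
    (hF : F ∈ Hm C a b) : rei e e' F ∈ Hm C a' b' := by
  subst hm
  subst hn
  change rei a' b' (rei e e' F) ∈ C m' n'
  rw [Hom_rei_rei, ha, hb]
  exact hF

theorem Hm_one (hC : IsSuperFamily odd B C) {m : ℕ} {I : Type} [Fintype I] [DecidableEq I]
    (a : Fin m ≃ I) : (1 : Matrix (I → ι) (I → ι) k) ∈ Hm C a a := by
  change rei a a (1 : Matrix (I → ι) (I → ι) k) ∈ C m m
  have h1 : rei a a (1 : Matrix (I → ι) (I → ι) k) = 1 := by
    ext x y
    simp only [rei, Matrix.one_apply]
    by_cases h : x = y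
    · rw [if_pos h, if_pos (by rw [h])]
    · rw [if_neg h, if_neg]
      intro h2
      apply h
      funext i
      have h3 := congrFun h2 (a i)
      simpa using h3
  rw [h1]
  exact hC.one_mem m

theorem Hm_mul (hC : IsSuperFamily odd B C) {l m n : ℕ} {I J K : Type} [Fintype J]
    [DecidableEq J] {a : Fin l ≃ I} {b : Fin m ≃ J} {c : Fin n ≃ K}
    {F : Matrix (K → ι) (J → ι) k} {G : Matrix (J → ι) (I → ι) k}
    (hF : F ∈ Hm C b c) (hG : G ∈ Hm C a b) : F * G ∈ Hm C a c := by
  change rei a c (F * G) ∈ C l n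
  rw [Hom_rei_mul a b c]
  exact hC.comp_mem _ _ _ _ _ hF hG

theorem Hm_tsum (hC : IsSuperFamily odd B C) {m n m' n' : ℕ} {I I' J J' : Type}
    {a : Fin m ≃ I} {b : Fin n ≃ J} {a' : Fin m' ≃ I'} {b' : Fin n' ≃ J'}
    {F : Matrix (J → ι) (I → ι) k} {G : Matrix (J' → ι) (I' → ι) k}
    (hF : F ∈ Hm C a b) (hG : G ∈ Hm C a' b') : tsum F G ∈ Hm C (sm a a') (sm b b') := by
  have h := hC.tens_mem _ _ _ _ _ _ hF hG
  change rei (sm a a') (sm b b') (tsum F G) ∈ C (m + m') (n + n')
  have h2 : rei (sm a a') (sm b b') (tsum F G) = tens (rei a b F) (rei a' b' G) := by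
    ext x y
    rfl
  rw [h2]
  exact h

theorem Kd_mul_self (I : Type) [Fintype I] [DecidableEq I] :
    Kd k odd I * Kd k odd I = (1 : Matrix (I → ι) (I → ι) k) := by
  rw [Kd, Matrix.diagonal_mul_diagonal, ← Matrix.diagonal_one]
  congr 1
  funext x
  rw [← Finset.prod_mul_distrib]
  refine Finset.prod_eq_one fun i _ => ?_
  unfold sgn
  split_ifs <;> simp

/-- The elements of the family are even. -/
theorem Hm_even (hC : IsSuperFamily odd B C) {m n : ℕ} {I J : Type} [Fintype I] [Fintype J]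
    [DecidableEq I] [DecidableEq J] {a : Fin m ≃ I} {b : Fin n ≃ J}
    {F : Matrix (J → ι) (I → ι) k} (hF : F ∈ Hm C a b) :
    Kd k odd J * F = F * Kd k odd I := by
  ext x y
  rw [Kd, Kd, Matrix.diagonal_mul, Matrix.mul_diagonal]
  by_cases h : F x y = 0
  · rw [h, mul_zero, zero_mul]
  · have h1 : rei a b F (x ∘ b) (y ∘ a) ≠ 0 := by
      have : rei a b F (x ∘ b) (y ∘ a) = F x y := by
        simp only [rei]
        congr 1
        · funext j
          simp
        · funext i
          simp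
      rw [this]
      exact h
    have h2 := hC.even_mem _ _ _ hF _ _ h1
    have h3 : ∏ i, sgn k odd ((x ∘ b) i) = ∏ j, sgn k odd (x j) :=
      Equiv.prod_comp b fun j => sgn k odd (x j)
    have h4 : ∏ i, sgn k odd ((y ∘ a) i) = ∏ j, sgn k odd (y j) :=
      Equiv.prod_comp a fun j => sgn k odd (y j)
    rw [h3, h4] at h2
    rw [h2, mul_comm]

end MP021685Y
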