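import Pool.Agent.Lib.MP_021685_agY.Hm

/-!
# Every permutation of the factors is in the family, with some signs

LEAF. Let `S` be the set of `σ : Equiv.Perm (Fin m)` for which such an element exists. It is a
submonoid: the product of the elements for `σ` and `τ` is the element for `σ * τ` or `τ * σ` (signs
`ε x * ε' (x ∘ σ)`). It contains the adjacent transpositions: for `m = i + (2 + j)` the element
`tens 1 (tens (swapMor k odd) 1)` (with a cast of the numbers of slots; `Fin.castAdd`, `Fin.natAdd`).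
`Equiv.Perm.mclosure_swap_castSucc_succ` (the adjacent transpositions generate).
-/

set_option autoImplicit false
set_option linter.unusedSectionVars false

namespace MP021685Y

open Matrix MP021685Z

variable {k : Type*} [Field k] {ι : Type} [Fintype ι] [DecidableEq ι]

variable {odd : ι → Bool} {B : Matrix ι ι k} {C : ∀ m n : ℕ, Submodule k (Mor k ι m n)}

/-- The permutation `σ` of the factors with the signs `ε`. -/
def monMor (k : Type*) [Field k] {ι : Type} [DecidableEq ι] {m : ℕ} (σ : Equiv.Perm (Fin m))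
    (ε : (Fin m → ι) → ℤˣ) : Mor k ι m m :=
  fun x y => if y = x ∘ σ then ((ε x : ℤ) : k) else 0

theorem Perm_one (m : ℕ) : monMor k (1 : Equiv.Perm (Fin m)) (fun _ => 1) = (1 : Mor k ι m m) := by
  ext x y
  unfold monMor
  rw [Matrix.one_apply]
  by_cases h : y = x
  · subst h
    rw [if_pos (by rfl), if_pos rfl]
    simp
  · rw [if_neg (fun h' => h (by simpa using h')), if_neg (fun h' => h h'.symm)]

theorem Perm_mul {m : ℕ} (σ τ : Equiv.Perm (Fin m)) (ε ε' : (Fin m → ι) → ℤˣ) :
    monMor k σ ε * monMor k τ ε' = monMor k (σ * τ) (fun x => ε x * ε' (x ∘ σ)) := by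
  ext x y
  rw [Matrix.mul_apply, Finset.sum_eq_single (x ∘ σ)]
  · unfold monMor
    rw [if_pos rfl]
    have h : (x ∘ ⇑(σ * τ)) = (x ∘ ⇑σ) ∘ ⇑τ := by
      funext i
      rfl
    rw [h]
    split_ifs
    · push_cast
      rfl
    · rw [mul_zero]
  · intro z _ hz
    unfold monMor
    rw [if_neg hz, zero_mul]
  · intro h
    exact absurd (Finset.mem_univ _) h

/-- The permutation `σ` of the first `m` and `τ` of the last `m'` factors. -/
def Perm_sum {m m' : ℕ} (σ : Equiv.Perm (Fin m)) (τ : Equiv.Perm (Fin m')) :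
    Equiv.Perm (Fin (m + m')) :=
  finSumFinEquiv.permCongr (Equiv.sumCongr σ τ)

theorem Perm_sum_left {m m' : ℕ} (σ : Equiv.Perm (Fin m)) (τ : Equiv.Perm (Fin m')) (i : Fin m) :
    Perm_sum σ τ (Fin.castAdd m' i) = Fin.castAdd m' (σ i) := by
  simp [Perm_sum, Equiv.permCongr_apply]

theorem Perm_sum_right {m m' : ℕ} (σ : Equiv.Perm (Fin m)) (τ : Equiv.Perm (Fin m'))
    (i : Fin m') : Perm_sum σ τ (Fin.natAdd m i) = Fin.natAdd m (τ i) := by
  simp [Perm_sum, Equiv.permCongr_apply]

theorem Perm_tens {m m' : ℕ} (σ : Equiv.Perm (Fin m)) (τ : Equiv.Perm (Fin m'))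
    (ε : (Fin m → ι) → ℤˣ) (ε' : (Fin m' → ι) → ℤˣ) :
    tens (monMor k σ ε) (monMor k τ ε') = monMor k (Perm_sum σ τ)
      (fun x => ε (fun i => x (Fin.castAdd m' i)) * ε' (fun i => x (Fin.natAdd m i))) := by
  ext x y
  have h : y = x ∘ ⇑(Perm_sum σ τ) ↔
      (fun i => y (Fin.castAdd m' i)) = (fun i => x (Fin.castAdd m' i)) ∘ ⇑σ ∧
      (fun i => y (Fin.natAdd m i)) = (fun i => x (Fin.natAdd m i)) ∘ ⇑τ := by
    constructor
    · intro h
      subst h
      constructor
      · funext i
        simp [Perm_sum_left]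
      · funext i
        simp [Perm_sum_right]
    · rintro ⟨h1, h2⟩
      funext i
      refine Fin.addCases (fun i => ?_) (fun i => ?_) i
      · have := congrFun h1 i
        simpa [Perm_sum_left] using this
      · have := congrFun h2 i
        simpa [Perm_sum_right] using this
  unfold tens monMor
  by_cases h1 : (fun i => y (Fin.castAdd m' i)) = (fun i => x (Fin.castAdd m' i)) ∘ ⇑σ
  · by_cases h2 : (fun i => y (Fin.natAdd m i)) = (fun i => x (Fin.natAdd m i)) ∘ ⇑τ
    · rw [if_pos h1, if_pos h2, if_pos (h.2 ⟨h1, h2⟩)]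
      push_cast
      rfl
    · rw [if_neg h2, if_neg (fun h' => h2 (h.1 h').2), mul_zero]
  · rw [if_neg h1, if_neg (fun h' => h1 (h.1 h').1), zero_mul]

/-- The signs of the exchange of two factors. -/
def Perm_eps (odd : ι → Bool) (x : Fin 2 → ι) : ℤˣ := if odd (x 0) && odd (x 1) then -1 else 1

theorem Perm_swapMor : swapMor k odd = monMor k (Equiv.swap (0 : Fin 2) 1) (Perm_eps odd) := by
  ext x y
  have h : y = x ∘ ⇑(Equiv.swap (0 : Fin 2) 1) ↔ y 0 = x 1 ∧ y 1 = x 0 := by
    constructor
    · intro h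
      subst h
      simp
    · rintro ⟨h1, h2⟩
      funext i
      fin_cases i
      · simpa using h1
      · simpa using h2
  unfold swapMor monMor Perm_eps
  by_cases h1 : y 0 = x 1 ∧ y 1 = x 0
  · rw [if_pos h1, if_pos (h.2 h1)]
    split_ifs <;> simp
  · rw [if_neg h1, if_neg (fun h' => h1 (h.1 h'))]

/-- The permutations for which such an element exists. -/
def Perm_S (hC : IsSuperFamily odd B C) (m : ℕ) : Submonoid (Equiv.Perm (Fin m)) where
  carrier := {σ | ∃ ε : (Fin m → ι) → ℤˣ, monMor k σ ε ∈ C m m}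
  one_mem' := ⟨fun _ => 1, by
    rw [Perm_one]
    exact hC.one_mem m⟩
  mul_mem' := by
    rintro σ τ ⟨ε, h⟩ ⟨ε', h'⟩
    refine ⟨fun x => ε x * ε' (x ∘ σ), ?_⟩
    rw [← Perm_mul]
    exact hC.comp_mem _ _ _ _ _ h h'

theorem Perm_adj (hC : IsSuperFamily odd B C) {m : ℕ} (i j : ℕ) (hm : m = i + (2 + j))
    (a b : Fin m) (ha : (a : ℕ) = i) (hb : (b : ℕ) = i + 1) : Equiv.swap a b ∈ Perm_S hC m := by
  subst hm
  have h1 : (Perm_sum (1 : Equiv.Perm (Fin i))
      (Perm_sum (Equiv.swap (0 : Fin 2) 1) (1 : Equiv.Perm (Fin j)))) ∈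
        Perm_S hC (i + (2 + j)) := by
    have h2 := hC.tens_mem _ _ _ _ _ _ (hC.one_mem i)
      (hC.tens_mem _ _ _ _ _ _ hC.swap_mem (hC.one_mem j))
    rw [Perm_swapMor, ← Perm_one, ← Perm_one, Perm_tens, Perm_tens] at h2
    exact ⟨_, h2⟩
  have h3 : Perm_sum (1 : Equiv.Perm (Fin i))
      (Perm_sum (Equiv.swap (0 : Fin 2) 1) (1 : Equiv.Perm (Fin j))) = Equiv.swap a b := by
    have ea : a = Fin.natAdd i (Fin.castAdd j (0 : Fin 2)) := Fin.ext (by simp [ha])
    have eb : b = Fin.natAdd i (Fin.castAdd j (1 : Fin 2)) := Fin.ext (by simp [hb])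
    refine Equiv.ext fun t => ?_
    refine Fin.addCases (fun t => ?_) (fun t => ?_) t
    · rw [Perm_sum_left, Equiv.swap_apply_of_ne_of_ne]
      · rfl
      · intro h
        have := congrArg Fin.val h
        simp [ha] at this
        omega
      · intro h
        have := congrArg Fin.val h
        simp [hb] at this
        omega
    · rw [Perm_sum_right]
      refine Fin.addCases (fun t => ?_) (fun t => ?_) t
      · rw [Perm_sum_left]
        fin_cases t
        · show Fin.natAdd i (Fin.castAdd j (Equiv.swap (0 : Fin 2) 1 0)) =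
            Equiv.swap a b (Fin.natAdd i (Fin.castAdd j (0 : Fin 2)))
          rw [← ea, Equiv.swap_apply_left, Equiv.swap_apply_left, eb]
        · show Fin.natAdd i (Fin.castAdd j (Equiv.swap (0 : Fin 2) 1 1)) =
            Equiv.swap a b (Fin.natAdd i (Fin.castAdd j (1 : Fin 2)))
          rw [← eb, Equiv.swap_apply_right, Equiv.swap_apply_right, ea]
      · rw [Perm_sum_right, Equiv.swap_apply_of_ne_of_ne]
        · rfl
        · intro h
          have := congrArg Fin.val h
          simp [ha] at this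
        · intro h
          have := congrArg Fin.val h
          simp [hb] at this
          omega
  rw [← h3]
  exact h1

theorem exists_monMor (hC : IsSuperFamily odd B C) (m : ℕ) (σ : Equiv.Perm (Fin m)) :
    ∃ ε : (Fin m → ι) → ℤˣ, monMor k σ ε ∈ C m m := by
  have h : σ ∈ Perm_S hC m := by
    cases m with
    | zero =>
      have h0 : σ = 1 := Subsingleton.elim _ _
      rw [h0]
      exact Submonoid.one_mem _
    | succ n =>
      have h1 : Submonoid.closure (Set.range fun i : Fin n => Equiv.swap i.castSucc i.succ) ≤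
          Perm_S hC (n + 1) := by
        rw [Submonoid.closure_le]
        rintro _ ⟨i, rfl⟩
        exact Perm_adj hC i (n - 1 - i) (by omega) _ _ (by simp) (by simp)
      rw [Equiv.Perm.mclosure_swap_castSucc_succ] at h1
      exact h1 (Submonoid.mem_top σ)
  exact h

end MP021685Y
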