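import Pool.Agent.Lib.MP_021685_agY.QA

/-!
# Nakayama and the dimension of a stable space, with a supertrace

LEAF. Guide: `MP021685Z.QA_nil`, `QA_types` (`agZ/QA.lean`), `QB_jac`, `QB_nak`, `QB_dim`
(`agZ/QB.lean`). `P` is an algebra of matrices, `K * K = 1`, `K` commutes with `P`; the radical is
`rad (tw K P) = {x | tr (K y x) = 0 for all y ∈ P}` (`mem_rad_tw`), and by hypothesis (`hneg`) it
contains no nonzero idempotent of `P`.

`QA_nil'`: as `QA_nil`; the idempotent `e = aeval x (..) * x` is in `P` and in the radical (`tr (K G e) =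
tr (K (G * aeval ..) x) = 0`), so `e = 0` by `hneg`.
`QA_types'`: the linear form is `τ z = tr (K z)`: `τ (z w) = τ (w z)` and `τ = 0` on nilpotent elements
since `K` commutes with `P`. `tr (K * t i) ≠ 0`: otherwise for all `z ∈ P`
`tr (K z t) = tr (K t z t) = c tr (K t) = 0` (third property, with `1 ∈ P`), so `t` is in the radical
and in `P`, an idempotent, `t = 0` by `hneg`, but `ψ t ≠ 0`.
`QB_nak'`, `QB_dim'`: as the old ones with `QA_nil'`.
-/

set_option autoImplicit false
set_option linter.unusedSectionVars false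

namespace MP021685Y

open Matrix MP021685Z

section QB

variable {k : Type*} [Field k] {a : Type*} [Fintype a] [DecidableEq a]

/-- The radical is in the Jacobson radical. -/
theorem QB_jac' (K : Matrix a a k) (P : Submodule k (Matrix a a k))
    (h1 : (1 : Matrix a a k) ∈ P) (hmul : ∀ x ∈ P, ∀ y ∈ P, x * y ∈ P)
    (hneg : ∀ e ∈ P, e * e = e → e ∈ rad (tw K P) → e = 0) (x : QA_alg P h1 hmul)
    (hr : (x : Matrix a a k) ∈ rad (tw K P)) : x ∈ Ring.jacobson (QA_alg P h1 hmul) := by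
  rw [← Ideal.jacobson_bot, Ideal.mem_jacobson_iff]
  intro y
  have h2 : ((y * x : QA_alg P h1 hmul) : Matrix a a k) ∈ rad (tw K P) := by
    rw [mem_rad_tw] at hr ⊢
    intro G hG
    have h3 : ((y * x : QA_alg P h1 hmul) : Matrix a a k) =
        (y : Matrix a a k) * (x : Matrix a a k) := rfl
    have h4 : K * G * ((y * x : QA_alg P h1 hmul) : Matrix a a k) =
        K * (G * (y : Matrix a a k)) * (x : Matrix a a k) := by
      rw [h3]
      simp only [Matrix.mul_assoc]
    rw [h4]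
    exact hr _ (hmul _ hG _ y.2)
  obtain ⟨m, hm⟩ := QA_nil' K P h1 hmul hneg (y * x).2 h2
  have h4 : IsNilpotent (y * x) := ⟨m, Subtype.ext hm⟩
  obtain ⟨z, hz⟩ := h4.isUnit_one_add
  refine ⟨↑z⁻¹, ?_⟩
  rw [Ideal.mem_bot, sub_eq_zero, mul_assoc]
  calc (↑z⁻¹ : QA_alg P h1 hmul) * (y * x) + ↑z⁻¹ = ↑z⁻¹ * (1 + y * x) := by
        rw [mul_add, mul_one, add_comm]
    _ = 1 := by rw [← hz, Units.inv_mul]

/-- Nakayama. -/
theorem QB_nak' (K : Matrix a a k) (P : Submodule k (Matrix a a k))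
    (h1 : (1 : Matrix a a k) ∈ P) (hmul : ∀ x ∈ P, ∀ y ∈ P, x * y ∈ P)
    (hneg : ∀ e ∈ P, e * e = e → e ∈ rad (tw K P) → e = 0) {b : Type*} [Fintype b]
    (v : b → (a → k)) (ν : b → b → Matrix a a k) (hν : ∀ j i, ν j i ∈ P ∧ ν j i ∈ rad (tw K P))
    (hv : ∀ j, v j = ∑ i, ν j i *ᵥ v i) : v = 0 := by
  classical
  let f : QA_alg P h1 hmul →+* Module.End k (a → k) :=
    (Matrix.toLinAlgEquiv' : Matrix a a k ≃ₐ[k] ((a → k) →ₗ[k] a → k)).toAlgHom.toRingHom.comp
      (QA_alg P h1 hmul).val.toRingHom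
  let _ : Module (QA_alg P h1 hmul) (a → k) := Module.compHom _ f
  exact QB_nak_abs (R := QA_alg P h1 hmul) v (fun j i => ⟨ν j i, (hν j i).1⟩)
    (fun j i => QB_jac' K P h1 hmul hneg _ (hν j i).2) hv

/-- The dimension of a stable subspace. -/
theorem QB_dim' [CharZero k] (K : Matrix a a k) (P : Submodule k (Matrix a a k))
    (h1 : (1 : Matrix a a k) ∈ P) (hmul : ∀ x ∈ P, ∀ y ∈ P, x * y ∈ P)
    (hneg : ∀ e ∈ P, e * e = e → e ∈ rad (tw K P) → e = 0) (W : Submodule k (a → k))
    (hW : ∀ x ∈ P, ∀ u ∈ W, x *ᵥ u ∈ W) {l : ℕ} {d : Fin l → ℕ} {t : Fin l → Matrix a a k}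
    {x y : ∀ i, Fin (d i) → Matrix a a k} (ht : ∀ i, t i ∈ P ∧ t i * t i = t i)
    (hxy : ∀ i α, x i α ∈ P ∧ y i α ∈ P)
    (hyx : ∀ i α β, y i α * x i β - (if α = β then t i else 0) ∈ rad (tw K P))
    (hsum : 1 - ∑ i, ∑ α, x i α * y i α ∈ rad (tw K P)) :
    Module.finrank k W = ∑ i, d i * Module.finrank k (W.map (t i).mulVecLin) := by
  classical
  set ρ := QB_rho P h1 hmul W hW with hρ
  let T : QA_alg P h1 hmul →ₗ[k] k := (LinearMap.trace k W).comp ρ.toLinearMap
  have hT : ∀ z w, T (z * w) = T (w * z) := by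
    intro z w
    change LinearMap.trace k W (ρ (z * w)) = LinearMap.trace k W (ρ (w * z))
    rw [map_mul ρ, map_mul ρ]
    exact LinearMap.trace_mul_comm k _ _
  have hT0 : ∀ z : QA_alg P h1 hmul, (z : Matrix a a k) ∈ rad (tw K P) → T z = 0 := by
    intro z hz
    obtain ⟨m, hm⟩ := QA_nil' K P h1 hmul hneg z.2 hz
    have h4 : IsNilpotent z := ⟨m, Subtype.ext hm⟩
    have h5 : IsNilpotent (ρ z) := h4.map ρ
    exact (LinearMap.isNilpotent_trace_of_isNilpotent h5).eq_zero
  have hT1 : T 1 = (Module.finrank k W : k) := by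
    change LinearMap.trace k W (ρ 1) = _
    rw [map_one]
    exact LinearMap.trace_one k W
  have hTt : ∀ i, T ⟨t i, (ht i).1⟩ = (Module.finrank k (W.map (t i).mulVecLin) : k) := by
    intro i
    let F : W →ₗ[k] W := ρ ⟨t i, (ht i).1⟩
    have h6 : IsIdempotentElem F := by
      change ρ ⟨t i, (ht i).1⟩ * ρ ⟨t i, (ht i).1⟩ = ρ ⟨t i, (ht i).1⟩
      rw [← map_mul]
      congr 1
      exact Subtype.ext (ht i).2
    have h7 := QB_trace_idem F h6
    change LinearMap.trace k W F = _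
    rw [h7]
    congr 1
    have h8 : (LinearMap.range F).map W.subtype = W.map (t i).mulVecLin := by
      ext w
      constructor
      · rintro ⟨_, ⟨u, rfl⟩, rfl⟩
        exact ⟨u, u.2, rfl⟩
      · rintro ⟨u, hu, rfl⟩
        exact ⟨_, ⟨⟨u, hu⟩, rfl⟩, rfl⟩
    rw [← h8]
    exact (LinearEquiv.finrank_eq (Submodule.equivMapOfInjective W.subtype W.injective_subtype _))
  have hmain : (Module.finrank k W : k) =
      ((∑ i, d i * Module.finrank k (W.map (t i).mulVecLin) : ℕ) : k) := by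
    rw [← hT1]
    let X : ∀ i, Fin (d i) → QA_alg P h1 hmul := fun i α => ⟨x i α, (hxy i α).1⟩
    let Y : ∀ i, Fin (d i) → QA_alg P h1 hmul := fun i α => ⟨y i α, (hxy i α).2⟩
    have h9 : T (1 - ∑ i, ∑ α, X i α * Y i α) = 0 := by
      apply hT0
      have h10 : ((1 - ∑ i, ∑ α, X i α * Y i α : QA_alg P h1 hmul) : Matrix a a k) =
          1 - ∑ i, ∑ α, x i α * y i α := by
        rw [AddSubgroupClass.coe_sub, AddSubmonoidClass.coe_finsetSum]
        congr 1
        refine Finset.sum_congr rfl fun i _ => ?_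
        rw [AddSubmonoidClass.coe_finsetSum]
        rfl
      rw [h10]
      exact hsum
    rw [map_sub, sub_eq_zero] at h9
    rw [h9, map_sum]
    push_cast
    refine Finset.sum_congr rfl fun i _ => ?_
    rw [map_sum]
    have h11 : ∀ α, T (X i α * Y i α) = (Module.finrank k (W.map (t i).mulVecLin) : k) := by
      intro α
      rw [hT, ← hTt i]
      have h12 : T (Y i α * X i α - ⟨t i, (ht i).1⟩) = 0 := by
        apply hT0
        have h13 := hyx i α α
        rw [if_pos rfl] at h13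
        exact h13
      rw [map_sub, sub_eq_zero] at h12
      exact h12
    rw [Finset.sum_congr rfl fun α _ => h11 α, Finset.sum_const, Finset.card_univ,
      Fintype.card_fin, nsmul_eq_mul]
  exact_mod_cast hmain

end QB

end MP021685Y
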