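import Pool.Agent.Lib.MP_021685_agY.QB
import Pool.Agent.Lib.MP_021685_agZ.QC

/-!
# The lower bound for the dimension of a stable space, with a supertrace

LEAF. Guide: `MP021685Z.QC_lower`, `QC_size` (`agZ/QC.lean`; `QC_lift` may be used as it is, with
`tw K Q` in place of `Q`: its dual elements are `K * g`, `g ∈ Q`).

`QC_lower'`: choose `F i α ∈ M` and `g i β ∈ Q` with `tr (K g_β F_α t_i) = δ tr (K t_i)`; the map
`(v_{i α}) ↦ ∑ F_{i α} v_{i α}` on `∏_i (t_i W)^{h_i}` is injective by Nakayama (`QB_nak'`):
`t_i g_β F_α t_j` is in the radical for `i ≠ j`, and `≡ c t_i` for `i = j` with `c = δ_{β α}` because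
`tr (K t_i g F t_i) = tr (K g F t_i)` (`K` commutes with `t_i`, `t_i² = t_i`) and `tr (K t_i) ≠ 0`.
`QC_size'`: the `d` classes of `x_α t` in `P / rad` are independent since
`tr (K y_β x_α t) = δ tr (K t)`.
-/

set_option autoImplicit false
set_option linter.unusedSectionVars false

namespace MP021685Y

open Matrix MP021685Z

section QC

variable {k : Type*} [Field k] {a b : Type*} [Fintype a] [DecidableEq a] [Fintype b]
  [DecidableEq b]

/-- **The lower bound.** -/
theorem QC_lower' [CharZero k] (K : Matrix a a k) (P : Submodule k (Matrix a a k))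
    (hK : ∀ x ∈ P, K * x = x * K) (h1 : (1 : Matrix a a k) ∈ P)
    (hmul : ∀ x ∈ P, ∀ y ∈ P, x * y ∈ P)
    (hneg : ∀ e ∈ P, e * e = e → e ∈ rad (tw K P) → e = 0) (M : Submodule k (Matrix b a k))
    (Q : Submodule k (Matrix a b k)) (hQM : ∀ g ∈ Q, ∀ F ∈ M, g * F ∈ P)
    (W : Submodule k (a → k)) (W' : Submodule k (b → k)) (hMW : ∀ F ∈ M, ∀ u ∈ W, F *ᵥ u ∈ W')
    (hPW : ∀ x ∈ P, ∀ u ∈ W, x *ᵥ u ∈ W) {l : ℕ} {t : Fin l → Matrix a a k}
    (ht : ∀ i, t i ∈ P ∧ t i * t i = t i ∧ trace (K * t i) ≠ 0)
    (hdis : ∀ i j, i ≠ j → ∀ z ∈ P, t i * z * t j ∈ rad (tw K P))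
    (hprim : ∀ i, ∀ z ∈ P, ∃ c : k, t i * z * t i - c • t i ∈ rad (tw K P)) :
    ∑ i, prk (sand 1 M (t i)) (tw K Q) * Module.finrank k (W.map (t i).mulVecLin) ≤
      Module.finrank k W' := by
  classical
  have hlift := fun i => QC_lift M (tw K Q) (t i) (trace (K * t i))
  choose F g' hF hg' hfg' using hlift
  have hgg : ∀ i α, ∃ G ∈ Q, K * G = g' i α := fun i α => by
    obtain ⟨G, hG, hG2⟩ := hg' i α
    exact ⟨G, hG, hG2⟩
  choose g hg hKg using hgg
  have hfg : ∀ i β α, trace (K * (g i β * F i α) * t i) = if β = α then trace (K * t i) else 0 := by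
    intro i β α
    rw [← hfg' i β α, ← hKg, Matrix.mul_assoc, Matrix.mul_assoc, Matrix.mul_assoc]
  -- the linear map
  let D := ∀ i, Fin (prk (sand 1 M (t i)) (tw K Q)) → (W.map (t i).mulVecLin : Submodule k (a → k))
  have hmem : ∀ i (u : (W.map (t i).mulVecLin : Submodule k (a → k))), (u : a → k) ∈ W ∧
      t i *ᵥ (u : a → k) = u := by
    rintro i ⟨_, w, hw, rfl⟩
    refine ⟨hPW _ (ht i).1 w hw, ?_⟩
    change t i *ᵥ (t i *ᵥ w) = t i *ᵥ w
    rw [Matrix.mulVec_mulVec, (ht i).2.1]
  let Φ : D →ₗ[k] W' :=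
    { toFun := fun v => ⟨∑ i, ∑ α, F i α *ᵥ ((v i α : a → k)), by
        refine Submodule.sum_mem _ fun i _ => Submodule.sum_mem _ fun α _ => ?_
        exact hMW _ (hF i α) _ (hmem i (v i α)).1⟩
      map_add' := fun v w => by
        apply Subtype.ext
        change ∑ i, ∑ α, F i α *ᵥ (((v i α : a → k)) + (w i α : a → k)) =
          ∑ i, ∑ α, F i α *ᵥ ((v i α : a → k)) + ∑ i, ∑ α, F i α *ᵥ ((w i α : a → k))
        rw [← Finset.sum_add_distrib]
        refine Finset.sum_congr rfl fun i _ => ?_
        rw [← Finset.sum_add_distrib]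
        refine Finset.sum_congr rfl fun α _ => ?_
        rw [Matrix.mulVec_add]
      map_smul' := fun c v => by
        apply Subtype.ext
        change ∑ i, ∑ α, F i α *ᵥ (c • ((v i α : a → k))) =
          c • ∑ i, ∑ α, F i α *ᵥ ((v i α : a → k))
        rw [Finset.smul_sum]
        refine Finset.sum_congr rfl fun i _ => ?_
        rw [Finset.smul_sum]
        refine Finset.sum_congr rfl fun α _ => ?_
        rw [Matrix.mulVec_smul] }
  have hinj : Function.Injective Φ := by
    rw [injective_iff_map_eq_zero]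
    intro v hv
    have hv0 : ∑ i, ∑ α, F i α *ᵥ ((v i α : a → k)) = 0 := congrArg Subtype.val hv
    let idx := Σ i, Fin (prk (sand 1 M (t i)) (tw K Q))
    let w : idx → (a → k) := fun p => (v p.1 p.2 : a → k)
    let ν : idx → idx → Matrix a a k := fun p p' =>
      (if p = p' then t p.1 else 0) - t p.1 * (g p.1 p.2 * F p'.1 p'.2) * t p'.1
    have hν : ∀ p p', ν p p' ∈ P ∧ ν p p' ∈ rad (tw K P) := by
      intro p p'
      have hz : g p.1 p.2 * F p'.1 p'.2 ∈ P := hQM _ (hg _ _) _ (hF _ _)
      have hzt : t p.1 * (g p.1 p.2 * F p'.1 p'.2) * t p'.1 ∈ P :=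
        hmul _ (hmul _ (ht _).1 _ hz) _ (ht _).1
      refine ⟨?_, ?_⟩
      · refine P.sub_mem ?_ hzt
        by_cases h : p = p'
        · rw [if_pos h]
          exact (ht _).1
        · rw [if_neg h]
          exact P.zero_mem
      · obtain ⟨i, β⟩ := p
        obtain ⟨j, α⟩ := p'
        by_cases hij : i = j
        · subst hij
          obtain ⟨c, hc⟩ := hprim i _ hz
          have htr := hfg i β α
          have hc2 : trace (K * (t i * (g i β * F i α) * t i)) = c * trace (K * t i) := by
            have h3 := (mem_rad_tw K P _).1 hc 1 h1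
            rw [Matrix.mul_one, Matrix.mul_sub, trace_sub, Matrix.mul_smul, trace_smul,
              smul_eq_mul, sub_eq_zero] at h3
            exact h3
          have hc3 : c = if β = α then 1 else 0 := by
            have h7 : trace (K * (t i * (g i β * F i α) * t i)) =
                trace (K * (g i β * F i α) * t i) := by
              have e1 : K * (t i * (g i β * F i α) * t i) =
                  t i * (K * (g i β * F i α) * t i) := by
                rw [← Matrix.mul_assoc, ← Matrix.mul_assoc, hK _ (ht i).1]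
                simp only [Matrix.mul_assoc]
              rw [e1, Matrix.trace_mul_comm, Matrix.mul_assoc, (ht i).2.1]
            rw [h7, htr] at hc2
            by_cases h : β = α
            · rw [if_pos h] at hc2 ⊢
              have h4 : (1 - c) * trace (K * t i) = 0 := by
                rw [sub_mul, one_mul, ← hc2, sub_self]
              rcases mul_eq_zero.1 h4 with h5 | h5
              · exact (sub_eq_zero.1 h5).symm
              · exact absurd h5 (ht i).2.2
            · rw [if_neg h] at hc2 ⊢
              rcases mul_eq_zero.1 hc2.symm with h5 | h5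
              · exact h5
              · exact absurd h5 (ht i).2.2
          have h6 : ν ⟨i, β⟩ ⟨i, α⟩ = -(t i * (g i β * F i α) * t i - c • t i) := by
            change (if (⟨i, β⟩ : idx) = ⟨i, α⟩ then t i else 0) - t i * (g i β * F i α) * t i = _
            rw [hc3]
            by_cases h : β = α
            · subst h
              rw [if_pos rfl, if_pos rfl, one_smul, neg_sub]
            · rw [if_neg h, if_neg, zero_smul, sub_zero, zero_sub]
              intro h'
              apply h
              exact eq_of_heq (Sigma.mk.inj h').2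
          rw [h6]
          exact (rad (tw K P)).neg_mem hc
        · have h6 : ν ⟨i, β⟩ ⟨j, α⟩ = -(t i * (g i β * F j α) * t j) := by
            change (if (⟨i, β⟩ : idx) = ⟨j, α⟩ then t i else 0) - t i * (g i β * F j α) * t j = _
            rw [if_neg, zero_sub]
            intro h'
            exact hij (Sigma.mk.inj h').1
          rw [h6]
          exact (rad (tw K P)).neg_mem (hdis i j hij _ hz)
    have hw : ∀ p, w p = ∑ p', ν p p' *ᵥ w p' := by
      intro p
      have e1 : ∀ p', ν p p' *ᵥ w p' = (if p = p' then w p else 0) -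
          (t p.1 * g p.1 p.2) *ᵥ (F p'.1 p'.2 *ᵥ w p') := by
        intro p'
        change ((if p = p' then t p.1 else 0) - t p.1 * (g p.1 p.2 * F p'.1 p'.2) * t p'.1) *ᵥ
          w p' = _
        rw [Matrix.sub_mulVec]
        congr 1
        · by_cases h : p = p'
          · subst h
            rw [if_pos rfl, if_pos rfl]
            exact (hmem p.1 (v p.1 p.2)).2
          · rw [if_neg h, if_neg h, Matrix.zero_mulVec]
        · have e2 : t p'.1 *ᵥ w p' = w p' := (hmem p'.1 (v p'.1 p'.2)).2
          rw [← Matrix.mulVec_mulVec, e2, Matrix.mulVec_mulVec, Matrix.mul_assoc]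
      rw [Finset.sum_congr rfl fun p' _ => e1 p', Finset.sum_sub_distrib, Finset.sum_ite_eq,
        if_pos (Finset.mem_univ p)]
      have e3 : ∑ p', (t p.1 * g p.1 p.2) *ᵥ (F p'.1 p'.2 *ᵥ w p') = 0 := by
        rw [← Matrix.mulVec_sum, Fintype.sum_sigma]
        change (t p.1 * g p.1 p.2) *ᵥ (∑ i, ∑ α, F i α *ᵥ ((v i α : a → k))) = 0
        rw [hv0, Matrix.mulVec_zero]
      rw [e3, sub_zero]
    have h0 := QB_nak' K P h1 hmul hneg w ν hν hw
    funext i α
    apply Subtype.ext
    exact congrFun h0 ⟨i, α⟩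
  have h9 := LinearMap.finrank_le_finrank_of_injective hinj
  have h10 : Module.finrank k D =
      ∑ i, prk (sand 1 M (t i)) (tw K Q) * Module.finrank k (W.map (t i).mulVecLin) := by
    rw [Module.finrank_pi_fintype]
    refine Finset.sum_congr rfl fun i _ => ?_
    rw [Module.finrank_pi_fintype, Finset.sum_const, Finset.card_univ, Fintype.card_fin,
      smul_eq_mul]
  rw [h10] at h9
  exact h9

/-- The size of a type is at most its numerical rank. -/
theorem QC_size' (K : Matrix a a k) (P : Submodule k (Matrix a a k)) {n : ℕ} {t : Matrix a a k}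
    (hK : ∀ x ∈ P, K * x = x * K) {x y : Fin n → Matrix a a k}
    (ht : t ∈ P ∧ t * t = t ∧ trace (K * t) ≠ 0) (hxy : ∀ α, x α ∈ P ∧ y α ∈ P)
    (hyx : ∀ α β, y α * x β - (if α = β then t else 0) ∈ rad (tw K P)) :
    n ≤ prk (sand 1 P t) (tw K P) := by
  classical
  let ξ : Fin n → ((sand 1 P t).map (rad (tw K P)).mkQ :
      Submodule k (Matrix a a k ⧸ rad (tw K P))) := fun α =>
    ⟨(rad (tw K P)).mkQ (1 * x α * t), Submodule.mem_map_of_mem ⟨x α, (hxy α).1, rfl⟩⟩
  have hli : LinearIndependent k ξ := by
    rw [Fintype.linearIndependent_iff]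
    intro c hc β
    have h1 : (rad (tw K P)).mkQ (∑ α, c α • (x α * t)) = 0 := by
      have h2 := congrArg Subtype.val hc
      rw [AddSubmonoidClass.coe_finsetSum] at h2
      rw [map_sum]
      refine Eq.trans ?_ h2
      refine Finset.sum_congr rfl fun α _ => ?_
      rw [map_smul]
      change _ = c α • (rad (tw K P)).mkQ (1 * x α * t)
      rw [Matrix.one_mul]
    rw [Submodule.mkQ_apply, Submodule.Quotient.mk_eq_zero] at h1
    have h3 := (mem_rad_tw K P _).1 h1 _ (hxy β).2
    rw [Matrix.mul_sum, trace_sum] at h3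
    have h4 : ∀ α, trace (K * y β * (c α • (x α * t))) =
        if β = α then c α * trace (K * t) else 0 := by
      intro α
      have h5 := (mem_rad_tw K P _).1 (hyx β α) t ht.1
      rw [Matrix.mul_sub, trace_sub, sub_eq_zero] at h5
      rw [Matrix.mul_smul, trace_smul, smul_eq_mul]
      have h6 : trace (K * y β * (x α * t)) = trace (K * t * (y β * x α)) := by
        have e1 : K * y β * (x α * t) = (K * (y β * x α)) * t := by
          simp only [Matrix.mul_assoc]
        rw [e1, Matrix.trace_mul_comm, ← Matrix.mul_assoc, hK _ ht.1]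
      rw [h6, h5]
      by_cases h : β = α
      · rw [if_pos h, if_pos h, Matrix.mul_assoc, ht.2.1]
      · rw [if_neg h, if_neg h, Matrix.mul_zero, trace_zero, mul_zero]
    rw [Finset.sum_congr rfl fun α _ => h4 α, Finset.sum_ite_eq, if_pos (Finset.mem_univ β)] at h3
    rcases mul_eq_zero.1 h3 with h6 | h6
    · exact h6
    · exact absurd h6 ht.2.2
  have h7 := hli.fintype_card_le_finrank
  rw [Fintype.card_fin] at h7
  exact h7

end QC

end MP021685Y
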