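import Pool.Agent.Lib.MP_021685_agY.QC
import Pool.Agent.Lib.MP_021685_agY.AsymB
import Pool.Agent.Lib.MP_021685_agY.GrowU
import Pool.Agent.Lib.MP_021685_agY.Dich
import Pool.Agent.Lib.MP_021685_agZ.QD

/-!
# The limit of the ratio

LEAF. Guide: `MP021685Z.QD_family`, `limit` (`agZ/QD.lean`; `QD_le` can be used as it is).
`dich` for `a n = numRank C n`, `b n = finrank (U n)`, `K = N ^ 2` (`numRank_pos'`, `QD_le`,
`numRank_convex'`, `numRank_two_step`, `numRank_step'`, `growthU`, `U_mono`).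
Case `Ratio C`: the old proof with `K = Kd k odd (Fin n)`, `P = C n n`, `hneg` = `no_neg`,
`QA_types'`, `QB_dim'`, `QC_size'`, `QC_lower'`, `h_le'`, `h_ge'`, `half'`, and
`hk_even_le` for the inequality at even numbers; `Lim_ratio`.
Case `a / b → 0`: `L = 0`; if everything were a class with perfect pairings, `a / b = 1` for all `n`.
-/

set_option autoImplicit false
set_option linter.unusedSectionVars false

namespace MP021685Y

open Matrix Filter Topology MP021685Z

variable {k : Type*} [Field k] {ι : Type} [Fintype ι] [DecidableEq ι]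

variable {odd : ι → Bool} {B : Matrix ι ι k} {C : ∀ m n : ℕ, Submodule k (Mor k ι m n)}
  {U : ∀ n : ℕ, Submodule k ((Fin n → ι) → k)}

/-- The numbers `Q n`. -/
theorem QD_family' [IsAlgClosed k] [CharZero k] (hC : IsSuperFamily odd B C) (hr : Ratio C)
    (hU : IsStable C U) (n : ℕ) : ∃ (l : ℕ) (t : Fin l → Mor k ι n n) (u : Fin l → ℕ),
      (∀ i, t i ∈ C n n ∧ t i * t i = t i) ∧
      Module.finrank k (U n) ≤ ∑ i, hk odd C n n (t i) * u i ∧
      ∀ m, ∑ i, hk odd C n m (t i) * u i ≤ Module.finrank k (U m) := by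
  have h1 : (1 : Mor k ι n n) ∈ C n n := hC.one_mem n
  have hmul : ∀ x ∈ C n n, ∀ y ∈ C n n, x * y ∈ C n n :=
    fun x hx y hy => hC.comp_mem n n n x y hx hy
  have hK : ∀ x ∈ C n n, Kd k odd (Fin n) * x = x * Kd k odd (Fin n) := fun x hx =>
    Hm_even hC (a := Equiv.refl (Fin n)) (b := Equiv.refl (Fin n)) hx
  have hneg : ∀ e ∈ C n n, e * e = e → e ∈ rad (tw (Kd k odd (Fin n)) (C n n)) → e = 0 :=
    fun e he he2 hr' => no_neg hC hr n e he he2 hr'
  obtain ⟨l, d, t, x, y, ht, hdis, hprim, hxy, hyx, hsum⟩ :=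
    QA_types' (Kd k odd (Fin n)) (Kd_mul_self (Fin n)) (C n n) hK h1 hmul hneg
  refine ⟨l, t, fun i => Module.finrank k ((U n).map (t i).mulVecLin),
    fun i => ⟨(ht i).1, (ht i).2.1⟩, ?_, fun m => ?_⟩
  · rw [QB_dim' (Kd k odd (Fin n)) (C n n) h1 hmul hneg (U n)
      (fun x hx u hu => hU.map_mem n n x u hx hu) (fun i => ⟨(ht i).1, (ht i).2.1⟩) hxy hyx hsum]
    refine Finset.sum_le_sum fun i _ => Nat.mul_le_mul_right _ ?_
    exact QC_size' (Kd k odd (Fin n)) (C n n) hK (ht i) (hxy i) (hyx i)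
  · exact QC_lower' (Kd k odd (Fin n)) (C n n) hK h1 hmul hneg (C n m) (C m n)
      (fun g hg F hF => hC.comp_mem n m n g F hg hF) (U n) (U m)
      (fun F hF u hu => hU.map_mem n m F u hF hu) (fun x hx u hu => hU.map_mem n n x u hx hu)
      ht hdis hprim

end MP021685Y
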