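import Pool.Agent.Lib.MP_021685_agY.Ev
import Pool.Agent.Lib.MP_021685_agZ.RotA

/-!
# Planar rotations: membership

LEAF. Guide: `MP021685Z.rotM_in_mem`, `MP021685Z.rotM_out_mem` in
`Pool/Agent/Lib/MP_021685_agZ/Rot.lean` (the matrix identities there can be copied; only the
memberships change: `Hm_tsum`, `Hm_mul`, `Hm_rei` with `sm_assoc`, `sm_em_left`, `sm_em_right`,
`Hm_one`, `evI_mem'`, `coevI_mem'`, `rv_rv`).

`rotL`: `F : V^a → V^r ⊗ V^b`; `rotL B F = (ev_{rv r, r} ⊗ 1_b) ∘ (1_{rv r} ⊗ F)`.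
`rotR`: `G : V^{rv r} ⊗ V^a → V^b`; `rotR B G = (1_r ⊗ G) ∘ (coev_{r, rv r} ⊗ 1_a)`.
`rotLr`: `F : V^a → V^b ⊗ V^r`; `rotLr B F = (1_b ⊗ ev_{r, rv r}) ∘ (F ⊗ 1_{rv r})`.
`rotRr`: `G : V^a ⊗ V^{rv r} → V^b`; `rotRr B G = (G ⊗ 1_r) ∘ (1_a ⊗ coev_{rv r, r})`.
-/

set_option autoImplicit false
set_option linter.unusedSectionVars false

namespace MP021685Y

open Matrix MP021685Z

variable {k : Type*} [Field k] {ι : Type} [Fintype ι] [DecidableEq ι]

variable {odd : ι → Bool} {B : Matrix ι ι k} {C : ∀ m n : ℕ, Submodule k (Mor k ι m n)}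

/-- The inverse of the associativity of the enumerations. -/
theorem RotM_assoc {l m n : ℕ} {I J K : Type} (a : Fin l ≃ I) (b : Fin m ≃ J) (c : Fin n ≃ K) :
    (sm a (sm b c)).trans (Equiv.sumAssoc I J K).symm =
      (finCongr (Nat.add_assoc l m n).symm).trans (sm (sm a b) c) := by
  have h := sm_assoc a b c
  ext i : 1
  have h2 := congrArg (fun e => e (finCongr (Nat.add_assoc l m n).symm i)) h
  simp only [Equiv.trans_apply] at h2 ⊢
  rw [Equiv.symm_apply_eq, h2]
  rfl

theorem RotM_em {n : ℕ} {I : Type} (a : Fin n ≃ I) :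
    a.trans (Equiv.emptySum Empty I).symm =
      (finCongr (Nat.zero_add n).symm).trans (sm em a) := by
  have h := sm_em_left a
  ext i : 1
  have h2 := congrArg (fun e => e (finCongr (Nat.zero_add n).symm i)) h
  simp only [Equiv.trans_apply] at h2 ⊢
  rw [Equiv.symm_apply_eq, h2]
  rfl

theorem RotM_in_eq {R I J : Type} [Fintype R] [Fintype I] [Fintype J]
    [DecidableEq R] [DecidableEq I] [DecidableEq J]
    (K : Matrix (Empty → ι) ((R ⊕ R) → ι) k) (F : Matrix ((R ⊕ J) → ι) (I → ι) k) :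
    rotM_in K F = rei (Equiv.sumAssoc R R J).symm (Equiv.emptySum Empty J).symm
      (MP021685Z.tsum K 1) * MP021685Z.tsum 1 F := by
  ext y z
  refine Eq.trans ?_ (Matrix.mul_apply).symm
  apply Fintype.sum_of_injective (fun s : R → ι => Sum.elim (z ∘ Sum.inl) (Sum.elim s y))
  · intro s s' hss
    have := congrArg (fun f : R ⊕ (R ⊕ J) → ι => fun i : R => f (Sum.inr (Sum.inl i))) hss
    simpa using this
  · intro x hx
    simp only [rei, MP021685Z.tsum, Matrix.one_apply]
    by_cases h5 : x ∘ Sum.inl = z ∘ Sum.inl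
    · by_cases h6 : y = x ∘ Sum.inr ∘ Sum.inr
      · exfalso
        apply hx
        refine ⟨x ∘ Sum.inr ∘ Sum.inl, ?_⟩
        funext i
        rcases i with i | i | i
        · exact (congrFun h5 i).symm
        · rfl
        · exact congrFun h6 i
      · have h7 : ¬ ((y ∘ (Equiv.emptySum Empty J).symm.symm) ∘ Sum.inr =
            (x ∘ (Equiv.sumAssoc R R J).symm.symm) ∘ Sum.inr) := by
          intro h8
          apply h6
          exact h8
        rw [if_neg h7]
        simp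
    · rw [if_neg h5]
      simp
  · intro s
    simp only [rei, MP021685Z.tsum, Matrix.one_apply]
    have h5 : (y ∘ (Equiv.emptySum Empty J).symm.symm) ∘ Sum.inr =
        ((Sum.elim (z ∘ Sum.inl) (Sum.elim s y)) ∘ (Equiv.sumAssoc R R J).symm.symm) ∘
          Sum.inr := rfl
    have h6 : (Sum.elim (z ∘ Sum.inl) (Sum.elim s y)) ∘ Sum.inl = z ∘ Sum.inl := rfl
    rw [if_pos h5, if_pos h6, mul_one, one_mul]
    have h7 : (Empty.elim : Empty → ι) =
        (y ∘ (Equiv.emptySum Empty J).symm.symm) ∘ Sum.inl := Subsingleton.elim _ _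
    have h8 : (Sum.elim (z ∘ Sum.inl) s : R ⊕ R → ι) =
        ((Sum.elim (z ∘ Sum.inl) (Sum.elim s y)) ∘ (Equiv.sumAssoc R R J).symm.symm) ∘
          Sum.inl := by
      funext i
      rcases i with i | i <;> rfl
    rw [h7, h8]
    rfl

theorem RotM_out_eq {R I J : Type} [Fintype R] [Fintype I] [Fintype J]
    [DecidableEq R] [DecidableEq I] [DecidableEq J]
    (K : Matrix ((R ⊕ R) → ι) (Empty → ι) k) (G : Matrix (J → ι) ((R ⊕ I) → ι) k) :
    rotM_out K G = MP021685Z.tsum 1 G * rei (Equiv.emptySum Empty I).symm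
      (Equiv.sumAssoc R R I).symm (MP021685Z.tsum K 1) := by
  ext z y
  refine Eq.trans ?_ (Matrix.mul_apply).symm
  apply Fintype.sum_of_injective (fun t : R → ι => Sum.elim (z ∘ Sum.inl) (Sum.elim t y))
  · intro s s' hss
    have := congrArg (fun f : R ⊕ (R ⊕ I) → ι => fun i : R => f (Sum.inr (Sum.inl i))) hss
    simpa using this
  · intro x hx
    simp only [rei, MP021685Z.tsum, Matrix.one_apply]
    by_cases h5 : z ∘ Sum.inl = x ∘ Sum.inl
    · by_cases h6 : x ∘ Sum.inr ∘ Sum.inr = y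
      · exfalso
        apply hx
        refine ⟨x ∘ Sum.inr ∘ Sum.inl, ?_⟩
        funext i
        rcases i with i | i | i
        · exact congrFun h5 i
        · rfl
        · exact (congrFun h6 i).symm
      · have h7 : ¬ ((x ∘ (Equiv.sumAssoc R R I).symm.symm) ∘ Sum.inr =
            (y ∘ (Equiv.emptySum Empty I).symm.symm) ∘ Sum.inr) := by
          intro h8
          apply h6
          exact h8
        rw [if_neg h7]
        simp
    · rw [if_neg h5]
      simp
  · intro t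
    simp only [rei, MP021685Z.tsum, Matrix.one_apply]
    have h5 : ((Sum.elim (z ∘ Sum.inl) (Sum.elim t y)) ∘ (Equiv.sumAssoc R R I).symm.symm) ∘
          Sum.inr = (y ∘ (Equiv.emptySum Empty I).symm.symm) ∘ Sum.inr := rfl
    have h6 : z ∘ Sum.inl = (Sum.elim (z ∘ Sum.inl) (Sum.elim t y)) ∘ Sum.inl := rfl
    rw [if_pos h5, if_pos h6, mul_one, one_mul]
    have h7 : (Empty.elim : Empty → ι) =
        (y ∘ (Equiv.emptySum Empty I).symm.symm) ∘ Sum.inl := Subsingleton.elim _ _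
    have h8 : (Sum.elim (z ∘ Sum.inl) t : R ⊕ R → ι) =
        ((Sum.elim (z ∘ Sum.inl) (Sum.elim t y)) ∘ (Equiv.sumAssoc R R I).symm.symm) ∘
          Sum.inl := by
      funext i
      rcases i with i | i <;> rfl
    rw [h7, h8, mul_comm]
    rfl

theorem rotL_mem' (hC : IsSuperFamily odd B C) {l m n : ℕ} {R I J : Type} [Fintype R]
    [Fintype I] [Fintype J] [DecidableEq R] [DecidableEq I] [DecidableEq J] {r : Fin l ≃ R}
    {a : Fin m ≃ I} {b : Fin n ≃ J} {F : Matrix ((R ⊕ J) → ι) (I → ι) k}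
    (hF : F ∈ Hm C a (sm r b)) : rotL B F ∈ Hm C (sm (rv r) a) b := by
  have h1 := Hm_tsum hC (Hm_one hC (rv r)) hF
  have h2 : rei (Equiv.sumAssoc R R J).symm (Equiv.emptySum Empty J).symm
      (MP021685Z.tsum (evI B R) (1 : Matrix (J → ι) (J → ι) k)) ∈ Hm C (sm (rv r) (sm r b)) b :=
    Hm_rei (Nat.add_assoc l l n).symm (Nat.zero_add n).symm _ _ (RotM_assoc (rv r) r b)
      (RotM_em b) (Hm_tsum hC (evI_mem' hC r) (Hm_one hC b))
  have h3 := Hm_mul hC h2 h1
  have h4 : rotM_in (evI B R) F ∈ Hm C (sm (rv r) a) b := by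
    rw [RotM_in_eq]
    exact h3
  exact h4

theorem rotR_mem' (hC : IsSuperFamily odd B C) {l m n : ℕ} {R I J : Type} [Fintype R]
    [Fintype I] [Fintype J] [DecidableEq R] [DecidableEq I] [DecidableEq J] {r : Fin l ≃ R}
    {a : Fin m ≃ I} {b : Fin n ≃ J} {G : Matrix (J → ι) ((R ⊕ I) → ι) k}
    (hG : G ∈ Hm C (sm (rv r) a) b) : rotR B G ∈ Hm C a (sm r b) := by
  have h1 := Hm_tsum hC (Hm_one hC r) hG
  have h2 : rei (Equiv.emptySum Empty I).symm (Equiv.sumAssoc R R I).symm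
      (MP021685Z.tsum (coevI B R) (1 : Matrix (I → ι) (I → ι) k)) ∈ Hm C a (sm r (sm (rv r) a)) :=
    Hm_rei (Nat.zero_add m).symm (Nat.add_assoc l l m).symm _ _ (RotM_em a)
      (RotM_assoc r (rv r) a) (Hm_tsum hC (coevI_mem' hC r) (Hm_one hC a))
  have h3 := Hm_mul hC h1 h2
  have h4 : rotM_out (coevI B R) G ∈ Hm C a (sm r b) := by
    rw [RotM_out_eq]
    exact h3
  exact h4

end MP021685Y
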