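import Pool.Agent.Lib.MP_021685_agY.RotS
import Pool.Agent.Lib.MP_021685_agZ.PrkRot

/-!
# The super ranks: relabelling and rotation

LEAF. Guide: `MP021685Z.prk_rei` (`agZ/Rot.lean`), `prk_rot`, `PrkRot_equiv`, `PrkRot_sand`
(`agZ/PrkRot.lean`), `transpose_mem`, `exists_transpose` (`agZ/Trans.lean`).

`srk_rot`: `prk_equiv` with `PrkRot_equiv` (`rotL` as a linear equivalence); the images of the
spaces agree by `PrkRot_sand`, `rotL_mem'`, `rotR_mem'`; the radicals by `mem_rad_tw`,
`strace_rot`: every `H ∈ Hm C b (sm (rv r) a)` is `rotR B G` with `G = rotL B H` in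
`Hm C (sm (rv (rv r)) b) a = Hm C (sm r b) a`.
`exists_transpose'`: the matrix is `(formR B R * w * formR B⁻¹ R)ᵀ` (see the old proof), which is
`rotRr` of `rotL` of `w` (up to `Empty` slots): `w : r → r ⊕ em`, `rotL B w : rv r ⊕ r → em`,
`r = rv (rv r)`, `rotRr` gives `rv r → em ⊕ rv r`.
-/

set_option autoImplicit false
set_option linter.unusedSectionVars false

namespace MP021685Y

open Matrix MP021685Z

variable {k : Type*} [Field k] {ι : Type} [Fintype ι] [DecidableEq ι]

variable {odd : ι → Bool} {B : Matrix ι ι k} {C : ∀ m n : ℕ, Submodule k (Mor k ι m n)}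

theorem Srk_rr {I J I' J' : Type} (e : I' ≃ I) (e' : J' ≃ J) (F : Matrix (J → ι) (I → ι) k) :
    rei e.symm e'.symm (rei e e' F) = F := by
  funext x y
  show F ((x ∘ e'.symm.symm) ∘ e'.symm) ((y ∘ e.symm.symm) ∘ e.symm) = F x y
  have h1 : (x ∘ e'.symm.symm) ∘ e'.symm = x := by
    funext i
    simp
  have h2 : (y ∘ e.symm.symm) ∘ e.symm = y := by
    funext i
    simp
  rw [h1, h2]

/-- Relabelling as a linear equivalence. -/
def Srk_E {I J I' J' : Type} (e : I' ≃ I) (e' : J' ≃ J) :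
    Matrix (J → ι) (I → ι) k ≃ₗ[k] Matrix (J' → ι) (I' → ι) k where
  toFun := fun F => rei e e' F
  invFun := fun F => rei e.symm e'.symm F
  map_add' := fun _ _ => rfl
  map_smul' := fun _ _ => rfl
  left_inv := fun F => Srk_rr e e' F
  right_inv := fun F => Srk_rr e.symm e'.symm F

theorem Srk_tr {I I' : Type} [Fintype I] [Fintype I'] [DecidableEq I] [DecidableEq I'] (e : I' ≃ I)
    (F : Matrix (I → ι) (I → ι) k) : trace (rei e e F) = trace F := by
  show ∑ x : I' → ι, F (x ∘ e.symm) (x ∘ e.symm) = ∑ x : I → ι, F x x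
  exact Fintype.sum_equiv (Equiv.arrowCongr e (Equiv.refl ι)) _ _ fun x => rfl

theorem Srk_Kd {I I' : Type} [Fintype I] [Fintype I'] (e : I' ≃ I) :
    rei e e (Kd k odd I) = Kd k odd I' := by
  funext x y
  show (Matrix.diagonal fun x : I → ι => ∏ i, sgn k odd (x i)) (x ∘ e.symm) (y ∘ e.symm) =
    (Matrix.diagonal fun x : I' → ι => ∏ i, sgn k odd (x i)) x y
  by_cases h : x = y
  · subst h
    rw [Matrix.diagonal_apply_eq, Matrix.diagonal_apply_eq]
    exact Fintype.prod_equiv e.symm _ _ fun i => rfl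
  · rw [Matrix.diagonal_apply_ne _ h, Matrix.diagonal_apply_ne]
    intro h'
    apply h
    funext i
    have := congrFun h' (e i)
    simpa using this

theorem Srk_symm {m m' : ℕ} {I I' : Type} {a : Fin m ≃ I} {a' : Fin m' ≃ I'} (hm : m' = m)
    (e : I' ≃ I) (ha : a'.trans e = (finCongr hm).trans a) :
    a.trans e.symm = (finCongr hm.symm).trans a' := by
  subst hm
  have h1 : a'.trans e = a := by
    rw [ha]
    ext i
    rfl
  ext i
  have h2 : a i = e (a' i) := by rw [← h1]; rfl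
  show e.symm (a i) = a' i
  rw [h2, Equiv.symm_apply_apply]

/-- Relabelling along maps which respect the enumerations. -/
theorem srk_rei {m n m' n' : ℕ} {I J I' J' : Type} [Fintype I] [Fintype J] [Fintype I']
    [Fintype J'] [DecidableEq I] [DecidableEq J] [DecidableEq I'] [DecidableEq J']
    {a : Fin m ≃ I} {b : Fin n ≃ J} {a' : Fin m' ≃ I'} {b' : Fin n' ≃ J'}
    (hm : m' = m) (hn : n' = n) (e : I' ≃ I) (e' : J' ≃ J)
    (ha : a'.trans e = (finCongr hm).trans a) (hb : b'.trans e' = (finCongr hn).trans b)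
    (X : Matrix (J → ι) (J → ι) k) (Y : Matrix (I → ι) (I → ι) k) :
    srk odd C a' b' (rei e' e' X) (rei e e Y) = srk odd C a b X Y := by
  symm
  refine prk_equiv _ _ _ _ (Srk_E e e') ?_ ?_
  · ext G
    constructor
    · rintro ⟨_, ⟨F, hF, rfl⟩, rfl⟩
      refine ⟨rei e e' F, Hm_rei hm hn e e' ha hb hF, ?_⟩
      show rei e' e' X * rei e e' F * rei e e Y = rei e e' (X * F * Y)
      rw [Hom_rei_mul e e e' (X * F) Y, Hom_rei_mul e e' e' X F]
    · rintro ⟨G, hG, rfl⟩
      refine ⟨X * rei e.symm e'.symm G * Y, ⟨rei e.symm e'.symm G,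
        Hm_rei hm.symm hn.symm e.symm e'.symm (Srk_symm hm e ha) (Srk_symm hn e' hb) hG, rfl⟩, ?_⟩
      show rei e e' (X * rei e.symm e'.symm G * Y) = rei e' e' X * G * rei e e Y
      rw [Hom_rei_mul e e e' (X * rei e.symm e'.symm G) Y,
        Hom_rei_mul e e' e' X (rei e.symm e'.symm G)]
      have h1 : rei e e' (rei e.symm e'.symm G) = G := Srk_rr e.symm e'.symm G
      rw [h1]
  · intro F _
    rw [mem_rad_tw, mem_rad_tw]
    have key : ∀ G : Matrix (I → ι) (J → ι) k,
        trace (Kd k odd I' * rei e' e G * rei e e' F) = trace (Kd k odd I * G * F) := by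
      intro G
      rw [← Srk_Kd (k := k) (odd := odd) e, ← Hom_rei_mul e' e e, ← Hom_rei_mul e e' e, Srk_tr]
    constructor
    · intro hF G hG
      show trace (Kd k odd I' * G * rei e e' F) = 0
      have h1 : G = rei e' e (rei e'.symm e.symm G) := (Srk_rr e'.symm e.symm G).symm
      rw [h1, key]
      exact hF _ (Hm_rei hn.symm hm.symm e'.symm e.symm (Srk_symm hn e' hb) (Srk_symm hm e ha) hG)
    · intro hF G hG
      have h1 : trace (Kd k odd I' * rei e' e G * rei e e' F) = 0 :=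
        hF (rei e' e G) (Hm_rei hn hm e' e hb ha hG)
      rwa [key] at h1

/-- Rotation on the left. -/
theorem srk_rot [CharZero k] (hC : IsSuperFamily odd B C) {l m n : ℕ} {R I J : Type}
    [Fintype R] [Fintype I] [Fintype J] [DecidableEq R] [DecidableEq I] [DecidableEq J]
    (r : Fin l ≃ R) (a : Fin m ≃ I) (b : Fin n ≃ J) (X : Matrix (J → ι) (J → ι) k)
    (Y : Matrix (I → ι) (I → ι) k) (w : Matrix (R → ι) (R → ι) k)
    (w' : Matrix (R → ι) (R → ι) k)
    (hw : ∀ r s : R → ι, ∑ p : R → ι, (∏ i, B (r i) (p i)) * w p s =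
      ∑ p : R → ι, w' p r * ∏ i, B (p i) (s i)) :
    srk odd C a (sm r b) (tsum w X) Y = srk odd C (sm (rv r) a) b X (tsum w' Y) := by
  refine prk_equiv _ _ _ _ (PrkRot_equiv hC.nondeg R I J) ?_ ?_
  · ext G
    simp only [Submodule.mem_map, sand]
    constructor
    · rintro ⟨_, ⟨F, hF, rfl⟩, rfl⟩
      exact ⟨rotL B F, rotL_mem' hC hF, (PrkRot_sand X Y w w' hw F).symm⟩
    · rintro ⟨G', hG', rfl⟩
      refine ⟨_, ⟨rotR B G', rotR_mem' hC hG', rfl⟩, ?_⟩
      have h := PrkRot_sand X Y w w' hw (rotR B G')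
      rw [rotL_rotR hC.nondeg] at h
      exact h
  · intro F _
    rw [mem_rad_tw, mem_rad_tw]
    constructor
    · intro h H hH
      have h1 : rotL B H ∈ Hm C (sm (rv (rv r)) b) a := rotL_mem' hC hH
      rw [rv_rv] at h1
      have h2 : H = rotR B (rotL B H) := (rotR_rotL hC.nondeg H).symm
      rw [h2]
      exact (strace_rot hC F (rotL B H)).trans (h _ h1)
    · intro h G hG
      have h1 : rotR B G ∈ Hm C b (sm (rv r) a) := rotR_mem' hC (by rw [rv_rv]; exact hG)
      rw [← strace_rot hC F G]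
      exact h _ h1

/-- `rotLr` as a linear equivalence. -/
noncomputable def Srk_equivr (hB : IsUnit B.det) (R I J : Type) [Fintype R] [DecidableEq R] :
    Matrix ((J ⊕ R) → ι) (I → ι) k ≃ₗ[k] Matrix (J → ι) ((I ⊕ R) → ι) k where
  toFun := rotLr B
  invFun := rotRr B
  left_inv := rotRr_rotLr hB
  right_inv := rotLr_rotRr hB
  map_add' F G := by
    ext y z
    simp only [rotLr, Matrix.add_apply, mul_add, Finset.sum_add_distrib]
  map_smul' c F := by
    ext y z
    simp only [rotLr, Matrix.smul_apply, smul_eq_mul, RingHom.id_apply, Finset.mul_sum]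
    exact Finset.sum_congr rfl fun s _ => by ring

/-- Rotation on the right. -/
theorem srk_rotr [CharZero k] (hC : IsSuperFamily odd B C) {l m n : ℕ} {R I J : Type}
    [Fintype R] [Fintype I] [Fintype J] [DecidableEq R] [DecidableEq I] [DecidableEq J]
    (r : Fin l ≃ R) (a : Fin m ≃ I) (b : Fin n ≃ J) (Y : Matrix (I → ι) (I → ι) k) :
    srk odd C a (sm b r) 1 Y = srk odd C (sm a (rv r)) b 1 (tsum Y 1) := by
  refine prk_equiv _ _ _ _ (Srk_equivr hC.nondeg R I J) ?_ ?_
  · ext G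
    simp only [Submodule.mem_map, sand]
    constructor
    · rintro ⟨_, ⟨F, hF, rfl⟩, rfl⟩
      refine ⟨rotLr B F, rotLr_mem hC hF, ?_⟩
      show (1 : Matrix (J → ι) (J → ι) k) * rotLr B F * tsum Y 1 =
        rotLr B ((1 : Matrix ((J ⊕ R) → ι) ((J ⊕ R) → ι) k) * F * Y)
      rw [Matrix.one_mul, Matrix.one_mul, rotLr_mul]
      rfl
    · rintro ⟨G', hG', rfl⟩
      refine ⟨_, ⟨rotRr B G', rotRr_mem hC hG', rfl⟩, ?_⟩
      show rotLr B ((1 : Matrix ((J ⊕ R) → ι) ((J ⊕ R) → ι) k) * rotRr B G' * Y) =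
        (1 : Matrix (J → ι) (J → ι) k) * G' * tsum Y 1
      rw [Matrix.one_mul, Matrix.one_mul, rotLr_mul, rotLr_rotRr hC.nondeg]
      rfl
  · intro F _
    rw [mem_rad_tw, mem_rad_tw]
    constructor
    · intro h H hH
      have h1 : rotLr B H ∈ Hm C (sm b (rv (rv r))) a := rotLr_mem hC hH
      rw [rv_rv] at h1
      have h2 : H = rotRr B (rotLr B H) := (rotRr_rotLr hC.nondeg H).symm
      rw [h2]
      exact (strace_rotr hC F (rotLr B H)).trans (h _ h1)
    · intro h G hG
      have h1 : rotRr B G ∈ Hm C b (sm a (rv r)) := rotRr_mem hC (by rw [rv_rv]; exact hG)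
      rw [← strace_rotr hC F G]
      exact h _ h1

end MP021685Y
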