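import Pool.Agent.Lib.MP_021685_agY.RotS
import Pool.Agent.Lib.MP_021685_agZ.PrkRot

/-!
# The `B`-transpose of an idempotent

LEAF. Guide: `MP021685Z.prk_rei` (`agZ/Rot.lean`), `prk_rot`, `PrkRot_equiv`, `PrkRot_sand`
(`agZ/PrkRot.lean`), `transpose_mem`, `exists_transpose` (`agZ/Trans.lean`).

`srk_rot`: `prk_equiv` with `PrkRot_equiv` (`rotL` as a linear equivalence); the images of the
spaces agree by `PrkRot_sand`, `rotL_mem'`, `rotR_mem'`; the radicals by `mem_rad_tw`,
`strace_rot`: every `H ∈ Hm C b (sm (rv r) a)` is `rotR B G` with `G = rotL B H` in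
`Hm C (sm (rv (rv r)) b) a = Hm C (sm r b) a`.
`exists_transpose'`: the matrix is `(formR B R * w * formR B⁻¹ R)ᵀ` (see the old proof), which is
`rotRr` of `rotL` of `w` (up to `Empty` slots): `w : r → r ⊕ em`, `rotL B w : rv r ⊕ r → em`,
`r = rv (rv r)`, `rotRr` gives `rv r → em ⊕ rv r`.
-/

set_option autoImplicit false
set_option linter.unusedSectionVars false

namespace MP021685Y

open Matrix MP021685Z

variable {k : Type*} [Field k] {ι : Type} [Fintype ι] [DecidableEq ι]

variable {odd : ι → Bool} {B : Matrix ι ι k} {C : ∀ m n : ℕ, Submodule k (Mor k ι m n)}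

theorem SrkT_transpose_mem (hC : IsSuperFamily odd B C) {l : ℕ} {R : Type} [Fintype R]
    [DecidableEq R] (r : Fin l ≃ R) (w : Matrix (R → ι) (R → ι) k) (hw : w ∈ Hm C r r) :
    (formR B R * w * formR B⁻¹ R)ᵀ ∈ Hm C (rv r) (rv r) := by
  have h1 : rei (Equiv.refl R) (Equiv.sumEmpty R Empty) w ∈ Hm C r (sm r em) := by
    refine Hm_rei (C := C) (a := r) (b := r) (a' := r) (b' := sm r em) rfl rfl _ _ ?_ ?_ hw
    · rfl
    · exact sm_em_right r
  have h2 := rotL_mem' hC h1
  have h3 : rotL B (rei (Equiv.refl R) (Equiv.sumEmpty R Empty) w) ∈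
      Hm C (sm (rv r) (rv (rv r))) em := by
    rw [rv_rv]
    exact h2
  have h4 := rotRr_mem hC h3
  have h5 : rei (Equiv.refl R) (Equiv.emptySum Empty R).symm
      (rotRr B (rotL B (rei (Equiv.refl R) (Equiv.sumEmpty R Empty) w))) ∈
      Hm C (rv r) (rv r) := by
    refine Hm_rei (C := C) (a := rv r) (b := sm em (rv r)) (a' := rv r) (b' := rv r) rfl
      (Nat.zero_add l).symm _ _ rfl ?_ h4
    have := sm_em_left (rv r)
    ext1 i
    rw [Equiv.trans_apply, Equiv.symm_apply_eq]
    have h := congrFun (congrArg DFunLike.coe this) (finCongr (Nat.zero_add l).symm i)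
    simp only [Equiv.trans_apply] at h ⊢
    rw [h]
    rfl
  convert h5 using 1
  ext r s
  simp only [Matrix.transpose_apply, Matrix.mul_apply, rei, rotRr, rotL, formR]
  refine Finset.sum_congr rfl fun t _ => ?_
  rw [mul_comm]
  rfl

/-- The `B`-transpose of an idempotent. -/
theorem exists_transpose' (hC : IsSuperFamily odd B C) {l : ℕ} {R : Type} [Fintype R]
    [DecidableEq R] (r : Fin l ≃ R) (w : Matrix (R → ι) (R → ι) k) (hw : w ∈ Hm C r r)
    (hw2 : w * w = w) :
    ∃ w' ∈ Hm C (rv r) (rv r), w' * w' = w' ∧ trace w' = trace w ∧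
      ∀ r s : R → ι, ∑ p : R → ι, (∏ i, B (r i) (p i)) * w p s =
        ∑ p : R → ι, w' p r * ∏ i, B (p i) (s i) := by
  have hi := formR_inv_mul hC.nondeg R
  refine ⟨(formR B R * w * formR B⁻¹ R)ᵀ, SrkT_transpose_mem hC r w hw, ?_, ?_, ?_⟩
  · rw [← Matrix.transpose_mul]
    congr 1
    calc formR B R * w * formR B⁻¹ R * (formR B R * w * formR B⁻¹ R)
        = formR B R * w * (formR B⁻¹ R * formR B R) * w * formR B⁻¹ R := by
          simp only [Matrix.mul_assoc]
      _ = formR B R * w * formR B⁻¹ R := by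
          rw [hi, Matrix.mul_one, Matrix.mul_assoc (formR B R) w w, hw2]
  · rw [Matrix.trace_transpose, Matrix.trace_mul_comm, ← Matrix.mul_assoc, hi, Matrix.one_mul]
  · intro r s
    have h : formR B R * w = (formR B R * w * formR B⁻¹ R) * formR B R := by
      rw [Matrix.mul_assoc _ (formR B⁻¹ R), hi, Matrix.mul_one]
    exact congrFun (congrFun h r) s

end MP021685Y
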