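import Pool.Agent.Lib.MP_021685_agY.Bridge
import Pool.Agent.Lib.MP_021685_agY.SrkT
import Pool.Agent.Lib.MP_021685_agY.Cs
import Pool.Agent.Lib.MP_021685_agZ.Two

/-!
# The bound `h(w, V^{2m}) ≤ rank w * a_{2m}`

LEAF. Guide: `MP021685Z.D_step`, `D_le` (`agZ/Two.lean`).

Step: `srk (sm r μ) μ 1 (w ⊗ 1)² ≤ srk (sm r μ) (sm r μ) (w ⊗ 1) (w ⊗ 1) * srk μ μ 1 1` (`cs'`),
`μ = Equiv.refl (Fin m)`; `srk_rot` turns the first factor into
`srk (sm (rv r) (sm r μ)) μ 1 (w' ⊗ (w ⊗ 1))`, and `srk_rei` with `Equiv.sumAssoc` (`sm_assoc`) into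
`srk (sm (sm (rv r) r) μ) μ 1 ((w' ⊗ w) ⊗ 1)`; `w'` from `exists_transpose'`. The second factor is
`numRank C (m + m)` (`srk_numRank`), positive by `numRank_pos'`. Iterate with a structure of states
(number of slots, type, enumeration, idempotent), crude bound `crude` (it holds for every second
argument `Q` of `prk`), `Num_iter_bound_nat`.
-/

set_option autoImplicit false
set_option linter.unusedSectionVars false

namespace MP021685Y

open Matrix MP021685Z

variable {k : Type*} [Field k] {ι : Type} [Fintype ι] [DecidableEq ι]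

variable {odd : ι → Bool} {B : Matrix ι ι k} {C : ∀ m n : ℕ, Submodule k (Mor k ι m n)}

theorem card_pos' (hC : IsSuperFamily odd B C) : 0 < Fintype.card ι := by
  obtain ⟨e, -, e', -, h⟩ := hC.unit_mem
  rw [Fintype.card_pos_iff]
  by_contra hι
  rw [not_nonempty_iff] at hι
  apply h
  ext x y
  rw [Matrix.mul_apply]
  have : IsEmpty (Fin 1 → ι) := ⟨fun f => hι.false (f 0)⟩
  simp

/-- One step of the iteration. -/
theorem Two_step [IsAlgClosed k] [CharZero k] (hC : IsSuperFamily odd B C) {l : ℕ} {R : Type}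
    [Fintype R] [DecidableEq R] (r : Fin l ≃ R) (m : ℕ) (w : Matrix (R → ι) (R → ι) k)
    (hw : w ∈ Hm C r r) (hw2 : w * w = w) :
    ∃ w₁ ∈ Hm C (sm (rv r) r) (sm (rv r) r), w₁ * w₁ = w₁ ∧ w₁.rank = w.rank ^ 2 ∧
      srk odd C (sm r (Equiv.refl (Fin m))) (Equiv.refl (Fin m)) 1 (tsum w 1) ^ 2 ≤
        numRank C (m + m) *
          srk odd C (sm (sm (rv r) r) (Equiv.refl (Fin m))) (Equiv.refl (Fin m)) 1
            (tsum w₁ 1) := by
  obtain ⟨w', hw', hw'2, htr, hrel⟩ := exists_transpose' hC r w hw hw2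
  have hrk : w'.rank = w.rank := by
    have h1 := rank_idem w' hw'2
    have h2 := rank_idem w hw2
    rw [htr, ← h2] at h1
    exact_mod_cast h1
  refine ⟨tsum w' w, Hm_tsum hC hw' hw, ?_, ?_, ?_⟩
  · rw [tsum_mul, hw'2, hw2]
  · rw [rank_tsum _ _ hw'2 hw2, hrk, sq]
  · have hη : tsum w (1 : Matrix (Fin m → ι) (Fin m → ι) k) ∈
        Hm C (sm r (Equiv.refl (Fin m))) (sm r (Equiv.refl (Fin m))) :=
      Hm_tsum hC hw (Hm_one hC _)
    have hη2 : tsum w (1 : Matrix (Fin m → ι) (Fin m → ι) k) * tsum w 1 = tsum w 1 := by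
      rw [tsum_mul, hw2, mul_one]
    have h1 := cs' hC (sm r (Equiv.refl (Fin m))) (Equiv.refl (Fin m))
      (tsum w (1 : Matrix (Fin m → ι) (Fin m → ι) k)) (1 : Matrix (Fin m → ι) (Fin m → ι) k)
      hη hη2 (Hm_one hC _) (mul_one 1)
    rw [srk_numRank hC, mul_comm] at h1
    refine h1.trans (Nat.mul_le_mul_left _ (le_of_eq ?_))
    rw [srk_rot hC r (sm r (Equiv.refl (Fin m))) (Equiv.refl (Fin m)) 1
        (MP021685Z.tsum w (1 : Matrix (Fin m → ι) (Fin m → ι) k)) w w' hrel,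
      ← srk_rei (a' := sm (sm (rv r) r) (Equiv.refl (Fin m))) (b' := Equiv.refl (Fin m))
        (Nat.add_assoc l l m) rfl (Equiv.sumAssoc R R (Fin m)) (Equiv.refl (Fin m))
        (sm_assoc (rv r) r (Equiv.refl (Fin m))) rfl]
    congr 1
    ext x y
    show MP021685Z.tsum w' (MP021685Z.tsum w (1 : Matrix (Fin m → ι) (Fin m → ι) k)) (x ∘ (Equiv.sumAssoc R R (Fin m)).symm)
        (y ∘ (Equiv.sumAssoc R R (Fin m)).symm) =
        MP021685Z.tsum (MP021685Z.tsum w' w) (1 : Matrix (Fin m → ι) (Fin m → ι) k) x y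
    unfold MP021685Z.tsum
    show w' _ _ * (w _ _ * _) = w' _ _ * w _ _ * _
    rw [mul_assoc]
    rfl

/-- A state of the iteration. -/
structure Two_St (C : ∀ m n : ℕ, Submodule k (Mor k ι m n)) where
  l : ℕ
  R : Type
  [fR : Fintype R]
  [dR : DecidableEq R]
  r : Fin l ≃ R
  w : Matrix (R → ι) (R → ι) k
  hw : w ∈ Hm C r r
  hw2 : w * w = w

attribute [instance] Two_St.fR Two_St.dR

/-- The numerical rank of a state. -/
noncomputable def Two_St.D (odd : ι → Bool) (s : Two_St C) (m : ℕ) : ℕ :=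
  srk odd C (sm s.r (Equiv.refl (Fin m))) (Equiv.refl (Fin m)) 1 (tsum s.w 1)

theorem Two_St.next [IsAlgClosed k] [CharZero k] (hC : IsSuperFamily odd B C) (m : ℕ)
    (s : Two_St C) : ∃ s' : Two_St C, s'.w.rank = s.w.rank ^ 2 ∧
      s.D odd m ^ 2 ≤ numRank C (m + m) * s'.D odd m := by
  obtain ⟨w₁, h1, h2, h3, h4⟩ := Two_step hC s.r m s.w s.hw s.hw2
  exact ⟨⟨_, _, sm (rv s.r) s.r, w₁, h1, h2⟩, h3, h4⟩

/-- `h(w, V^{2m}) ≤ rank w * a_{2m}`. -/
theorem D_le' [IsAlgClosed k] [CharZero k] (hC : IsSuperFamily odd B C) {l : ℕ} {R : Type}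
    [Fintype R] [DecidableEq R] (r : Fin l ≃ R) (m : ℕ) (w : Matrix (R → ι) (R → ι) k)
    (hw : w ∈ Hm C r r) (hw2 : w * w = w) :
    srk odd C (sm r (Equiv.refl (Fin m))) (Equiv.refl (Fin m)) 1 (tsum w 1) ≤
      w.rank * numRank C (m + m) := by
  choose nxt hn1 hn2 using Two_St.next hC m
  obtain ⟨s, hs0, hs1⟩ : ∃ s : ℕ → Two_St C, s 0 = ⟨l, R, r, w, hw, hw2⟩ ∧
      ∀ j, s (j + 1) = nxt (s j) :=
    ⟨fun j => Nat.rec ⟨l, R, r, w, hw, hw2⟩ (fun _ t => nxt t) j, rfl, fun j => rfl⟩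
  have hrk : ∀ j, (s j).w.rank = w.rank ^ (2 ^ j) := by
    intro j
    induction j with
    | zero => rw [hs0]; simp
    | succ j ih => rw [hs1, hn1, ih, ← pow_mul, pow_succ]
  have hcr : ∀ j, ((s j).D odd m : ℝ) ≤ (w.rank : ℝ) ^ (2 ^ j) *
      ((Fintype.card (Fin m → ι) : ℝ) * (Fintype.card (Fin m → ι) : ℝ)) := by
    intro j
    have h1 : (s j).D odd m ≤ Fintype.card (Fin m → ι) *
        (tsum (s j).w (1 : Matrix (Fin m → ι) (Fin m → ι) k)).rank := crude _ _ _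
    rw [rank_tsum (s j).w (1 : Matrix (Fin m → ι) (Fin m → ι) k) (s j).hw2 (mul_one 1), hrk,
      rank_one] at h1
    calc ((s j).D odd m : ℝ) ≤ ((Fintype.card (Fin m → ι) * (w.rank ^ (2 ^ j) *
          Fintype.card (Fin m → ι)) : ℕ) : ℝ) := by exact_mod_cast h1
      _ = _ := by push_cast; ring
  have h := Num_iter_bound_nat (a := (numRank C (m + m) : ℝ))
    (B := (Fintype.card (Fin m → ι) : ℝ) * (Fintype.card (Fin m → ι) : ℝ))
    (by exact_mod_cast numRank_pos' hC (m + m)) w.rank (fun j => ((s j).D odd m : ℝ))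
    (fun j => by
      show ((s j).D odd m : ℝ) ^ 2 ≤ (numRank C (m + m) : ℝ) * ((s (j + 1)).D odd m : ℝ)
      rw [hs1]
      exact_mod_cast hn2 (s j)) hcr
  have h' : (((s 0).D odd m : ℕ) : ℝ) ≤ ((w.rank * numRank C (m + m) : ℕ) : ℝ) := by
    push_cast
    exact h
  rw [hs0] at h'
  exact_mod_cast h'

end MP021685Y
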